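import Mathlib

set_option autoImplicit false

/-! # Linear forms over a field: retractions, primality, coprimality -/

namespace Pool.Agent.H160.TF

open MvPolynomial

variable {K : Type*} [Field K] {l : ℕ}

/-- The linear form with coefficient vector `a`. -/
noncomputable def lf (a : Fin l → K) : MvPolynomial (Fin l) K := ∑ j, C (a j) * X j

@[simp] theorem lf_zero : lf (0 : Fin l → K) = 0 := by simp [lf]

theorem lf_add (a b : Fin l → K) : lf (a + b) = lf a + lf b := by
  simp [lf, add_mul, Finset.sum_add_distrib]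

theorem lf_smul (c : K) (a : Fin l → K) : lf (c • a) = C c * lf a := by
  simp [lf, Finset.mul_sum, mul_assoc]

theorem lf_neg (a : Fin l → K) : lf (-a) = - lf a := by
  have := lf_smul (-1) a
  simpa using this

theorem lf_sub (a b : Fin l → K) : lf (a - b) = lf a - lf b := by
  rw [sub_eq_add_neg, lf_add, lf_neg, sub_eq_add_neg]

/-- `lf` as a linear map. -/
noncomputable def lfL : (Fin l → K) →ₗ[K] MvPolynomial (Fin l) K where
  toFun := lf
  map_add' := lf_add
  map_smul' c a := by simp [lf_smul, MvPolynomial.smul_eq_C_mul]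

@[simp] theorem lfL_apply (a : Fin l → K) : lfL a = lf a := rfl

theorem lf_single (i : Fin l) : lf (Pi.single i (1 : K)) = X i := by
  classical
  rw [lf, Finset.sum_eq_single i]
  · simp
  · intro j _ hj
    simp [Pi.single_eq_of_ne hj]
  · intro h
    exact absurd (Finset.mem_univ i) h

theorem coeff_lf (a : Fin l → K) (j : Fin l) : coeff (Finsupp.single j 1) (lf a) = a j := by
  simp only [lf, coeff_sum, coeff_C_mul]
  rw [Finset.sum_eq_single j]
  · simp
  · intro k _ hk
    rw [coeff_X, if_neg, mul_zero]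
    intro h
    exact hk (Finsupp.single_left_injective one_ne_zero h)
  · intro h
    exact absurd (Finset.mem_univ _) h

theorem lf_injective : Function.Injective (lf : (Fin l → K) → MvPolynomial (Fin l) K) := by
  intro a b h
  funext j
  rw [← coeff_lf a j, ← coeff_lf b j, h]

theorem lf_ne_zero {a : Fin l → K} (h : a ≠ 0) : lf a ≠ 0 := fun h0 =>
  h (lf_injective (by rw [h0, lf_zero]))

/-- The retraction killing `lf a`. -/
noncomputable def ret (a p : Fin l → K) : MvPolynomial (Fin l) K →ₐ[K] MvPolynomial (Fin l) K :=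
  aeval (fun i => X i - C (p i) * lf a)

theorem ret_lf (a p b : Fin l → K) : ret a p (lf b) = lf (b - (b ⬝ᵥ p) • a) := by
  rw [lf_sub, lf_smul]
  conv_lhs => rw [lf]
  rw [map_sum]
  simp only [ret, map_mul, aeval_X, algHom_C, algebraMap_eq, mul_sub, Finset.sum_sub_distrib]
  congr 1
  rw [dotProduct, map_sum, Finset.sum_mul]
  exact Finset.sum_congr rfl fun j _ => by rw [map_mul, mul_assoc]

theorem dvd_sub_ret (a p : Fin l → K) (s : MvPolynomial (Fin l) K) : lf a ∣ s - ret a p s := by
  rw [← Ideal.mem_span_singleton, ← Ideal.Quotient.eq]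
  have : (Ideal.Quotient.mkₐ K (Ideal.span {lf a})).comp (ret a p) =
      Ideal.Quotient.mkₐ K (Ideal.span {lf a}) := by
    apply MvPolynomial.algHom_ext
    intro i
    simp only [AlgHom.comp_apply, ret, aeval_X, map_sub, map_mul, Ideal.Quotient.mkₐ_eq_mk]
    rw [Ideal.Quotient.eq_zero_iff_mem.2 (Ideal.mem_span_singleton_self (lf a))]
    simp
  exact (DFunLike.congr_fun this s).symm

theorem ret_self {a p : Fin l → K} (h : a ⬝ᵥ p = 1) : ret a p (lf a) = 0 := by
  rw [ret_lf, h, one_smul, sub_self, lf_zero]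

theorem ret_eq_zero_iff {a p : Fin l → K} (h : a ⬝ᵥ p = 1) (s : MvPolynomial (Fin l) K) :
    ret a p s = 0 ↔ lf a ∣ s := by
  constructor
  · intro h0
    have := dvd_sub_ret a p s
    rwa [h0, sub_zero] at this
  · rintro ⟨t, rfl⟩
    rw [map_mul, ret_self h, zero_mul]

theorem exists_dual {a : Fin l → K} (h : a ≠ 0) : ∃ p : Fin l → K, a ⬝ᵥ p = 1 := by
  classical
  obtain ⟨i, hi⟩ : ∃ i, a i ≠ 0 := by
    by_contra hc
    push Not at hc
    exact h (funext hc)
  refine ⟨Pi.single i (a i)⁻¹, ?_⟩
  rw [dotProduct_single, mul_inv_cancel₀ hi]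

theorem prime_lf {a : Fin l → K} (h : a ≠ 0) : Prime (lf a) := by
  obtain ⟨p, hp⟩ := exists_dual h
  refine ⟨lf_ne_zero h, ?_, ?_⟩
  · intro hu
    have := hu.map (ret a p)
    rw [ret_self hp] at this
    exact not_isUnit_zero this
  · intro s t hst
    rw [← ret_eq_zero_iff hp, map_mul, mul_eq_zero, ret_eq_zero_iff hp, ret_eq_zero_iff hp] at hst
    exact hst

theorem eq_smul_of_dvd {a b : Fin l → K} (ha : a ≠ 0) (h : lf a ∣ lf b) : ∃ c : K, b = c • a := by
  obtain ⟨p, hp⟩ := exists_dual ha
  rw [← ret_eq_zero_iff hp, ret_lf] at h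
  refine ⟨b ⬝ᵥ p, ?_⟩
  have := lf_injective (h.trans lf_zero.symm)
  exact sub_eq_zero.1 this

theorem dvd_smul (a : Fin l → K) (c : K) : lf a ∣ lf (c • a) := by
  rw [lf_smul]
  exact dvd_mul_left _ _

theorem isRelPrime_lf {a b : Fin l → K} (ha : a ≠ 0) (h : ∀ c : K, b ≠ c • a) :
    IsRelPrime (lf a) (lf b) := by
  rw [(prime_lf ha).irreducible.isRelPrime_iff_not_dvd]
  intro hd
  obtain ⟨c, hc⟩ := eq_smul_of_dvd ha hd
  exact h c hc

/-- symmetric form of non-proportionality -/
theorem np_symm {a b : Fin l → K} (ha : a ≠ 0) (h : ∀ c : K, b ≠ c • a) (c : K) :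
    a ≠ c • b := by
  intro e
  rcases eq_or_ne c 0 with rfl | hc
  · rw [zero_smul] at e
    exact ha e
  · apply h c⁻¹
    rw [e, smul_smul, inv_mul_cancel₀ hc, one_smul]

/-- A finite set of pairwise non-proportional nonzero vectors. -/
def NP (B : Finset (Fin l → K)) : Prop :=
  (∀ a ∈ B, a ≠ 0) ∧ ∀ a ∈ B, ∀ b ∈ B, a ≠ b → ∀ c : K, b ≠ c • a

theorem NP.subset {B B' : Finset (Fin l → K)} (h : NP B) (hs : B' ⊆ B) : NP B' :=
  ⟨fun a ha => h.1 a (hs ha), fun a ha b hb => h.2 a (hs ha) b (hs hb)⟩

theorem NP.isRelPrime {B : Finset (Fin l → K)} (h : NP B) {a b : Fin l → K} (ha : a ∈ B)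
    (hb : b ∈ B) (hab : a ≠ b) : IsRelPrime (lf a) (lf b) :=
  isRelPrime_lf (h.1 a ha) (h.2 a ha b hb hab)

theorem NP.prod_dvd {B : Finset (Fin l → K)} (h : NP B) {z : MvPolynomial (Fin l) K}
    (hz : ∀ b ∈ B, lf b ∣ z) : ∏ b ∈ B, lf b ∣ z :=
  Finset.prod_dvd_of_isRelPrime (fun _ ha _ hb hab => h.isRelPrime ha hb hab) hz

theorem NP.prod_ne_zero {B : Finset (Fin l → K)} (h : NP B) : ∏ b ∈ B, lf b ≠ 0 :=
  Finset.prod_ne_zero_iff.2 fun b hb => lf_ne_zero (h.1 b hb)

/-- **Gluing.** A family of polynomials on a finite set of hyperplanes that comes locally in codimension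
two from a polynomial, comes from a polynomial. -/
theorem glue (B : Finset (Fin l → K)) (hB : NP B) (t : (Fin l → K) → MvPolynomial (Fin l) K)
    (hloc : ∀ a ∈ B, ∀ b ∈ B, a ≠ b → ∃ G, ∀ c ∈ B, c ∈ Submodule.span K {a, b} → lf c ∣ G - t c) :
    ∃ G, ∀ b ∈ B, lf b ∣ G - t b := by
  classical
  induction B using Finset.induction_on with
  | empty => exact ⟨0, by simp⟩
  | insert a B ha ih =>
    have hB' : NP B := hB.subset (Finset.subset_insert _ _)
    obtain ⟨G, hG⟩ := ih hB' fun x hx y hy hxy => by
      obtain ⟨G, hG⟩ := hloc x (Finset.mem_insert_of_mem hx) y (Finset.mem_insert_of_mem hy) hxy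
      exact ⟨G, fun c hc => hG c (Finset.mem_insert_of_mem hc)⟩
    have ha0 : a ≠ 0 := hB.1 a (Finset.mem_insert_self _ _)
    obtain ⟨p, hp⟩ := exists_dual ha0
    have hanp : ∀ b ∈ B, ∀ c : K, b ≠ c • a := fun b hb =>
      hB.2 a (Finset.mem_insert_self _ _) b (Finset.mem_insert_of_mem hb)
        (fun h => ha (h ▸ hb))
    -- the residues
    have key : ∏ b ∈ B, ret a p (lf b) ∣ ret a p (t a - G) := by
      set κ : (Fin l → K) → Submodule K (Fin l → K) := fun b => Submodule.span K {a, b} with hκ
      rw [← Finset.prod_fiberwise_of_maps_to (t := B.image κ) (g := κ)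
        (fun b hb => Finset.mem_image_of_mem _ hb)]
      apply Finset.prod_dvd_of_isRelPrime
      · intro X hX Y hY hXY
        apply IsRelPrime.prod_left
        intro b hb
        apply IsRelPrime.prod_right
        intro c hc
        rw [Finset.mem_filter] at hb hc
        rw [ret_lf, ret_lf]
        have hb0 : b - (b ⬝ᵥ p) • a ≠ 0 := fun h => hanp b hb.1 _ (sub_eq_zero.1 h)
        apply isRelPrime_lf hb0
        intro r hr
        apply hXY
        rw [← hb.2, ← hc.2]
        -- the spans agree
        have hc0 : c - (c ⬝ᵥ p) • a ≠ 0 := fun h => hanp c hc.1 _ (sub_eq_zero.1 h)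
        have hr0 : r ≠ 0 := by
          rintro rfl
          rw [zero_smul] at hr
          exact hc0 hr
        have e1 : c = r • b + ((c ⬝ᵥ p) - r * (b ⬝ᵥ p)) • a := by
          rw [sub_smul, mul_smul]
          have := sub_eq_iff_eq_add.1 hr
          conv_lhs => rw [this]
          rw [smul_sub]
          abel
        have e2 : b = r⁻¹ • c + (-(r⁻¹ * ((c ⬝ᵥ p) - r * (b ⬝ᵥ p)))) • a := by
          have h3 : r • b = c - ((c ⬝ᵥ p) - r * (b ⬝ᵥ p)) • a := eq_sub_of_add_eq e1.symm
          have h4 : b = r⁻¹ • (c - ((c ⬝ᵥ p) - r * (b ⬝ᵥ p)) • a) := by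
            rw [← h3, smul_smul, inv_mul_cancel₀ hr0, one_smul]
          conv_lhs => rw [h4]
          rw [smul_sub, smul_smul, neg_smul, sub_eq_add_neg]
        apply le_antisymm
        · rw [hκ]
          refine Submodule.span_le.2 ?_
          rintro x (rfl | rfl)
          · exact Submodule.subset_span (by simp)
          · have : r⁻¹ • c + (-(r⁻¹ * ((c ⬝ᵥ p) - r * (x ⬝ᵥ p)))) • a ∈ Submodule.span K {a, c} :=
              Submodule.add_mem _ (Submodule.smul_mem _ _ (Submodule.subset_span (by simp)))
                (Submodule.smul_mem _ _ (Submodule.subset_span (by simp)))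
            rw [← e2] at this
            exact this
        · rw [hκ]
          refine Submodule.span_le.2 ?_
          rintro x (rfl | rfl)
          · exact Submodule.subset_span (by simp)
          · have : r • b + ((x ⬝ᵥ p) - r * (b ⬝ᵥ p)) • a ∈ Submodule.span K {a, b} :=
              Submodule.add_mem _ (Submodule.smul_mem _ _ (Submodule.subset_span (by simp)))
                (Submodule.smul_mem _ _ (Submodule.subset_span (by simp)))
            rw [← e1] at this
            exact this
      · intro X hX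
        obtain ⟨b₀, hb₀, rfl⟩ := Finset.mem_image.1 hX
        obtain ⟨G', hG'⟩ := hloc a (Finset.mem_insert_self _ _) b₀ (Finset.mem_insert_of_mem hb₀)
          (fun h => ha (h ▸ hb₀))
        have h1 : ∏ b ∈ B with κ b = κ b₀, lf b ∣ G' - G := by
          apply (hB'.subset (Finset.filter_subset _ _)).prod_dvd
          intro b hb
          rw [Finset.mem_filter] at hb
          have hbm : b ∈ Submodule.span K {a, b₀} := by
            have : b ∈ κ b := Submodule.subset_span (by simp)
            rwa [hb.2] at this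
          have h2 := hG' b (Finset.mem_insert_of_mem hb.1) hbm
          have h3 := hG b hb.1
          have : G' - G = (G' - t b) - (G - t b) := by ring
          rw [this]
          exact dvd_sub h2 h3
        have h4 := map_dvd (ret a p) h1
        rw [map_prod] at h4
        have h5 : ret a p (G' - G) = ret a p (t a - G) := by
          have h6 := hG' a (Finset.mem_insert_self _ _) (Submodule.subset_span (by simp))
          rw [← ret_eq_zero_iff hp, map_sub, sub_eq_zero] at h6
          rw [map_sub, map_sub, h6]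
        rwa [h5] at h4
    obtain ⟨h, hh⟩ := key
    refine ⟨G + h * ∏ b ∈ B, lf b, ?_⟩
    intro b hb
    rcases Finset.mem_insert.1 hb with rfl | hb
    · -- new hyperplane
      have hρρ : ∀ s, ret b p (ret b p s) = ret b p s := by
        intro s
        have := dvd_sub_ret b p s
        rw [← ret_eq_zero_iff hp, map_sub, sub_eq_zero] at this
        exact this.symm
      rw [← ret_eq_zero_iff hp]
      have h7 := congrArg (ret b p) hh
      rw [hρρ, map_mul, map_prod] at h7
      simp only [hρρ] at h7
      rw [map_sub, map_add, map_mul, map_prod]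
      rw [map_sub] at h7
      linear_combination -h7
    · have h8 := hG b hb
      have h9 : lf b ∣ h * ∏ b ∈ B, lf b := (Finset.dvd_prod_of_mem _ hb).mul_left _
      have : G + h * ∏ b ∈ B, lf b - t b = (G - t b) + h * ∏ b ∈ B, lf b := by ring
      rw [this]
      exact dvd_add h8 h9

end Pool.Agent.H160.TF
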