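import Mathlib
import Pool.Agent.H160.TF.Basic

set_option autoImplicit false

/-! # `q`-polynomials -/

namespace Pool.Agent.H160.TF

open MvPolynomial

section general

variable {K : Type*} [Field K] [Fintype K] {R : Type*} [CommRing R] [Algebra K R]

variable (K) in
/-- the `j`-th power of the Frobenius, as a linear map -/
noncomputable def fr (R : Type*) [CommRing R] [Algebra K R] (j : ℕ) : R →ₗ[K] R :=
  ((FiniteField.frobeniusAlgHom K R) ^ j).toLinearMap

theorem fr_apply (j : ℕ) (x : R) : fr K R j x = x ^ (Fintype.card K ^ j) := by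
  simp only [fr, AlgHom.toLinearMap_apply, AlgHom.coe_pow, FiniteField.coe_frobeniusAlgHom]
  rw [pow_iterate]

theorem fr_succ (j : ℕ) (x : R) : fr K R (j + 1) x = (fr K R j x) ^ (Fintype.card K) := by
  rw [fr_apply, fr_apply, pow_succ, pow_mul]

theorem fr_zero (x : R) : fr K R 0 x = x := by
  rw [fr_apply, pow_zero, pow_one]

variable (K) in
/-- the `q`-polynomial with coefficients `c 0, ..., c (m-1)` -/
noncomputable def qe (c : ℕ → R) (m : ℕ) : R →ₗ[K] R :=
  ∑ j ∈ Finset.range m, (LinearMap.mulLeft K (c j)).comp (fr K R j)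

theorem qe_apply (c : ℕ → R) (m : ℕ) (x : R) :
    qe K c m x = ∑ j ∈ Finset.range m, c j * x ^ (Fintype.card K ^ j) := by
  simp [qe, fr_apply]

theorem one_lt_q : 1 < Fintype.card K := Fintype.one_lt_card

theorem q_pow_inj {i j : ℕ} (h : Fintype.card K ^ i = Fintype.card K ^ j) : i = j :=
  Nat.pow_right_injective one_lt_q h

omit [Algebra K R] in
/-- Root counting: a `q`-polynomial of small degree with many roots is zero. -/
theorem coeff_eq_zero_of_roots [IsDomain R] {ι : Type*} [Fintype ι] {f : ι → R}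
    (hf : Function.Injective f) (m : ℕ) (hm : Fintype.card K ^ m ≤ Fintype.card ι) (d : ℕ → R)
    (h : ∀ i, ∑ j ∈ Finset.range m, d j * f i ^ (Fintype.card K ^ j) = 0) :
    ∀ j < m, d j = 0 := by
  classical
  set P : Polynomial R := ∑ j ∈ Finset.range m, Polynomial.C (d j) * Polynomial.X ^ (Fintype.card K ^ j)
    with hP
  have hdeg : P.degree < (Fintype.card K ^ m : ℕ) := by
    apply lt_of_le_of_lt (Polynomial.degree_sum_le _ _)
    rw [Finset.sup_lt_iff]
    · intro j hj
      rw [Finset.mem_range] at hj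
      apply lt_of_le_of_lt (Polynomial.degree_C_mul_X_pow_le _ _)
      exact_mod_cast Nat.pow_lt_pow_right one_lt_q hj
    · exact WithBot.bot_lt_coe _
  have hP0 : P = 0 := by
    by_contra hne
    have h1 : (Finset.univ.image f).card ≤ P.natDegree := by
      refine le_trans ?_ (P.card_roots' )
      refine le_trans ?_ (Multiset.toFinset_card_le _)
      apply Finset.card_le_card
      intro x hx
      obtain ⟨i, _, rfl⟩ := Finset.mem_image.1 hx
      rw [Multiset.mem_toFinset, Polynomial.mem_roots hne, Polynomial.IsRoot.def, hP,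
        Polynomial.eval_finsetSum]
      simpa using h i
    rw [Finset.card_image_of_injective _ hf, Finset.card_univ] at h1
    rw [Polynomial.degree_eq_natDegree hne] at hdeg
    have h2 : P.natDegree < Fintype.card K ^ m := by exact_mod_cast hdeg
    omega
  intro j hj
  have h1 := congrArg (fun p => Polynomial.coeff p (Fintype.card K ^ j)) hP0
  simp only [hP, Polynomial.finsetSum_coeff, Polynomial.coeff_C_mul, Polynomial.coeff_X_pow,
    Polynomial.coeff_zero] at h1
  rw [Finset.sum_eq_single j] at h1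
  · simpa using h1
  · intro i _ hij
    rw [if_neg, mul_zero]
    intro h
    exact hij (q_pow_inj h).symm
  · intro h
    exact absurd (Finset.mem_range.2 hj) h

variable (K) in
/-- There is a monic `q`-polynomial of degree `q ^ m` with `m` given roots. -/
theorem exists_qpoly (y : ℕ → R) (m : ℕ) : ∃ c : ℕ → R, c m = 1 ∧
    ∀ i < m, qe K c (m + 1) (y i) = 0 := by
  induction m with
  | zero => exact ⟨fun _ => 1, rfl, fun i hi => absurd hi (Nat.not_lt_zero _)⟩
  | succ m ih =>
    obtain ⟨c, hc, hy⟩ := ih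
    set q := Fintype.card K with hq
    set t := qe K c (m + 1) (y m) with ht
    -- the new coefficients
    set c' : ℕ → R := fun j => (if j = 0 then 0 else (c (j - 1)) ^ q) -
      (if j = m + 1 then 0 else t ^ (q - 1) * c j) with hc'
    have hq0 : q ≠ 0 := by
      have := one_lt_q (K := K)
      omega
    have key : ∀ x : R, qe K c' (m + 1 + 1) x = (qe K c (m + 1) x) ^ q -
        t ^ (q - 1) * qe K c (m + 1) x := by
      intro x
      have h1 : (qe K c (m + 1) x) ^ q =
          ∑ j ∈ Finset.range (m + 1 + 1), (if j = 0 then 0 else (c (j - 1)) ^ q) * x ^ (q ^ j) := by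
        rw [Finset.sum_range_succ' _ (m + 1), if_pos rfl, zero_mul, add_zero, qe_apply]
        have h2 := map_sum (FiniteField.frobeniusAlgHom K R)
          (fun j => c j * x ^ (Fintype.card K ^ j)) (Finset.range (m + 1))
        simp only [FiniteField.coe_frobeniusAlgHom] at h2
        rw [h2]
        refine Finset.sum_congr rfl fun j _ => ?_
        rw [if_neg (Nat.succ_ne_zero j), Nat.add_sub_cancel, mul_pow, ← pow_mul, ← pow_succ]
      have h3 : t ^ (q - 1) * qe K c (m + 1) x =
          ∑ j ∈ Finset.range (m + 1 + 1), (if j = m + 1 then 0 else t ^ (q - 1) * c j) *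
            x ^ (q ^ j) := by
        rw [Finset.sum_range_succ _ (m + 1), if_pos rfl, zero_mul, add_zero, qe_apply, Finset.mul_sum]
        refine Finset.sum_congr rfl fun j hj => ?_
        rw [if_neg (by rw [Finset.mem_range] at hj; omega), mul_assoc]
      rw [h1, h3, ← Finset.sum_sub_distrib, qe_apply]
      exact Finset.sum_congr rfl fun j _ => by rw [hc', ← sub_mul]
    refine ⟨c', ?_, ?_⟩
    · rw [hc']
      simp [hc]
    · intro i hi
      rw [key]
      rcases Nat.lt_succ_iff_lt_or_eq.1 hi with h | rfl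
      · rw [hy i h, zero_pow hq0, mul_zero, sub_zero]
      · rw [← ht, ← pow_succ, Nat.sub_add_cancel (Nat.one_le_iff_ne_zero.2 hq0), sub_self]

/-- A monic `q`-polynomial is the product over its roots. -/
theorem qe_eq_prod [IsDomain R] {ι : Type*} [Fintype ι] {f : ι → R}
    (hf : Function.Injective f) (m : ℕ) (hm : Fintype.card ι = Fintype.card K ^ m) (c : ℕ → R)
    (hc : c m = 1) (h : ∀ i, qe K c (m + 1) (f i) = 0) (x : R) :
    qe K c (m + 1) x = ∏ i, (x - f i) := by
  classical
  set P : Polynomial R := ∑ j ∈ Finset.range (m + 1),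
    Polynomial.C (c j) * Polynomial.X ^ (Fintype.card K ^ j) with hP
  set Q : Polynomial R := ∏ i, (Polynomial.X - Polynomial.C (f i)) with hQ
  have hQdeg : Q.natDegree = Fintype.card K ^ m := by
    rw [hQ, Polynomial.natDegree_prod_of_monic _ _ fun i _ => Polynomial.monic_X_sub_C _]
    simp [hm]
  have hQm : Q.Monic := Polynomial.monic_prod_of_monic _ _ fun i _ => Polynomial.monic_X_sub_C _
  have hlow : (∑ j ∈ Finset.range m,
      Polynomial.C (c j) * Polynomial.X ^ (Fintype.card K ^ j) : Polynomial R).degree <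
      (Fintype.card K ^ m : ℕ) := by
    apply lt_of_le_of_lt (Polynomial.degree_sum_le _ _)
    rw [Finset.sup_lt_iff]
    · intro j hj
      rw [Finset.mem_range] at hj
      apply lt_of_le_of_lt (Polynomial.degree_C_mul_X_pow_le _ _)
      exact_mod_cast Nat.pow_lt_pow_right one_lt_q hj
    · exact WithBot.bot_lt_coe _
  have hPe : P = Polynomial.X ^ (Fintype.card K ^ m) + ∑ j ∈ Finset.range m,
      Polynomial.C (c j) * Polynomial.X ^ (Fintype.card K ^ j) := by
    rw [hP, Finset.sum_range_succ, hc, Polynomial.C_1, one_mul, add_comm]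
  have hPm : P.Monic := by
    rw [hPe]
    exact Polynomial.monic_X_pow_add hlow
  have hPdeg : P.degree = (Fintype.card K ^ m : ℕ) := by
    rw [hPe, Polynomial.degree_add_eq_left_of_degree_lt]
    · rw [Polynomial.degree_X_pow]
    · rwa [Polynomial.degree_X_pow]
  have hPQ : P = Q := by
    by_contra hne
    have hne' : P - Q ≠ 0 := sub_ne_zero.2 hne
    have hd : (P - Q).degree < P.degree := by
      apply Polynomial.degree_sub_lt_left
      · rw [hPdeg, Polynomial.degree_eq_natDegree hQm.ne_zero, hQdeg]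
      · exact hPm.ne_zero
      · rw [hPm.leadingCoeff, hQm.leadingCoeff]
    have h1 : (Finset.univ.image f).card ≤ (P - Q).natDegree := by
      refine le_trans ?_ ((P - Q).card_roots')
      refine le_trans ?_ (Multiset.toFinset_card_le _)
      apply Finset.card_le_card
      intro y hy
      obtain ⟨i, _, rfl⟩ := Finset.mem_image.1 hy
      rw [Multiset.mem_toFinset, Polynomial.mem_roots hne', Polynomial.IsRoot.def,
        Polynomial.eval_sub, hP, hQ, Polynomial.eval_finsetSum, Polynomial.eval_prod]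
      rw [Finset.prod_eq_zero (Finset.mem_univ i) (by simp), sub_zero]
      have := h i
      rw [qe_apply] at this
      simpa using this
    rw [Finset.card_image_of_injective _ hf, Finset.card_univ] at h1
    rw [hPdeg, Polynomial.degree_eq_natDegree hne'] at hd
    have h2 : (P - Q).natDegree < Fintype.card K ^ m := by exact_mod_cast hd
    omega
  have h3 := congrArg (Polynomial.eval x) hPQ
  rw [hP, hQ, Polynomial.eval_finsetSum, Polynomial.eval_prod] at h3
  rw [qe_apply]
  simpa using h3

end general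

/-! ## `q`-polynomials on linear forms -/

section forms

variable {K : Type*} [Field K] [Fintype K] {l : ℕ}

theorem dvd_qe (c : ℕ → (MvPolynomial (Fin l) K)) (m : ℕ) (s x : (MvPolynomial (Fin l) K)) (h : s ∣ x) : s ∣ qe K c m x := by
  rw [qe_apply]
  refine Finset.dvd_sum fun j _ => ?_
  refine Dvd.dvd.mul_left ?_ _
  exact h.trans (dvd_pow_self x (pow_pos Fintype.card_pos j).ne')

/-- extension by zero -/
def ext0 (l m : ℕ) (w : Fin m → K) : Fin l → K := fun i => if h : i.val < m then w ⟨i, h⟩ else 0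

/-- **The logarithmic vector fields of all rational hyperplanes.** -/
theorem exists_coeffs_aux (η : (Fin l → K) →ₗ[K] (MvPolynomial (Fin l) K)) (h : ∀ a, lf a ∣ η a) (m : ℕ) (hm : m ≤ l) :
    ∃ c : ℕ → (MvPolynomial (Fin l) K), ∀ a : Fin l → K, (∀ i : Fin l, m ≤ i.val → a i = 0) → η a = qe K c m (lf a) := by
  classical
  induction m with
  | zero =>
    refine ⟨fun _ => 0, fun a ha => ?_⟩
    have : a = 0 := funext fun i => ha i (Nat.zero_le _)
    rw [this]
    simp
  | succ m ih =>
    obtain ⟨c, hc⟩ := ih (by omega)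
    have hml : m < l := by omega
    set ζ : (Fin l → K) →ₗ[K] (MvPolynomial (Fin l) K) := η - (qe K c m).comp lfL with hζ
    have hζd : ∀ a, lf a ∣ ζ a := fun a => dvd_sub (h a) (dvd_qe _ _ _ _ (by simp))
    have hζ0 : ∀ a : Fin l → K, (∀ i : Fin l, m ≤ i.val → a i = 0) → ζ a = 0 := by
      intro a ha
      simp [hζ, hc a ha]
    obtain ⟨c', hc'1, hc'⟩ := exists_qpoly K
      (fun i : ℕ => if h : i < l then (X ⟨i, h⟩ : (MvPolynomial (Fin l) K)) else 0) m
    have hv : ∀ a : Fin l → K, (∀ i : Fin l, m ≤ i.val → a i = 0) →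
        qe K c' (m + 1) (lf a) = 0 := by
      intro a ha
      rw [lf, map_sum]
      refine Finset.sum_eq_zero fun i _ => ?_
      by_cases hi : m ≤ i.val
      · simp [ha i hi]
      · push Not at hi
        have h1 := hc' i.val hi
        rw [dif_pos i.isLt] at h1
        rw [← MvPolynomial.smul_eq_C_mul, map_smul, h1, smul_zero]
    set e : Fin l → K := Pi.single ⟨m, hml⟩ 1 with he
    have hP : qe K c' (m + 1) (lf e) = ∏ w : Fin m → K, (lf e - lf (ext0 l m w)) := by
      apply qe_eq_prod (f := fun w : Fin m → K => (lf (ext0 l m w) : (MvPolynomial (Fin l) K)))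
      · intro w w' hw
        have h2 := lf_injective hw
        funext i
        have h3 := congrFun h2 ⟨i.val, by omega⟩
        simpa [ext0] using h3
      · simp
      · exact hc'1
      · intro w
        apply hv
        intro i hi
        simp [ext0, Nat.not_lt.2 hi]
    have hdvd : qe K c' (m + 1) (lf e) ∣ ζ e := by
      rw [hP]
      apply Finset.prod_dvd_of_isRelPrime
      · intro w _ w' _ hww
        change IsRelPrime (lf e - lf (ext0 l m w)) (lf e - lf (ext0 l m w'))
        rw [← lf_sub, ← lf_sub]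
        apply isRelPrime_lf
        · intro h0
          have := congrFun h0 ⟨m, hml⟩
          simp [he, ext0] at this
        · intro r hr
          have h1 := congrFun hr ⟨m, hml⟩
          simp [he, ext0] at h1
          apply hww
          funext i
          have h2 := congrFun hr ⟨i.val, by omega⟩
          have h3 : (⟨i.val, by omega⟩ : Fin l) ≠ ⟨m, hml⟩ := by
            intro h
            have := Fin.mk.inj_iff.1 h
            omega
          simp [he, ext0, ← h1, Pi.single_eq_of_ne h3] at h2
          exact h2.symm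
      · intro w _
        rw [← lf_sub]
        have h1 := hζd (e - ext0 l m w)
        rw [map_sub, hζ0 (ext0 l m w) (fun i hi => by simp [ext0, Nat.not_lt.2 hi]), sub_zero] at h1
        exact h1
    obtain ⟨k, hk⟩ := hdvd
    refine ⟨fun j => (if j < m then c j else 0) + k * c' j, fun a ha => ?_⟩
    have hq : ∀ x : (MvPolynomial (Fin l) K), qe K (fun j => (if j < m then c j else 0) + k * c' j) (m + 1) x =
        qe K c m x + k * qe K c' (m + 1) x := by
      intro x
      simp only [qe_apply, add_mul, Finset.sum_add_distrib, Finset.mul_sum]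
      congr 1
      · rw [Finset.sum_range_succ, if_neg (lt_irrefl m), zero_mul, add_zero]
        exact Finset.sum_congr rfl fun j hj => by rw [if_pos (Finset.mem_range.1 hj)]
      · exact Finset.sum_congr rfl fun j _ => by ring
    rw [hq]
    have ha' : a = (a - a ⟨m, hml⟩ • e) + a ⟨m, hml⟩ • e := by abel
    have hav : ∀ i : Fin l, m ≤ i.val → (a - a ⟨m, hml⟩ • e) i = 0 := by
      intro i hi
      by_cases him : i = ⟨m, hml⟩
      · subst him
        simp [he]
      · have : m + 1 ≤ i.val := by
          rcases Nat.lt_or_ge m i.val with h1 | h1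
          · exact h1
          · exact absurd (Fin.ext (by simpa using le_antisymm h1 hi)) him
        simp [he, ha i this, Pi.single_eq_of_ne him]
    have h1 : ζ a = a ⟨m, hml⟩ • ζ e := by
      conv_lhs => rw [ha']
      rw [map_add, hζ0 _ hav, zero_add, map_smul]
    have h2 : qe K c' (m + 1) (lf a) = a ⟨m, hml⟩ • qe K c' (m + 1) (lf e) := by
      conv_lhs => rw [ha']
      rw [lf_add, map_add, hv _ hav, zero_add, ← lfL_apply, map_smul, map_smul, lfL_apply]
    have h3 : η a = qe K c m (lf a) + ζ a := by simp [hζ]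
    rw [h3, h1, h2, hk]
    simp only [MvPolynomial.smul_eq_C_mul]
    ring

theorem exists_coeffs (η : (Fin l → K) →ₗ[K] (MvPolynomial (Fin l) K)) (h : ∀ a, lf a ∣ η a) :
    ∃ c : ℕ → (MvPolynomial (Fin l) K), ∀ a : Fin l → K, η a = qe K c l (lf a) := by
  obtain ⟨c, hc⟩ := exists_coeffs_aux η h l le_rfl
  exact ⟨c, fun a => hc a fun i hi => absurd i.isLt (Nat.not_lt.2 hi)⟩

/-- uniqueness of the coefficients -/
theorem coeffs_unique (c : ℕ → (MvPolynomial (Fin l) K)) (m : ℕ) (hm : m ≤ l) (h : ∀ a : Fin l → K, qe K c m (lf a) = 0) :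
    ∀ j < m, c j = 0 := by
  apply coeff_eq_zero_of_roots (K := K) lf_injective m
  · rw [Fintype.card_fun, Fintype.card_fin]
    exact Nat.pow_le_pow_right Fintype.card_pos hm
  · intro a
    have := h a
    rwa [qe_apply] at this

/-- pairing with `p` as a linear map -/
def dotL (p : Fin l → K) : (Fin l → K) →ₗ[K] K where
  toFun b := b ⬝ᵥ p
  map_add' _ _ := add_dotProduct _ _ _
  map_smul' _ _ := smul_dotProduct _ _ _

omit [Fintype K] in
@[simp] theorem dotL_apply (p b : Fin l → K) : dotL p b = b ⬝ᵥ p := rfl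

omit [Fintype K] in
theorem finrank_ker_dotL {a p : Fin l → K} (hp : a ⬝ᵥ p ≠ 0) :
    Module.finrank K (LinearMap.ker (dotL p)) = l - 1 := by
  have h1 := (dotL p).finrank_range_add_finrank_ker
  have h2 : LinearMap.range (dotL p) = ⊤ := by
    rw [LinearMap.range_eq_top]
    intro c
    refine ⟨(c / (a ⬝ᵥ p)) • a, ?_⟩
    rw [dotL_apply, smul_dotProduct, smul_eq_mul, div_mul_cancel₀ _ hp]
  rw [h2, finrank_top, Module.finrank_self, Module.finrank_fin_fun] at h1
  omega

theorem exists_cp {a p : Fin l → K} (hp : a ⬝ᵥ p ≠ 0) :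
    ∃ c : ℕ → (MvPolynomial (Fin l) K), c (l - 1) = 1 ∧ ∀ b : Fin l → K, b ⬝ᵥ p = 0 → qe K c l (lf b) = 0 := by
  have hl : l ≠ 0 := by
    rintro rfl
    apply hp
    simp [dotProduct]
  let w := Module.finBasisOfFinrankEq K (LinearMap.ker (dotL p)) (finrank_ker_dotL hp)
  obtain ⟨c, hc1, hc⟩ := exists_qpoly K
    (fun i : ℕ => if h : i < l - 1 then (lf ((w ⟨i, h⟩ : LinearMap.ker (dotL p)) : Fin l → K) : (MvPolynomial (Fin l) K))
      else 0) (l - 1)
  rw [Nat.sub_add_cancel (Nat.one_le_iff_ne_zero.2 hl)] at hc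
  refine ⟨c, hc1, fun b hb => ?_⟩
  have hb' : b ∈ LinearMap.ker (dotL p) := hb
  have h1 := w.sum_repr ⟨b, hb'⟩
  have h2 : b = ∑ i, w.repr ⟨b, hb'⟩ i • ((w i : LinearMap.ker (dotL p)) : Fin l → K) := by
    have h3 := congrArg Subtype.val h1
    simp only [AddSubmonoidClass.coe_finsetSum, SetLike.val_smul] at h3
    exact h3.symm
  rw [h2, ← lfL_apply, map_sum, map_sum]
  refine Finset.sum_eq_zero fun i _ => ?_
  rw [map_smul, map_smul, lfL_apply]
  have h3 := hc i.val i.isLt
  rw [dif_pos i.isLt] at h3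
  rw [show (⟨i.val, i.isLt⟩ : Fin (l - 1)) = i from rfl] at h3
  rw [h3, smul_zero]

/-- the `q`-polynomial vanishes on the hyperplane `a` -/
def Van (a : Fin l → K) (G : ℕ → (MvPolynomial (Fin l) K)) : Prop := ∀ b : Fin l → K, lf a ∣ qe K G l (lf b)

theorem van_of_point {a p : Fin l → K} (hp : a ⬝ᵥ p ≠ 0) {c : ℕ → (MvPolynomial (Fin l) K)}
    (hc : ∀ b : Fin l → K, b ⬝ᵥ p = 0 → qe K c l (lf b) = 0) : Van a c := by
  intro b
  set t := (b ⬝ᵥ p) / (a ⬝ᵥ p) with ht
  have h1 : b = (b - t • a) + t • a := by abel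
  have h2 : (b - t • a) ⬝ᵥ p = 0 := by
    rw [sub_dotProduct, smul_dotProduct, smul_eq_mul, ht, div_mul_cancel₀ _ hp, sub_self]
  rw [h1, lf_add, map_add, hc _ h2, zero_add]
  exact dvd_qe _ _ _ _ (dvd_smul a t)

theorem map_qe (φ : (MvPolynomial (Fin l) K) →ₐ[K] (MvPolynomial (Fin l) K)) (G : ℕ → (MvPolynomial (Fin l) K)) (m : ℕ) (x : (MvPolynomial (Fin l) K)) :
    φ (qe K G m x) = qe K (fun j => φ (G j)) m (φ x) := by
  simp [qe_apply, map_sum, map_mul, map_pow]

theorem low_dvd {a : Fin l → K} (ha : a ≠ 0) (d : ℕ → (MvPolynomial (Fin l) K))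
    (h : ∀ b : Fin l → K, lf a ∣ qe K d (l - 1) (lf b)) : ∀ j < l - 1, lf a ∣ d j := by
  obtain ⟨p, hp⟩ := exists_dual ha
  have hp' : a ⬝ᵥ p ≠ 0 := by rw [hp]; exact one_ne_zero
  intro j hj
  rw [← ret_eq_zero_iff hp]
  have := Fintype.ofFinite (LinearMap.ker (dotL p))
  refine coeff_eq_zero_of_roots (K := K) (ι := LinearMap.ker (dotL p))
    (f := fun w => (lf (w : Fin l → K) : (MvPolynomial (Fin l) K))) ?_ (l - 1) ?_ (fun j => ret a p (d j)) ?_ j hj
  · intro w w' hw
    exact Subtype.ext (lf_injective hw)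
  · rw [Module.card_eq_pow_finrank (K := K) (V := LinearMap.ker (dotL p)), finrank_ker_dotL hp']
  · intro w
    have h1 := h w
    rw [← ret_eq_zero_iff hp, map_qe, ret_lf] at h1
    have h2 : (w : Fin l → K) ⬝ᵥ p = 0 := w.2
    rw [h2, zero_smul, sub_zero, qe_apply] at h1
    exact h1

theorem Van.congr {a : Fin l → K} (ha : a ≠ 0) {G G' : ℕ → (MvPolynomial (Fin l) K)} (h : Van a G) (h' : Van a G')
    (he : G (l - 1) = G' (l - 1)) : ∀ j < l - 1, lf a ∣ G j - G' j := by
  apply low_dvd ha (fun j => G j - G' j)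
  intro b
  have h1 := dvd_sub (h b) (h' b)
  have hl : l ≠ 0 := by
    rintro rfl
    exact ha (funext fun i => i.elim0)
  have h2 : qe K (fun j => G j - G' j) (l - 1) (lf b) = qe K G l (lf b) - qe K G' l (lf b) := by
    obtain ⟨m, rfl⟩ := Nat.exists_eq_succ_of_ne_zero hl
    simp only [Nat.succ_eq_add_one, Nat.add_sub_cancel] at he ⊢
    simp only [qe_apply]
    rw [Finset.sum_range_succ, Finset.sum_range_succ, he, add_sub_add_right_eq_sub,
      ← Finset.sum_sub_distrib]
    exact Finset.sum_congr rfl fun j _ => by ring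
  rwa [h2]

theorem Van.of_congr {a : Fin l → K} {G G' : ℕ → (MvPolynomial (Fin l) K)} (h' : Van a G')
    (he : ∀ j < l, lf a ∣ G j - G' j) : Van a G := by
  intro b
  have h1 : qe K G l (lf b) = qe K G' l (lf b) + ∑ j ∈ Finset.range l, (G j - G' j) *
      lf b ^ (Fintype.card K ^ j) := by
    simp only [qe_apply, ← Finset.sum_add_distrib]
    exact Finset.sum_congr rfl fun j _ => by ring
  rw [h1]
  refine dvd_add (h' b) (Finset.dvd_sum fun j hj => ?_)
  exact (he j (Finset.mem_range.1 hj)).mul_right _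

theorem Van.mul {a : Fin l → K} {G : ℕ → (MvPolynomial (Fin l) K)} (h : Van a G) (g : (MvPolynomial (Fin l) K)) : Van a (fun j => g * G j) := by
  intro b
  have h1 : qe K (fun j => g * G j) l (lf b) = g * qe K G l (lf b) := by
    simp only [qe_apply, Finset.mul_sum, mul_assoc]
  rw [h1]
  exact (h b).mul_left _

end forms

end Pool.Agent.H160.TF
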