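import Mathlib
import Pool.Agent.H160.TF.QPoly

set_option autoImplicit false

/-! # Global solutions -/

namespace Pool.Agent.H160.TF

open MvPolynomial

variable {K : Type*} [Field K] {l : ℕ}

theorem exists_dual2 {a b : Fin l → K} (ha : a ≠ 0) (hab : ∀ c : K, b ≠ c • a) :
    ∃ p p' : Fin l → K, a ⬝ᵥ p = 1 ∧ b ⬝ᵥ p = 0 ∧ a ⬝ᵥ p' = 0 ∧ b ⬝ᵥ p' = 1 := by
  obtain ⟨p, hp⟩ := exists_dual ha
  have hb' : b - (b ⬝ᵥ p) • a ≠ 0 := fun h => hab _ (sub_eq_zero.1 h)
  obtain ⟨r, hr⟩ := exists_dual hb'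
  set p' := r - (a ⬝ᵥ r) • p with hp'
  have h1 : a ⬝ᵥ p' = 0 := by
    rw [hp', dotProduct_sub, dotProduct_smul, hp, smul_eq_mul, mul_one, sub_self]
  have h2 : b ⬝ᵥ p' = 1 := by
    rw [hp', dotProduct_sub, dotProduct_smul, smul_eq_mul]
    rw [sub_dotProduct, smul_dotProduct, smul_eq_mul] at hr
    linear_combination hr
  refine ⟨p - (b ⬝ᵥ p) • p', p', ?_, ?_, h1, h2⟩
  · rw [dotProduct_sub, dotProduct_smul, h1, hp, smul_zero, sub_zero]
  · rw [dotProduct_sub, dotProduct_smul, h2, smul_eq_mul, mul_one, sub_self]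

/-- a point on a given member of a pencil and on no other one -/
theorem exists_point {a b e : Fin l → K} (ha : a ≠ 0) (hab : ∀ c : K, b ≠ c • a) (he : e ≠ 0)
    (hes : e ∈ Submodule.span K {a, b}) : ∃ p : Fin l → K, e ⬝ᵥ p = 0 ∧
      ∀ c ∈ Submodule.span K {a, b}, (∀ r : K, c ≠ r • e) → c ⬝ᵥ p ≠ 0 := by
  obtain ⟨p, p', h1, h2, h3, h4⟩ := exists_dual2 ha hab
  obtain ⟨α, β, rfl⟩ := Submodule.mem_span_pair.1 hes
  refine ⟨β • p - α • p', ?_, ?_⟩
  · simp only [dotProduct_sub, dotProduct_smul, add_dotProduct, smul_dotProduct, h1, h2, h3, h4,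
      smul_eq_mul]
    ring
  · intro c hc hr h0
    obtain ⟨γ, δ, rfl⟩ := Submodule.mem_span_pair.1 hc
    simp only [dotProduct_sub, dotProduct_smul, add_dotProduct, smul_dotProduct, h1, h2, h3, h4,
      smul_eq_mul] at h0
    have h5 : γ * β = δ * α := by linear_combination h0
    by_cases hα : α = 0
    · have hβ : β ≠ 0 := by
        rintro rfl
        apply he
        rw [hα, zero_smul, zero_smul, add_zero]
      apply hr (δ / β)
      have hγ : γ = 0 := by
        rw [hα, mul_zero] at h5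
        exact (mul_eq_zero.1 h5).resolve_right hβ
      simp only [hα, hγ, zero_smul, zero_add, smul_smul, div_mul_cancel₀ _ hβ]
    · apply hr (γ / α)
      rw [smul_add, smul_smul, smul_smul, div_mul_cancel₀ _ hα]
      congr 2
      field_simp
      linear_combination -h5

variable [Fintype K]

/-- admissibility of `g` for the pencils all of whose members are in `B` -/
def Adm (B : Finset (Fin l → K)) (g : (MvPolynomial (Fin l) K)) : Prop :=
  ∀ a ∈ B, ∀ b ∈ B, a ≠ b →
    (∃ e ∈ Submodule.span K {a, b}, e ≠ 0 ∧ ∀ c ∈ B, ∀ r : K, c ≠ r • e) ∨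
      g ∈ Ideal.span {lf a, lf b}

/-- **Global solutions.** -/
theorem exists_global {B : Finset (Fin l → K)} (hB : NP B) {g : (MvPolynomial (Fin l) K)} (hg : Adm B g) :
    ∃ G : ℕ → (MvPolynomial (Fin l) K), G (l - 1) = g ∧ ∀ b ∈ B, Van b G := by
  classical
  -- chosen solutions on the single hyperplanes
  have hex : ∀ a : Fin l → K, a ≠ 0 → ∃ c : ℕ → (MvPolynomial (Fin l) K), c (l - 1) = 1 ∧ Van a c := by
    intro a ha
    obtain ⟨p, hp⟩ := exists_dual ha
    have hp' : a ⬝ᵥ p ≠ 0 := by rw [hp]; exact one_ne_zero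
    obtain ⟨c, hc1, hc⟩ := exists_cp hp'
    exact ⟨c, hc1, van_of_point hp' hc⟩
  choose! cc hcc1 hccV using hex
  have hloc : ∀ j < l - 1, ∃ G : (MvPolynomial (Fin l) K), ∀ b ∈ B, lf b ∣ G - g * cc b j := by
    intro j hj
    apply glue B hB (fun b => g * cc b j)
    intro a ha b hb hab
    have ha0 := hB.1 a ha
    have hb0 := hB.1 b hb
    have hnp := hB.2 a ha b hb hab
    -- comparison of a point solution with the chosen ones
    have hcmp : ∀ (c : Fin l → K) (p : Fin l → K) (d : ℕ → (MvPolynomial (Fin l) K)), c ∈ B → c ⬝ᵥ p ≠ 0 →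
        d (l - 1) = 1 → (∀ b : Fin l → K, b ⬝ᵥ p = 0 → qe K d l (lf b) = 0) →
        lf c ∣ d j - cc c j := by
      intro c p d hc hcp hd1 hd
      have hc0 := hB.1 c hc
      exact (van_of_point hcp hd).congr hc0 (hccV c hc0) (hd1.trans (hcc1 c hc0).symm) j hj
    rcases hg a ha b hb hab with ⟨e, hes, he0, heB⟩ | hgI
    · obtain ⟨p, hep, hp⟩ := exists_point ha0 hnp he0 hes
      have hap : a ⬝ᵥ p ≠ 0 := hp a (Submodule.subset_span (by simp)) (heB a ha)
      obtain ⟨d, hd1, hd⟩ := exists_cp hap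
      refine ⟨g * d j, fun c hc hcs => ?_⟩
      rw [← mul_sub]
      exact (hcmp c p d hc (hp c hcs (heB c hc)) hd1 hd).mul_left _
    · obtain ⟨u, v, rfl⟩ := Ideal.mem_span_pair.1 hgI
      obtain ⟨p, p', h1, h2, h3, h4⟩ := exists_dual2 ha0 hnp
      have hap : a ⬝ᵥ p ≠ 0 := by rw [h1]; exact one_ne_zero
      have hbp : b ⬝ᵥ p' ≠ 0 := by rw [h4]; exact one_ne_zero
      obtain ⟨d, hd1, hd⟩ := exists_cp hap
      obtain ⟨d', hd'1, hd'⟩ := exists_cp hbp
      refine ⟨u * lf a * d' j + v * lf b * d j, fun c hc hcs => ?_⟩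
      have e1 : u * lf a * d' j + v * lf b * d j - (u * lf a + v * lf b) * cc c j =
          u * lf a * (d' j - cc c j) + v * lf b * (d j - cc c j) := by ring
      rw [e1]
      obtain ⟨γ, δ, hc'⟩ := Submodule.mem_span_pair.1 hcs
      have hcp : c ⬝ᵥ p = γ := by
        rw [← hc']
        simp only [add_dotProduct, smul_dotProduct, h1, h2, smul_eq_mul]
        ring
      have hcp' : c ⬝ᵥ p' = δ := by
        rw [← hc']
        simp only [add_dotProduct, smul_dotProduct, h3, h4, smul_eq_mul]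
        ring
      apply dvd_add
      · by_cases hδ : δ = 0
        · have : c = a := by
            by_contra hca
            apply hB.2 a ha c hc (fun h => hca h.symm) γ
            rw [← hc', hδ, zero_smul, add_zero]
          rw [this]
          exact ((dvd_refl _).mul_left _).mul_right _
        · exact (hcmp c p' d' hc (by rwa [hcp']) hd'1 hd').mul_left _
      · by_cases hγ : γ = 0
        · have : c = b := by
            by_contra hcb
            apply hB.2 b hb c hc (fun h => hcb h.symm) δ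
            rw [← hc', hγ, zero_smul, zero_add]
          rw [this]
          exact ((dvd_refl _).mul_left _).mul_right _
        · exact (hcmp c p d hc (by rwa [hcp]) hd1 hd).mul_left _
  choose! G hG using hloc
  refine ⟨fun j => if j = l - 1 then g else G j, if_pos rfl, fun b hb => ?_⟩
  have hb0 := hB.1 b hb
  apply Van.of_congr ((hccV b hb0).mul g)
  intro j hj
  by_cases h : j = l - 1
  · rw [if_pos h, h, hcc1 b hb0, mul_one, sub_self]
    exact dvd_zero _
  · rw [if_neg h]
    exact hG j (by omega) b hb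

end Pool.Agent.H160.TF
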