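import Mathlib
import Pool.Agent.H160.TF.Global

set_option autoImplicit false

/-! # The module of logarithmic vector fields of an arrangement over a finite field -/

namespace Pool.Agent.H160.TF

open MvPolynomial

section

variable {K : Type*} [Field K] {l : ℕ} {ι : Type*}

theorem range_pred {n : ℕ} (h : 0 < n) : Finset.range n = Finset.range (n - 1 + 1) := by
  rw [Nat.sub_add_cancel h]

/-- pairing of a constant form with a vector field -/
noncomputable def pr (η : Fin l → (MvPolynomial (Fin l) K)) : (Fin l → K) →ₗ[K] (MvPolynomial (Fin l) K) where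
  toFun a := ∑ j, C (a j) * η j
  map_add' a b := by simp [add_mul, Finset.sum_add_distrib]
  map_smul' c a := by simp [MvPolynomial.smul_eq_C_mul, Finset.mul_sum, mul_assoc]

theorem pr_apply (η : Fin l → (MvPolynomial (Fin l) K)) (a : Fin l → K) : pr η a = ∑ j, C (a j) * η j := rfl

theorem pr_single (η : Fin l → (MvPolynomial (Fin l) K)) (i : Fin l) : pr η (Pi.single i 1) = η i := by
  classical
  rw [pr_apply, Finset.sum_eq_single i]
  · simp
  · intro j _ hj
    simp [Pi.single_eq_of_ne hj]
  · intro h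
    exact absurd (Finset.mem_univ i) h

theorem pr_add (η ζ : Fin l → (MvPolynomial (Fin l) K)) (a : Fin l → K) : pr (η + ζ) a = pr η a + pr ζ a := by
  simp [pr_apply, mul_add, Finset.sum_add_distrib]

theorem pr_sub (η ζ : Fin l → (MvPolynomial (Fin l) K)) (a : Fin l → K) : pr (η - ζ) a = pr η a - pr ζ a := by
  simp [pr_apply, mul_sub, Finset.sum_sub_distrib]

theorem pr_smul (s : (MvPolynomial (Fin l) K)) (η : Fin l → (MvPolynomial (Fin l) K)) (a : Fin l → K) : pr (s • η) a = s * pr η a := by
  simp only [pr_apply, Pi.smul_apply, smul_eq_mul, Finset.mul_sum]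
  exact Finset.sum_congr rfl fun j _ => by ring

theorem pr_sum {κ : Type*} (s : Finset κ) (η : κ → Fin l → (MvPolynomial (Fin l) K)) (a : Fin l → K) :
    pr (∑ k ∈ s, η k) a = ∑ k ∈ s, pr (η k) a := by
  classical
  induction s using Finset.induction_on with
  | empty => simp [pr_apply]
  | insert k s hk ih => rw [Finset.sum_insert hk, Finset.sum_insert hk, pr_add, ih]

theorem pr_ext {η ζ : Fin l → (MvPolynomial (Fin l) K)} (h : ∀ a, pr η a = pr ζ a) : η = ζ := by
  funext i
  rw [← pr_single η i, ← pr_single ζ i, h]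

/-- the module of logarithmic vector fields -/
def LD (A : ι → Fin l → K) : Submodule (MvPolynomial (Fin l) K) (Fin l → (MvPolynomial (Fin l) K)) where
  carrier := { η | ∀ i, lf (A i) ∣ pr η (A i) }
  add_mem' := by
    intro η ζ h1 h2 i
    rw [pr_add]
    exact dvd_add (h1 i) (h2 i)
  zero_mem' := by
    intro i
    simp [pr_apply]
  smul_mem' := by
    intro s η h i
    rw [pr_smul]
    exact (h i).mul_left _

theorem mem_LD {A : ι → Fin l → K} {η : Fin l → (MvPolynomial (Fin l) K)} :
    η ∈ LD A ↔ ∀ i, lf (A i) ∣ pr η (A i) := Iff.rfl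

/-- `B` is a set of representatives of the hyperplanes not in `A`. -/
structure Comp (A : ι → Fin l → K) (B : Finset (Fin l → K)) : Prop where
  np : NP B
  ne : ∀ i, A i ≠ 0
  disj : ∀ i, ∀ b ∈ B, ∀ c : K, b ≠ c • A i
  cover : ∀ a : Fin l → K, a ≠ 0 → (∃ i, ∃ c : K, a = c • A i) ∨ ∃ b ∈ B, ∃ c : K, a = c • b

variable {A : ι → Fin l → K} {B : Finset (Fin l → K)}

/-- the product of the forms of `B` -/
noncomputable def QQ (B : Finset (Fin l → K)) : (MvPolynomial (Fin l) K) := ∏ b ∈ B, lf b

theorem Comp.QQ_ne (h : Comp A B) : QQ B ≠ 0 := h.np.prod_ne_zero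

theorem Comp.relPrime (h : Comp A B) (i : ι) : IsRelPrime (lf (A i)) (QQ B) := by
  apply IsRelPrime.prod_right
  intro b hb
  exact isRelPrime_lf (h.ne i) (h.disj i b hb)

end

section

variable {K : Type*} [Field K] [Fintype K] {l : ℕ} {ι : Type*}
  {A : ι → Fin l → K} {B : Finset (Fin l → K)}

/-- coordinates of a logarithmic vector field with respect to the Frobenius fields -/
theorem Comp.exists_coords (h : Comp A B) {η : Fin l → (MvPolynomial (Fin l) K)} (hη : η ∈ LD A) :
    ∃ c : ℕ → (MvPolynomial (Fin l) K), ∀ a : Fin l → K, QQ B * pr η a = qe K c l (lf a) := by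
  obtain ⟨c, hc⟩ := exists_coeffs ((LinearMap.mulLeft K (QQ B)).comp (pr η)) (by
    intro a
    simp only [LinearMap.comp_apply, LinearMap.mulLeft_apply]
    rcases eq_or_ne a 0 with rfl | ha
    · simp
    · rcases h.cover a ha with ⟨i, c, rfl⟩ | ⟨b, hb, c, rfl⟩
      · rw [map_smul, lf_smul, MvPolynomial.smul_eq_C_mul, mul_left_comm]
        exact mul_dvd_mul_left _ ((hη i).mul_left _)
      · rw [map_smul, lf_smul, MvPolynomial.smul_eq_C_mul, mul_left_comm]
        exact mul_dvd_mul_left _ ((Finset.dvd_prod_of_mem _ hb).mul_right _))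
  exact ⟨c, hc⟩

/-- the Frobenius vector fields -/
noncomputable def th (K : Type*) [Field K] [Fintype K] (l k : ℕ) : Fin l → MvPolynomial (Fin l) K :=
  fun j => X j ^ (Fintype.card K ^ k)

theorem pr_th (k : ℕ) (a : Fin l → K) : pr (th K l k) a = lf a ^ (Fintype.card K ^ k) := by
  rw [← fr_apply (K := K), lf, map_sum, pr_apply]
  refine Finset.sum_congr rfl fun j _ => ?_
  rw [← MvPolynomial.smul_eq_C_mul, ← MvPolynomial.smul_eq_C_mul, map_smul, fr_apply, th]

theorem th_mem (k : ℕ) : th K l k ∈ LD A := by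
  intro i
  rw [pr_th]
  exact dvd_pow_self _ (pow_pos Fintype.card_pos k).ne'

/-- construction of logarithmic vector fields -/
theorem Comp.exists_field (h : Comp A B) {G : ℕ → (MvPolynomial (Fin l) K)} (hG : ∀ b ∈ B, Van b G) :
    ∃ δ ∈ LD A, ∀ a : Fin l → K, QQ B * pr δ a = qe K G l (lf a) := by
  have h1 : ∀ i : Fin l, QQ B ∣ qe K G l (X i) := by
    intro i
    rw [← lf_single]
    exact h.np.prod_dvd fun b hb => hG b hb _
  choose δ hδ using h1
  have h2 : ∀ a : Fin l → K, QQ B * pr δ a = qe K G l (lf a) := by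
    intro a
    rw [lf, map_sum, pr_apply, Finset.mul_sum]
    refine Finset.sum_congr rfl fun j _ => ?_
    rw [← MvPolynomial.smul_eq_C_mul, ← MvPolynomial.smul_eq_C_mul, map_smul, hδ,
      mul_smul_comm]
  refine ⟨δ, ?_, h2⟩
  intro i
  have h3 : lf (A i) ∣ QQ B * pr δ (A i) := by
    rw [h2]
    exact dvd_qe _ _ _ _ dvd_rfl
  exact (h.relPrime i).dvd_of_dvd_mul_left h3

/-- vector fields without the last coordinate -/
theorem Comp.kernel (h : Comp A B) {η : Fin l → (MvPolynomial (Fin l) K)} {c : ℕ → (MvPolynomial (Fin l) K)}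
    (hc : ∀ a : Fin l → K, QQ B * pr η a = qe K c l (lf a)) (h0 : c (l - 1) = 0) :
    ∃ s : ℕ → (MvPolynomial (Fin l) K), (∀ j < l - 1, c j = QQ B * s j) ∧
      η = ∑ j ∈ Finset.range (l - 1), s j • th K l j := by
  rcases Nat.eq_zero_or_pos l with hl | hl
  · subst hl
    exact ⟨fun _ => 0, fun j hj => by omega, funext fun i => i.elim0⟩
  have hlow : ∀ a : Fin l → K, QQ B * pr η a = qe K c (l - 1) (lf a) := by
    intro a
    rw [hc, qe_apply, qe_apply, range_pred hl, Finset.sum_range_succ, h0, zero_mul, add_zero]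
  have h1 : ∀ j < l - 1, QQ B ∣ c j := by
    intro j hj
    apply h.np.prod_dvd
    intro b hb
    apply low_dvd (h.np.1 b hb) c _ j hj
    intro a
    rw [← hlow]
    exact (Finset.dvd_prod_of_mem _ hb).mul_right _
  choose! s hs using h1
  refine ⟨s, hs, ?_⟩
  apply pr_ext
  intro a
  apply mul_left_cancel₀ h.QQ_ne
  rw [hlow, qe_apply, pr_sum, Finset.mul_sum]
  refine Finset.sum_congr rfl fun j hj => ?_
  rw [hs j (Finset.mem_range.1 hj), pr_smul, pr_th, mul_assoc]

/-- independence of the Frobenius fields -/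
theorem th_indep {s : ℕ → (MvPolynomial (Fin l) K)} (h : ∑ j ∈ Finset.range l, s j • th K l j = 0) :
    ∀ j < l, s j = 0 := by
  apply coeffs_unique s l le_rfl
  intro a
  have := congrArg (fun v => pr v a) h
  simp only [pr_sum, pr_smul, pr_th] at this
  rw [qe_apply, this]
  simp [pr_apply]

/-- the basis of a covering arrangement -/
noncomputable def bas (K : Type*) [Field K] [Fintype K] (l : ℕ) (δ : Fin l → MvPolynomial (Fin l) K) :
    Fin l → Fin l → MvPolynomial (Fin l) K :=
  fun k => if k.val < l - 1 then th K l k.val else δ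

theorem Comp.free_aux (h : Comp A B) {G : ℕ → (MvPolynomial (Fin l) K)} (hG1 : G (l - 1) = 1) {δ : Fin l → (MvPolynomial (Fin l) K)}
    (hδm : δ ∈ LD A) (hδ : ∀ a : Fin l → K, QQ B * pr δ a = qe K G l (lf a)) :
    ∃ b : Module.Basis (Fin l) (MvPolynomial (Fin l) K) (LD A), ∀ k, (b k : Fin l → (MvPolynomial (Fin l) K)) = bas K l δ k := by
  classical
  rcases Nat.eq_zero_or_pos l with hl | hl
  · subst hl
    have : Subsingleton (LD A) := ⟨fun x y => Subtype.ext (funext fun i => i.elim0)⟩
    exact ⟨Module.Basis.empty _, fun k => k.elim0⟩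
  have hm : ∀ k, bas K l δ k ∈ LD A := by
    intro k
    unfold bas
    split_ifs
    · exact th_mem _
    · exact hδm
  have hlast : ∀ k : Fin l, ¬ k.val < l - 1 ↔ k = ⟨l - 1, by omega⟩ := by
    intro k
    rw [Fin.ext_iff]
    have := k.isLt
    simp only
    omega
  -- sums over the basis
  have hsum : ∀ g : Fin l → (MvPolynomial (Fin l) K), ∑ k, g k • bas K l δ k =
      ∑ j ∈ Finset.range (l - 1), (if hj : j < l then g ⟨j, hj⟩ else 0) • th K l j +
        g ⟨l - 1, by omega⟩ • δ := by
    intro g
    have e : ∑ k : Fin l, g k • bas K l δ k = ∑ j ∈ Finset.range l,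
        (if hj : j < l then g ⟨j, hj⟩ else 0) • (if j < l - 1 then th K l j else δ) := by
      rw [← Fin.sum_univ_eq_sum_range (fun j => (if hj : j < l then g ⟨j, hj⟩ else 0) •
        (if j < l - 1 then th K l j else δ)) l]
      refine Finset.sum_congr rfl fun k _ => ?_
      rw [dif_pos k.isLt, bas]
    rw [e, range_pred hl, Finset.sum_range_succ]
    congr 1
    · refine Finset.sum_congr rfl fun j hj => ?_
      have hj' := Finset.mem_range.1 hj
      rw [if_pos (by omega)]
    · rw [dif_pos (by omega), if_neg (by omega)]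
  have hli : LinearIndependent (MvPolynomial (Fin l) K)
      (fun k => (⟨bas K l δ k, hm k⟩ : LD A)) := by
    rw [Fintype.linearIndependent_iff]
    intro g hg
    have hg' : ∑ k, g k • bas K l δ k = 0 := by
      have := congrArg Subtype.val hg
      simpa using this
    rw [hsum] at hg'
    have hz : ∀ j < l, (if j < l - 1 then QQ B * (if hj : j < l then g ⟨j, hj⟩ else 0) else 0) +
        g ⟨l - 1, by omega⟩ * G j = 0 := by
      apply coeffs_unique (fun j =>
        (if j < l - 1 then QQ B * (if hj : j < l then g ⟨j, hj⟩ else 0) else 0) +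
        g ⟨l - 1, by omega⟩ * G j) l le_rfl
      intro a
      have h1 := congrArg (fun v => QQ B * pr v a) hg'
      simp only [pr_add, pr_sum, pr_smul, pr_th] at h1
      rw [mul_add, mul_left_comm, hδ] at h1
      have h2 : pr (0 : Fin l → MvPolynomial (Fin l) K) a = 0 := by simp [pr_apply]
      rw [h2, mul_zero] at h1
      refine Eq.trans ?_ h1
      rw [qe_apply, qe_apply, Finset.mul_sum, Finset.mul_sum]
      simp only [add_mul, Finset.sum_add_distrib]
      congr 1
      · rw [range_pred hl, Finset.sum_range_succ, if_neg (lt_irrefl _), zero_mul, add_zero]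
        refine Finset.sum_congr rfl fun j hj => ?_
        rw [if_pos (Finset.mem_range.1 hj), mul_assoc]
      · exact Finset.sum_congr rfl fun j hj => by ring
    have hlast0 : g ⟨l - 1, by omega⟩ = 0 := by
      have := hz (l - 1) (by omega)
      rwa [if_neg (lt_irrefl _), zero_add, hG1, mul_one] at this
    intro k
    by_cases hk : k.val < l - 1
    · have h1 := hz k.val k.isLt
      rw [if_pos hk, hlast0, zero_mul, add_zero, dif_pos k.isLt] at h1
      exact (mul_eq_zero.1 h1).resolve_left h.QQ_ne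
    · rw [(hlast k).1 hk]
      exact hlast0
  have hsp : ⊤ ≤ Submodule.span (MvPolynomial (Fin l) K)
      (Set.range (fun k => (⟨bas K l δ k, hm k⟩ : LD A))) := by
    rintro ⟨η, hη⟩ -
    obtain ⟨c, hc⟩ := h.exists_coords hη
    have hc' : ∀ a : Fin l → K, QQ B * pr (η - c (l - 1) • δ) a =
        qe K (fun j => c j - c (l - 1) * G j) l (lf a) := by
      intro a
      rw [pr_sub, pr_smul, mul_sub, hc, mul_left_comm, hδ, qe_apply, qe_apply, qe_apply,
        Finset.mul_sum, ← Finset.sum_sub_distrib]
      exact Finset.sum_congr rfl fun j hj => by ring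
    obtain ⟨s, hs, hse⟩ := h.kernel hc' (by simp [hG1])
    have hfin : (⟨η, hη⟩ : LD A) = ∑ k : Fin l, (if k.val < l - 1 then s k.val else c (l - 1)) •
        (⟨bas K l δ k, hm k⟩ : LD A) := by
      apply Subtype.ext
      simp only [AddSubmonoidClass.coe_finsetSum, SetLike.val_smul]
      rw [hsum (fun k => if k.val < l - 1 then s k.val else c (l - 1)), if_neg (lt_irrefl _)]
      rw [← sub_eq_iff_eq_add, hse]
      refine Finset.sum_congr rfl fun j hj => ?_
      have hj' := Finset.mem_range.1 hj
      rw [dif_pos (by omega), if_pos hj']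
    rw [hfin]
    exact Submodule.sum_mem _ fun k _ => Submodule.smul_mem _ _ (Submodule.subset_span ⟨k, rfl⟩)
  exact ⟨Module.Basis.mk hli hsp, fun k => by rw [Module.Basis.mk_apply]⟩

end

end Pool.Agent.H160.TF
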