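import Mathlib
import Pool.Agent.H160.TF.Mod

set_option autoImplicit false

/-! # Homogeneous components -/

namespace Pool.Agent.H160.TF

open MvPolynomial

section

variable {K : Type*} [Field K] {l : ℕ}

theorem lf_homogeneous (a : Fin l → K) : (lf a).IsHomogeneous 1 := by
  unfold lf
  apply IsHomogeneous.sum
  intro i _
  exact isHomogeneous_C_mul_X _ _

theorem hc_of_hom {f : (MvPolynomial (Fin l) K)} {m : ℕ} (hf : f.IsHomogeneous m) (d : ℕ) :
    homogeneousComponent d f = if d = m then f else 0 := by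
  exact homogeneousComponent_of_mem ((mem_homogeneousSubmodule m f).2 hf)

theorem hc_mul_left {u : (MvPolynomial (Fin l) K)} {m : ℕ} (hu : u.IsHomogeneous m) (T : (MvPolynomial (Fin l) K)) (k : ℕ) :
    homogeneousComponent (m + k) (u * T) = u * homogeneousComponent k T := by
  conv_lhs => rw [← sum_homogeneousComponent T, Finset.mul_sum, map_sum]
  rw [Finset.sum_congr rfl fun i _ =>
    hc_of_hom (hu.mul (homogeneousComponent_isHomogeneous i T)) (m + k)]
  simp only [Nat.add_left_cancel_iff, Finset.sum_ite_eq]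
  by_cases hk : k ∈ Finset.range (T.totalDegree + 1)
  · rw [if_pos hk]
  · rw [if_neg hk, homogeneousComponent_eq_zero, mul_zero]
    rw [Finset.mem_range] at hk
    omega

theorem hc_mul_lt {u : (MvPolynomial (Fin l) K)} {m : ℕ} (hu : u.IsHomogeneous m) (T : (MvPolynomial (Fin l) K)) {d : ℕ} (hd : d < m) :
    homogeneousComponent d (u * T) = 0 := by
  conv_lhs => rw [← sum_homogeneousComponent T, Finset.mul_sum, map_sum]
  apply Finset.sum_eq_zero
  intro i _
  rw [hc_of_hom (hu.mul (homogeneousComponent_isHomogeneous i T)) d, if_neg (by omega)]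

/-- components of a product with a homogeneous polynomial -/
theorem hc_mul {u : (MvPolynomial (Fin l) K)} {m : ℕ} (hu : u.IsHomogeneous m) (T : (MvPolynomial (Fin l) K)) (d : ℕ) :
    homogeneousComponent d (u * T) = if m ≤ d then u * homogeneousComponent (d - m) T else 0 := by
  by_cases h : m ≤ d
  · rw [if_pos h]
    conv_lhs => rw [← Nat.add_sub_cancel' h]
    rw [hc_mul_left hu]
  · rw [if_neg h, hc_mul_lt hu _ (by omega)]

theorem hc_dvd {u : (MvPolynomial (Fin l) K)} {m : ℕ} (hu : u.IsHomogeneous m) {f : (MvPolynomial (Fin l) K)} (h : u ∣ f) (d : ℕ) :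
    u ∣ homogeneousComponent d f := by
  obtain ⟨T, rfl⟩ := h
  rw [hc_mul hu]
  split_ifs
  · exact dvd_mul_right _ _
  · exact dvd_zero _

/-- homogeneous components of a vector field -/
noncomputable def hcv (d : ℕ) (η : Fin l → (MvPolynomial (Fin l) K)) : Fin l → (MvPolynomial (Fin l) K) := fun j => homogeneousComponent d (η j)

theorem pr_hcv (d : ℕ) (η : Fin l → (MvPolynomial (Fin l) K)) (a : Fin l → K) :
    pr (hcv d η) a = homogeneousComponent d (pr η a) := by
  simp only [pr_apply, hcv, map_sum, homogeneousComponent_C_mul]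

theorem hcv_mem {ι : Type*} {A : ι → Fin l → K} {η : Fin l → (MvPolynomial (Fin l) K)} (h : η ∈ LD A) (d : ℕ) :
    hcv d η ∈ LD A := by
  intro i
  rw [pr_hcv]
  exact hc_dvd (lf_homogeneous _) (h i) d

theorem QQ_homogeneous (B : Finset (Fin l → K)) : (QQ B).IsHomogeneous B.card := by
  have := IsHomogeneous.prod B (fun b => lf b) (fun _ => 1) (fun b _ => lf_homogeneous b)
  simpa [QQ] using this

end

section

variable {K : Type*} [Field K] [Fintype K] {l : ℕ} {ι : Type*}
  {A : ι → Fin l → K} {B : Finset (Fin l → K)}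

/-- the graded part of a sequence of coordinates: the `j`-th entry is the component of degree `e - q ^ j` -/
noncomputable def gc (e : ℕ) (c : ℕ → (MvPolynomial (Fin l) K)) : ℕ → (MvPolynomial (Fin l) K) := fun j =>
  if Fintype.card K ^ j ≤ e then homogeneousComponent (e - Fintype.card K ^ j) (c j) else 0

theorem hc_qe (e : ℕ) (c : ℕ → (MvPolynomial (Fin l) K)) (m : ℕ) (a : Fin l → K) :
    homogeneousComponent e (qe K c m (lf a)) = qe K (gc e c) m (lf a) := by
  rw [qe_apply, qe_apply, map_sum]
  refine Finset.sum_congr rfl fun j _ => ?_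
  have h1 : (lf a ^ (Fintype.card K ^ j)).IsHomogeneous (Fintype.card K ^ j) := by
    have := (lf_homogeneous a).pow (Fintype.card K ^ j)
    rwa [one_mul] at this
  rw [mul_comm, hc_mul h1, gc]
  split_ifs
  · ring
  · ring

/-- graded coordinates -/
theorem coords_hcv {η : Fin l → (MvPolynomial (Fin l) K)} {c : ℕ → (MvPolynomial (Fin l) K)}
    (hc : ∀ a : Fin l → K, QQ B * pr η a = qe K c l (lf a)) (d : ℕ) (a : Fin l → K) :
    QQ B * pr (hcv d η) a = qe K (gc (B.card + d) c) l (lf a) := by
  rw [← hc_qe, ← hc, pr_hcv, hc_mul_left (QQ_homogeneous B)]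

/-- a vector field whose coordinates are homogeneous of degree `d` -/
def HomF (d : ℕ) (η : Fin l → (MvPolynomial (Fin l) K)) : Prop := ∀ j, (η j).IsHomogeneous d

omit [Fintype K] in
theorem hcv_homF (d : ℕ) (η : Fin l → (MvPolynomial (Fin l) K)) : HomF d (hcv d η) := fun _ =>
  homogeneousComponent_isHomogeneous _ _

omit [Fintype K] in
theorem hcv_of_homF {d : ℕ} {η : Fin l → (MvPolynomial (Fin l) K)} (h : HomF d η) : hcv d η = η := by
  funext j
  rw [hcv, hc_of_hom (h j), if_pos rfl]

omit [Fintype K] in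
theorem hcv_of_homF_ne {d e : ℕ} {η : Fin l → (MvPolynomial (Fin l) K)} (h : HomF d η) (he : e ≠ d) : hcv e η = 0 := by
  funext j
  rw [hcv, hc_of_hom (h j), if_neg he]
  rfl

theorem th_homF (k : ℕ) : HomF (Fintype.card K ^ k) (th K l k) := by
  intro j
  exact isHomogeneous_X_pow _ _

theorem coords_unique {η : Fin l → (MvPolynomial (Fin l) K)} {c c' : ℕ → (MvPolynomial (Fin l) K)}
    (hc : ∀ a : Fin l → K, QQ B * pr η a = qe K c l (lf a))
    (hc' : ∀ a : Fin l → K, QQ B * pr η a = qe K c' l (lf a)) : ∀ j < l, c j = c' j := by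
  have h := coeffs_unique (fun j => c j - c' j) l le_rfl (by
    intro a
    have h1 : qe K (fun j => c j - c' j) l (lf a) = qe K c l (lf a) - qe K c' l (lf a) := by
      simp only [qe_apply, ← Finset.sum_sub_distrib, sub_mul]
    rw [h1, ← hc, ← hc', sub_self])
  intro j hj
  exact sub_eq_zero.1 (h j hj)

end

end Pool.Agent.H160.TF
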