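import Mathlib
import Pool.Agent.H160.TF.Graded

set_option autoImplicit false

/-! # The complementary set of forms; covering arrangements are free -/

namespace Pool.Agent.H160.TF

open MvPolynomial

section

variable {K : Type*} [Field K] [Fintype K] {l n : ℕ}

/-- rows nonzero and pairwise non-proportional -/
def Dist {ι : Type*} (A : ι → Fin l → K) : Prop :=
  (∀ i j, i ≠ j → ∀ c : K, A i ≠ c • A j) ∧ ∀ i, A i ≠ 0

theorem exists_comp {A : Fin n → Fin l → K} (hA : Dist A) :
    ∃ B : Finset (Fin l → K), Comp A B ∧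
      B.card + n = ∑ j ∈ Finset.range l, Fintype.card K ^ j := by
  classical
  have : Fintype (Projectivization K (Fin l → K)) := Fintype.ofFinite _
  set f : Fin n → Projectivization K (Fin l → K) := fun i => Projectivization.mk K (A i) (hA.2 i)
    with hf
  have hfi : Function.Injective f := by
    intro i j hij
    by_contra hne
    rw [hf] at hij
    simp only at hij
    rw [Projectivization.mk_eq_mk_iff'] at hij
    obtain ⟨c, hc⟩ := hij
    exact hA.1 i j hne c hc.symm
  have hrep : Function.Injective (Projectivization.rep : Projectivization K (Fin l → K) → _) := by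
    intro x y hxy
    rw [← Projectivization.mk_rep x, ← Projectivization.mk_rep y]
    rw [Projectivization.mk_eq_mk_iff']
    exact ⟨1, by rw [one_smul, hxy]⟩
  refine ⟨(Finset.univ.image f)ᶜ.image Projectivization.rep, ⟨⟨?_, ?_⟩, hA.2, ?_, ?_⟩, ?_⟩
  · intro a ha
    obtain ⟨x, -, rfl⟩ := Finset.mem_image.1 ha
    exact x.rep_nonzero
  · intro a ha b hb hab c hc
    obtain ⟨x, -, rfl⟩ := Finset.mem_image.1 ha
    obtain ⟨y, -, rfl⟩ := Finset.mem_image.1 hb
    apply hab
    congr 1
    rw [← Projectivization.mk_rep x, ← Projectivization.mk_rep y]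
    symm
    rw [Projectivization.mk_eq_mk_iff']
    exact ⟨c, hc.symm⟩
  · intro i b hb c hc
    obtain ⟨x, hx, rfl⟩ := Finset.mem_image.1 hb
    rw [Finset.mem_compl] at hx
    apply hx
    rw [Finset.mem_image]
    refine ⟨i, Finset.mem_univ _, ?_⟩
    rw [hf]
    simp only
    rw [← Projectivization.mk_rep x]
    symm
    rw [Projectivization.mk_eq_mk_iff']
    exact ⟨c, hc.symm⟩
  · intro a ha
    by_cases hx : Projectivization.mk K a ha ∈ Finset.univ.image f
    · obtain ⟨i, -, hi⟩ := Finset.mem_image.1 hx
      left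
      rw [hf] at hi
      simp only at hi
      symm at hi
      rw [Projectivization.mk_eq_mk_iff'] at hi
      obtain ⟨c, hc⟩ := hi
      exact ⟨i, c, hc.symm⟩
    · right
      refine ⟨(Projectivization.mk K a ha).rep, Finset.mem_image_of_mem _ (Finset.mem_compl.2 hx),
        ?_⟩
      have h1 := Projectivization.mk_rep (Projectivization.mk K a ha)
      symm at h1
      rw [Projectivization.mk_eq_mk_iff'] at h1
      obtain ⟨c, hc⟩ := h1
      exact ⟨c, hc.symm⟩
  · rw [Finset.card_image_of_injective _ hrep, Finset.card_compl,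
      Finset.card_image_of_injective _ hfi, Finset.card_univ, Fintype.card_fin]
    have h1 := Projectivization.card_of_finrank K (Fin l → K) (n := l) (by simp)
    rw [← Fintype.card_eq_nat_card, ← Fintype.card_eq_nat_card] at h1
    have h2 : n ≤ Fintype.card (Projectivization K (Fin l → K)) := by
      have := Fintype.card_le_of_injective f hfi
      rwa [Fintype.card_fin] at this
    rw [← h1]
    omega

/-- every pencil of hyperplanes (2-dimensional subspace of the dual space) contains a member of `A` -/
def Cov {ι : Type*} (A : ι → Fin l → K) : Prop :=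
  ∀ W : Submodule K (Fin l → K), Module.finrank K W = 2 → ∃ i, A i ∈ W

omit [Fintype K] in
theorem finrank_span_pair {a b : Fin l → K} (ha : a ≠ 0) (hab : ∀ c : K, b ≠ c • a) :
    Module.finrank K (Submodule.span K {a, b}) = 2 := by
  have h1 : LinearIndependent K ![a, b] := by
    rw [LinearIndependent.pair_iff' ha]
    intro c hc
    exact hab c hc.symm
  have h2 := finrank_span_eq_card h1
  rwa [Matrix.range_cons_cons_empty, Fintype.card_fin] at h2

omit [Fintype K] in
theorem Comp.adm_of_cov {ι : Type*} {A : ι → Fin l → K} {B : Finset (Fin l → K)} (h : Comp A B)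
    (hc : Cov A) : Adm B 1 := by
  intro a ha b hb hab
  left
  obtain ⟨i, hi⟩ := hc _ (finrank_span_pair (h.np.1 a ha) (h.np.2 a ha b hb hab))
  exact ⟨A i, hi, h.ne i, fun c hc r => h.disj i c hc r⟩

theorem Comp.free_of_adm {ι : Type*} {A : ι → Fin l → K} {B : Finset (Fin l → K)} (h : Comp A B)
    (hl : 0 < l) (hadm : Adm B 1) :
    B.card ≤ Fintype.card K ^ (l - 1) ∧ ∃ b : Module.Basis (Fin l) (MvPolynomial (Fin l) K) (LD A),
      (∀ k : Fin l, k.val < l - 1 → (b k : Fin l → (MvPolynomial (Fin l) K)) = th K l k.val) ∧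
      ∀ k : Fin l, k.val = l - 1 →
        HomF (Fintype.card K ^ (l - 1) - B.card) (b k : Fin l → (MvPolynomial (Fin l) K)) := by
  obtain ⟨G, hG1, hGV⟩ := exists_global h.np hadm
  obtain ⟨δ, hδm, hδ⟩ := h.exists_field hGV
  have hle : B.card ≤ Fintype.card K ^ (l - 1) := by
    by_contra hlt
    push Not at hlt
    have h1 := coeffs_unique (gc (Fintype.card K ^ (l - 1)) G) l le_rfl (by
      intro a
      rw [← hc_qe, ← hδ, hc_mul_lt (QQ_homogeneous B) _ hlt]) (l - 1) (by omega)
    rw [gc, if_pos le_rfl, hG1, Nat.sub_self, homogeneousComponent_zero] at h1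
    simp at h1
  refine ⟨hle, ?_⟩
  set d := Fintype.card K ^ (l - 1) - B.card with hd
  have hδ' := coords_hcv hδ d
  have hBd : B.card + d = Fintype.card K ^ (l - 1) := by omega
  rw [hBd] at hδ'
  obtain ⟨b, hb⟩ := h.free_aux (G := gc (Fintype.card K ^ (l - 1)) G) (δ := hcv d δ) (by
    rw [gc, if_pos le_rfl, hG1, Nat.sub_self, homogeneousComponent_zero]
    simp) (hcv_mem hδm d) hδ'
  refine ⟨b, fun k hk => ?_, fun k hk => ?_⟩
  · rw [hb, bas, if_pos hk]
  · rw [hb, bas, if_neg (by omega)]
    exact hcv_homF d δ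

end

end Pool.Agent.H160.TF
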