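import Mathlib
import Pool.Agent.H160.TF.Cover

set_option autoImplicit false

/-! # Coordinates of logarithmic vector fields vanish on the uncovered subspaces -/

namespace Pool.Agent.H160.TF

open MvPolynomial

section killing

variable {K : Type*} [Field K] {l : ℕ}

/-- the retraction killing `lf a` and `lf b` -/
noncomputable def ret2 (a b p p' : Fin l → K) : (MvPolynomial (Fin l) K) →ₐ[K] (MvPolynomial (Fin l) K) := (ret a p).comp (ret b p')

theorem ret2_lf {a b p p' : Fin l → K} (hbp : b ⬝ᵥ p = 0) (c : Fin l → K) :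
    ret2 a b p p' (lf c) = lf (c - (c ⬝ᵥ p') • b - (c ⬝ᵥ p) • a) := by
  rw [ret2, AlgHom.comp_apply, ret_lf, ret_lf, sub_dotProduct, smul_dotProduct, hbp, smul_zero,
    sub_zero]

theorem sub_ret2_mem (a b p p' : Fin l → K) (s : (MvPolynomial (Fin l) K)) :
    s - ret2 a b p p' s ∈ Ideal.span {lf a, lf b} := by
  have h1 : s - ret2 a b p p' s = (s - ret b p' s) + (ret b p' s - ret a p (ret b p' s)) := by
    rw [ret2, AlgHom.comp_apply]
    ring
  rw [h1]
  apply Ideal.add_mem
  · exact Ideal.mem_of_dvd _ (dvd_sub_ret b p' s) (Ideal.subset_span (by simp))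
  · exact Ideal.mem_of_dvd _ (dvd_sub_ret a p _) (Ideal.subset_span (by simp))

theorem mem_of_ret2 {a b p p' : Fin l → K} {s : (MvPolynomial (Fin l) K)} (h : ret2 a b p p' s = 0) :
    s ∈ Ideal.span {lf a, lf b} := by
  have := sub_ret2_mem a b p p' s
  rwa [h, sub_zero] at this

theorem ret2_of_mem {a b p p' : Fin l → K} (h1 : a ⬝ᵥ p = 1) (h2 : b ⬝ᵥ p = 0) (h3 : a ⬝ᵥ p' = 0)
    (h4 : b ⬝ᵥ p' = 1) {s : (MvPolynomial (Fin l) K)} (h : s ∈ Ideal.span {lf a, lf b}) : ret2 a b p p' s = 0 := by
  obtain ⟨u, v, rfl⟩ := Ideal.mem_span_pair.1 h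
  rw [map_add, map_mul, map_mul, ret2_lf h2, ret2_lf h2, h1, h2, h3, h4]
  simp

end killing

section

variable {K : Type*} [Field K] [Fintype K] {R : Type*} [CommRing R] [Algebra K R]

/-- auxiliary sequence: `v ^ (q ^ j) - u ^ (q ^ j - 1) v = P E_j` -/
def EE (q : ℕ) (u P : R) : ℕ → R
  | 0 => 0
  | j + 1 => P ^ (q - 1) * EE q u P j ^ q + u ^ (q ^ (j + 1) - q)

theorem q_pos : 0 < Fintype.card K := Fintype.card_pos

variable (K) in
theorem EE_spec (u v : R) (j : ℕ) :
    u * v ^ (Fintype.card K ^ j) - u ^ (Fintype.card K ^ j) * v =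
      u * (v ^ Fintype.card K - u ^ (Fintype.card K - 1) * v) *
        EE (Fintype.card K) u (v ^ Fintype.card K - u ^ (Fintype.card K - 1) * v) j := by
  set q := Fintype.card K with hq
  set P := v ^ q - u ^ (q - 1) * v with hP
  have hq1 : 1 < q := one_lt_q (K := K)
  have hfr : ∀ x y : R, (x - y) ^ q = x ^ q - y ^ q := by
    intro x y
    have := map_sub (FiniteField.frobeniusAlgHom K R) x y
    simpa using this
  have main : v ^ (q ^ j) - u ^ (q ^ j - 1) * v = P * EE q u P j := by
    induction j with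
    | zero => simp [EE]
    | succ j ih =>
      have h1 := congrArg (fun x => x ^ q) ih
      simp only [hfr, mul_pow, ← pow_mul] at h1
      have hqj : 1 ≤ q ^ j := Nat.one_le_pow _ _ (by omega)
      have e1 : (q ^ j - 1) * q = q ^ (j + 1) - q := by
        rw [Nat.sub_mul, one_mul, pow_succ]
      have e2 : q ^ j * q = q ^ (j + 1) := by rw [pow_succ]
      rw [e1, e2] at h1
      have h2 : v ^ q = P + u ^ (q - 1) * v := by rw [hP]; ring
      have hqq : q ≤ q ^ (j + 1) := by
        calc q = q ^ 1 := (pow_one q).symm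
          _ ≤ q ^ (j + 1) := Nat.pow_le_pow_right (by omega) (by omega)
      have e3 : u ^ (q ^ (j + 1) - q) * u ^ (q - 1) = u ^ (q ^ (j + 1) - 1) := by
        rw [← pow_add]
        congr 1
        omega
      have e4 : P ^ q = P * P ^ (q - 1) := by
        rw [← pow_succ']
        congr 1
        omega
      rw [h2] at h1
      rw [EE, ← e3]
      rw [e4] at h1
      linear_combination h1
  have hqj : 1 ≤ q ^ j := Nat.one_le_pow _ _ (by omega)
  have e5 : u ^ (q ^ j) = u * u ^ (q ^ j - 1) := by
    rw [← pow_succ']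
    congr 1
    omega
  rw [e5]
  linear_combination u * main

theorem map_EE {R' : Type*} [CommRing R'] [Algebra K R'] (φ : R →ₐ[K] R') (q : ℕ) (u P : R) (j : ℕ) :
    φ (EE q u P j) = EE q (φ u) (φ P) j := by
  induction j with
  | zero => simp [EE]
  | succ j ih => simp [EE, ih]

theorem EE_zero {q : ℕ} (hq : 1 < q) (j : ℕ) : EE q (0 : R) 0 j = if j = 1 then 1 else 0 := by
  rcases j with _ | j
  · simp [EE]
  · rw [EE, zero_pow (by omega), zero_mul, zero_add]
    rcases j with _ | j
    · simp
    · rw [if_neg (by omega), zero_pow]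
      have h1 : q ^ 1 < q ^ (j + 1 + 1) := Nat.pow_lt_pow_right hq (by omega)
      rw [pow_one] at h1
      omega

end

section

variable {K : Type*} [Field K] [Fintype K] {l : ℕ}

/-- all members of the pencil spanned by `a` and `b` are in `B` -/
def Full (B : Finset (Fin l → K)) (a b : Fin l → K) : Prop :=
  ∀ e ∈ Submodule.span K {a, b}, e ≠ 0 → ∃ c ∈ B, ∃ r : K, c = r • e

omit [Fintype K] in
theorem Full.dvd {B : Finset (Fin l → K)} (hB : NP B) {a b : Fin l → K} (h : Full B a b)
    {e : Fin l → K} (he : e ∈ Submodule.span K {a, b}) (he0 : e ≠ 0) : lf e ∣ QQ B := by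
  obtain ⟨c, hc, r, rfl⟩ := h e he he0
  exact (dvd_smul e r).trans (Finset.dvd_prod_of_mem _ hc)

theorem Full.pencil_dvd {B : Finset (Fin l → K)} (hB : NP B) {a b : Fin l → K} (h : Full B a b)
    (ha : a ≠ 0) (hab : ∀ c : K, b ≠ c • a) :
    lf a * (lf b ^ Fintype.card K - lf a ^ (Fintype.card K - 1) * lf b) ∣ QQ B := by
  classical
  set q := Fintype.card K with hq
  have hq1 : 1 < q := one_lt_q (K := K)
  have hprod : lf b ^ q - lf a ^ (q - 1) * lf b = ∏ t : K, lf (b - t • a) := by
    have h1 := qe_eq_prod (K := K) (R := (MvPolynomial (Fin l) K)) (ι := K) (f := fun t => lf (t • a)) (by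
      intro s t hst
      have h2 := lf_injective hst
      have h3 : (s - t) • a = 0 := by rw [sub_smul, sub_eq_zero]; exact h2
      rcases smul_eq_zero.1 h3 with h4 | h4
      · exact sub_eq_zero.1 h4
      · exact absurd h4 ha) 1 (by rw [pow_one])
      (fun j => if j = 0 then - lf a ^ (q - 1) else 1) (by simp) (by
        intro t
        rw [qe_apply, Finset.sum_range_succ, Finset.sum_range_one]
        simp only [if_pos, pow_zero, pow_one, one_mul, one_ne_zero, if_false]
        rw [lf_smul, mul_pow, ← C_pow, FiniteField.pow_card]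
        have : lf a ^ Fintype.card K = lf a ^ (q - 1) * lf a := by
          rw [← pow_succ]
          congr 1
          omega
        rw [this]
        ring) (lf b)
    rw [qe_apply, Finset.sum_range_succ, Finset.sum_range_one] at h1
    simp only [if_pos, pow_zero, pow_one, one_mul, one_ne_zero, if_false] at h1
    rw [show lf b ^ q - lf a ^ (q - 1) * lf b = -lf a ^ (q - 1) * lf b + lf b ^ Fintype.card K by
      rw [← hq]; ring, h1]
    exact Finset.prod_congr rfl fun t _ => by rw [lf_sub]
  rw [hprod]
  have hmem : ∀ t : K, b - t • a ∈ Submodule.span K {a, b} := fun t =>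
    Submodule.sub_mem _ (Submodule.subset_span (by simp))
      (Submodule.smul_mem _ _ (Submodule.subset_span (by simp)))
  apply IsRelPrime.mul_dvd
  · apply IsRelPrime.prod_right
    intro t _
    apply isRelPrime_lf ha
    intro c hc
    apply hab (c + t)
    rw [add_smul, ← hc]
    abel
  · exact h.dvd hB (Submodule.subset_span (by simp)) ha
  · apply Finset.prod_dvd_of_isRelPrime
    · intro s _ t _ hst
      have hs0 : b - s • a ≠ 0 := fun h0 => hab s (sub_eq_zero.1 h0)
      apply isRelPrime_lf hs0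
      intro c hc
      -- b - t a = c (b - s a)
      rcases eq_or_ne c 1 with rfl | hc1
      · rw [one_smul] at hc
        have h3 : (s - t) • a = 0 := by
          rw [sub_smul]
          have := sub_right_inj.1 hc
          rw [this, sub_self]
        rcases smul_eq_zero.1 h3 with h4 | h4
        · exact hst (sub_eq_zero.1 h4)
        · exact ha h4
      · have h3 : (1 - c) • b = (t - c * s) • a := by
          rw [sub_smul, one_smul, sub_smul, mul_smul]
          rw [smul_sub] at hc
          have h5 : b = c • b - c • s • a + t • a := by rw [← hc]; abel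
          calc b - c • b = (c • b - c • s • a + t • a) - c • b := by rw [← h5]
            _ = t • a - c • s • a := by abel
        have h4 : (1 - c) ≠ 0 := sub_ne_zero.2 (Ne.symm hc1)
        apply hab ((1 - c)⁻¹ * (t - c * s))
        rw [mul_smul, ← h3, smul_smul, inv_mul_cancel₀ h4, one_smul]
    · intro t _
      exact h.dvd hB (hmem t) (fun h0 => hab t (sub_eq_zero.1 h0))

/-- **Necessity.** The coordinates vanish on the uncovered subspaces of codimension two. -/
theorem Full.coords_mem {B : Finset (Fin l → K)} (hB : NP B) {a b : Fin l → K} (h : Full B a b)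
    (ha : a ≠ 0) (hab : ∀ c : K, b ≠ c • a) {η : Fin l → (MvPolynomial (Fin l) K)} {c : ℕ → (MvPolynomial (Fin l) K)}
    (hc : ∀ w : Fin l → K, QQ B * pr η w = qe K c l (lf w)) :
    ∀ j < l, c j ∈ Ideal.span {lf a, lf b} := by
  classical
  have hl2 : 2 ≤ l := by
    have h1 := finrank_span_pair ha hab
    have h2 := Submodule.finrank_le (Submodule.span K {a, b})
    rw [h1, Module.finrank_fin_fun] at h2
    exact h2
  obtain ⟨p, p', h1, h2, h3, h4⟩ := exists_dual2 ha hab
  set φ := ret2 a b p p' with hφ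
  set q := Fintype.card K with hq
  have hq1 : 1 < q := one_lt_q (K := K)
  set u : (MvPolynomial (Fin l) K) := lf a with hu
  set v : (MvPolynomial (Fin l) K) := lf b with hv
  set P : (MvPolynomial (Fin l) K) := v ^ q - u ^ (q - 1) * v with hP
  have hφu : φ u = 0 := ret2_of_mem h1 h2 h3 h4 (Ideal.subset_span (by simp [hu]))
  have hφv : φ v = 0 := ret2_of_mem h1 h2 h3 h4 (Ideal.subset_span (by simp [hv]))
  have hφP : φ P = 0 := by
    rw [hP, map_sub, map_mul, map_pow, hφv, zero_pow (by omega), mul_zero, sub_zero]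
  obtain ⟨R, hR⟩ := h.pencil_dvd hB ha hab
  have hQ0 : QQ B ≠ 0 := hB.prod_ne_zero
  have hY0 : u * P ≠ 0 := by
    intro h0
    apply hQ0
    rw [hR]
    change u * P * R = 0
    rw [h0, zero_mul]
  have hR' : QQ B = u * P * R := hR
  have hφE : ∀ j, φ (EE q u P j) = if j = 1 then 1 else 0 := by
    intro j
    rw [map_EE, hφu, hφP, EE_zero hq1]
  have hF := hc a
  have hG := hc b
  rw [qe_apply, ← hq, ← hu, hR'] at hF
  rw [qe_apply, ← hq, ← hv, hR'] at hG
  -- first relation
  have hrel1 : R * (v * pr η a - u * pr η b) = - ∑ j ∈ Finset.range l, c j * EE q u P j := by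
    apply mul_left_cancel₀ hY0
    have e1 : u * P * (R * (v * pr η a - u * pr η b)) =
        v * (u * P * R * pr η a) - u * (u * P * R * pr η b) := by ring
    rw [e1, hF, hG, Finset.mul_sum, Finset.mul_sum, ← Finset.sum_sub_distrib, mul_neg,
      Finset.mul_sum, ← Finset.sum_neg_distrib]
    refine Finset.sum_congr rfl fun j _ => ?_
    linear_combination (-c j) * EE_spec K u v j
  have hφ1 : φ (c 1) = 0 := by
    have h5 := congrArg φ hrel1
    rw [map_mul, map_sub, map_mul, map_mul, hφu, hφv, zero_mul, zero_mul, sub_zero, mul_zero,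
      map_neg, map_sum] at h5
    simp only [map_mul, hφE, mul_ite, mul_one, mul_zero] at h5
    rw [Finset.sum_ite_eq' (Finset.range l) 1, if_pos (Finset.mem_range.2 (by omega))] at h5
    exact neg_eq_zero.1 h5.symm
  -- second relation
  obtain ⟨m, rfl⟩ : ∃ m, l = m + 1 := ⟨l - 1, by omega⟩
  have hfr : ∀ x y : MvPolynomial (Fin (m + 1)) K, (x - y) ^ q = x ^ q - y ^ q := by
    intro x y
    have := map_sub (FiniteField.frobeniusAlgHom K (MvPolynomial (Fin (m + 1)) K)) x y
    simpa using this
  have hrel2 : R * (v ^ q * pr η a - u ^ q * pr η b) =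
      c 0 - ∑ j ∈ Finset.range m, c (j + 1) * ((u * P) ^ (q - 1) * EE q u P j ^ q) := by
    apply mul_left_cancel₀ hY0
    have e1 : u * P * (R * (v ^ q * pr η a - u ^ q * pr η b)) =
        v ^ q * (u * P * R * pr η a) - u ^ q * (u * P * R * pr η b) := by ring
    have h0 : v ^ q * (c 0 * u ^ q ^ 0) - u ^ q * (c 0 * v ^ q ^ 0) = u * P * c 0 := by
      have h6 := EE_spec K u v 1
      rw [← hq] at h6
      simp only [pow_one, EE, mul_zero, zero_add, Nat.sub_self, pow_zero, mul_one,
        zero_pow (show q ≠ 0 by omega)] at h6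
      simp only [pow_zero, pow_one]
      linear_combination c 0 * h6
    have hs : ∀ j ∈ Finset.range m, v ^ q * (c (j + 1) * u ^ q ^ (j + 1)) -
        u ^ q * (c (j + 1) * v ^ q ^ (j + 1)) =
          - (u * P * (c (j + 1) * ((u * P) ^ (q - 1) * EE q u P j ^ q))) := by
      intro j _
      have h7 := EE_spec K u v j
      rw [← hq, ← hP] at h7
      clear_value P
      have h6 := congrArg (fun x => x ^ q) h7
      simp only [hfr, mul_pow, ← pow_mul] at h6
      have e4 : (u * P) ^ q = u * P * (u * P) ^ (q - 1) := by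
        rw [← pow_succ']
        congr 1
        omega
      have e5 : u ^ q * P ^ q = u * P * (u * P) ^ (q - 1) := by rw [← mul_pow, e4]
      rw [e5, ← pow_succ] at h6
      linear_combination (-c (j + 1)) * h6
    clear_value P
    rw [e1, hF, hG, Finset.mul_sum, Finset.mul_sum, ← Finset.sum_sub_distrib,
      Finset.sum_range_succ', Finset.sum_congr rfl hs, h0, Finset.sum_neg_distrib, mul_sub,
      Finset.mul_sum (Finset.range m)]
    ring
  have hφ0 : φ (c 0) = 0 := by
    have h5 := congrArg φ hrel2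
    rw [map_mul, map_sub, map_mul, map_mul, map_pow, map_pow, hφu, hφv,
      zero_pow (by omega : q ≠ 0), zero_mul, zero_mul, sub_zero, mul_zero, map_sub, map_sum] at h5
    have h7 : ∀ j ∈ Finset.range m, φ (c (j + 1) * ((u * P) ^ (q - 1) * EE q u P j ^ q)) = 0 := by
      intro j _
      rw [map_mul, map_mul, map_pow, map_mul, hφu, zero_mul, zero_pow (by omega), zero_mul, mul_zero]
    rw [Finset.sum_eq_zero h7, sub_zero] at h5
    exact h5.symm
  -- the remaining coordinates
  obtain ⟨m, rfl⟩ : ∃ k, m = k + 1 := ⟨m - 1, by omega⟩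
  set L : (Fin (m + 1 + 1) → K) →ₗ[K] (K × K) := (dotL p).prod (dotL p') with hL
  have hLs : LinearMap.range L = ⊤ := by
    rw [LinearMap.range_eq_top]
    rintro ⟨x, y⟩
    refine ⟨x • a + y • b, ?_⟩
    simp [hL, add_dotProduct, smul_dotProduct, h1, h2, h3, h4]
  have hker : Module.finrank K (LinearMap.ker L) = m := by
    have h5 := L.finrank_range_add_finrank_ker
    rw [hLs, finrank_top, Module.finrank_prod, Module.finrank_self, Module.finrank_fin_fun] at h5
    omega
  have hφw : ∀ w ∈ LinearMap.ker L, φ (lf w) = lf w := by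
    intro w hw
    have h5 : w ⬝ᵥ p = 0 ∧ w ⬝ᵥ p' = 0 := by
      have := LinearMap.mem_ker.1 hw
      simpa [hL] using this
    rw [hφ, ret2_lf h2, h5.1, h5.2, zero_smul, zero_smul, sub_zero, sub_zero]
  have := Fintype.ofFinite (LinearMap.ker L)
  have hrest : ∀ j < m, φ (c (j + 2)) = 0 := by
    apply coeff_eq_zero_of_roots (K := K) (ι := LinearMap.ker L)
      (f := fun w => (lf (w : Fin (m + 1 + 1) → K) : MvPolynomial (Fin (m + 1 + 1)) K) ^ (q ^ 2))
      ?_ m ?_ (fun j => φ (c (j + 2))) ?_
    · intro w w' hw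
      apply Subtype.ext
      apply lf_injective
      have h5 : ((lf (w : Fin (m + 1 + 1) → K) : MvPolynomial (Fin (m + 1 + 1)) K) -
          lf (w' : Fin (m + 1 + 1) → K)) ^ (q ^ 2) = 0 := by
        rw [pow_two, pow_mul, hfr, hfr, ← pow_mul, ← pow_mul, ← pow_two]
        exact sub_eq_zero.2 hw
      exact sub_eq_zero.1 (pow_eq_zero_iff (pow_pos (by omega : 0 < q) 2).ne' |>.1 h5)
    · rw [Module.card_eq_pow_finrank (K := K) (V := LinearMap.ker L), hker]
    · intro w
      have h5 := congrArg φ (hc w)
      rw [map_mul, hR', map_mul, map_mul, hφu, zero_mul, zero_mul, zero_mul, map_qe, hφw _ w.2,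
        qe_apply, Finset.sum_range_succ', Finset.sum_range_succ'] at h5
      simp only [zero_add] at h5
      rw [hφ0, hφ1, zero_mul, zero_mul, add_zero, add_zero] at h5
      rw [h5]
      refine Finset.sum_congr rfl fun j _ => ?_
      rw [← pow_mul, ← pow_add, add_comm 2 j, ← hq]
  intro j hj
  apply mem_of_ret2 (p := p) (p' := p')
  rcases j with _ | _ | j
  · exact hφ0
  · exact hφ1
  · exact hrest j (by omega)

end

end Pool.Agent.H160.TF
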