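import Mathlib
import Pool.Agent.H160.TF.Neces

set_option autoImplicit false

/-! # The last coordinate of a logarithmic vector field -/

namespace Pool.Agent.H160.TF

open MvPolynomial

variable {K : Type*} [Field K] {l : ℕ} {ι : Type*}
  {A : ι → Fin l → K} {B : Finset (Fin l → K)}

theorem exists_pair {W : Submodule K (Fin l → K)} (hW : Module.finrank K W = 2) :
    ∃ a b : Fin l → K, a ∈ W ∧ b ∈ W ∧ a ≠ 0 ∧ (∀ c : K, b ≠ c • a) ∧
      W = Submodule.span K {a, b} := by
  let e := Module.finBasisOfFinrankEq K W hW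
  have hli : LinearIndependent K ![((e 0 : W) : Fin l → K), ((e 1 : W) : Fin l → K)] := by
    have h1 := e.linearIndependent.map' W.subtype (Submodule.ker_subtype W)
    have h2 : (⇑W.subtype ∘ ⇑e) = ![((e 0 : W) : Fin l → K), ((e 1 : W) : Fin l → K)] := by
      funext i
      fin_cases i <;> rfl
    rwa [h2] at h1
  have ha : ((e 0 : W) : Fin l → K) ≠ 0 := hli.ne_zero 0
  have hab : ∀ c : K, ((e 1 : W) : Fin l → K) ≠ c • ((e 0 : W) : Fin l → K) := by
    intro c hc
    exact (LinearIndependent.pair_iff' ha).1 hli c hc.symm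
  refine ⟨(e 0 : W), (e 1 : W), (e 0).2, (e 1).2, ha, hab, ?_⟩
  symm
  apply Submodule.eq_of_le_of_finrank_eq
  · rw [Submodule.span_le]
    rintro x (rfl | rfl)
    · exact (e 0).2
    · exact (e 1).2
  · rw [finrank_span_pair ha hab, hW]

/-- the ideal of the linear space cut out by `W` -/
noncomputable def IW (W : Submodule K (Fin l → K)) : Ideal (MvPolynomial (Fin l) K) := Ideal.span (lf '' (W : Set (Fin l → K)))

theorem IW_span (a b : Fin l → K) :
    IW (Submodule.span K {a, b}) = Ideal.span {lf a, lf b} := by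
  apply le_antisymm
  · rw [IW, Ideal.span_le]
    rintro _ ⟨w, hw, rfl⟩
    obtain ⟨x, y, rfl⟩ := Submodule.mem_span_pair.1 hw
    rw [lf_add, lf_smul, lf_smul]
    exact Ideal.add_mem _ (Ideal.mul_mem_left _ _ (Ideal.subset_span (by simp)))
      (Ideal.mul_mem_left _ _ (Ideal.subset_span (by simp)))
  · rw [Ideal.span_le]
    rintro _ (rfl | rfl)
    · exact Ideal.subset_span ⟨a, Submodule.subset_span (by simp), rfl⟩
    · exact Ideal.subset_span ⟨b, Submodule.subset_span (by simp), rfl⟩

/-- the intersection of the ideals of the uncovered subspaces of codimension two -/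
noncomputable def IU (A : ι → Fin l → K) : Ideal (MvPolynomial (Fin l) K) :=
  ⨅ W : { W : Submodule K (Fin l → K) // Module.finrank K W = 2 ∧ ∀ i, A i ∉ W }, IW W.1

theorem mem_IU {g : (MvPolynomial (Fin l) K)} : g ∈ IU A ↔ ∀ W : Submodule K (Fin l → K), Module.finrank K W = 2 →
    (∀ i, A i ∉ W) → g ∈ IW W := by
  rw [IU, Submodule.mem_iInf]
  exact ⟨fun h W h1 h2 => h ⟨W, h1, h2⟩, fun h W => h W.1 W.2.1 W.2.2⟩

theorem Comp.full (h : Comp A B) {a b : Fin l → K}
    (hu : ∀ i, A i ∉ Submodule.span K {a, b}) : Full B a b := by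
  intro e he he0
  rcases h.cover e he0 with ⟨i, c, hc⟩ | ⟨b', hb', c, hc⟩
  · exfalso
    apply hu i
    have hc0 : c ≠ 0 := by
      rintro rfl
      rw [zero_smul] at hc
      exact he0 hc
    have : A i = c⁻¹ • e := by rw [hc, smul_smul, inv_mul_cancel₀ hc0, one_smul]
    rw [this]
    exact Submodule.smul_mem _ _ he
  · have hc0 : c ≠ 0 := by
      rintro rfl
      rw [zero_smul] at hc
      exact he0 hc
    exact ⟨b', hb', c⁻¹, by rw [hc, smul_smul, inv_mul_cancel₀ hc0, one_smul]⟩

theorem Comp.adm_iff (h : Comp A B) (g : (MvPolynomial (Fin l) K)) : Adm B g ↔ g ∈ IU A := by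
  rw [mem_IU]
  constructor
  · intro hg W hW hu
    obtain ⟨a, b, -, -, ha, hab, rfl⟩ := exists_pair hW
    have hF := h.full hu
    -- representatives in `B`
    obtain ⟨a', ha', r, hr⟩ := hF a (Submodule.subset_span (by simp)) ha
    have hb0 : b ≠ 0 := by
      intro h0
      exact hab 0 (by rw [h0, zero_smul])
    obtain ⟨b', hb', s, hs⟩ := hF b (Submodule.subset_span (by simp)) hb0
    have ha'0 := h.np.1 a' ha'
    have hb'0 := h.np.1 b' hb'
    have hr0 : r ≠ 0 := by
      rintro rfl
      rw [zero_smul] at hr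
      exact ha'0 hr
    have hs0 : s ≠ 0 := by
      rintro rfl
      rw [zero_smul] at hs
      exact hb'0 hs
    have hne : a' ≠ b' := by
      intro e
      apply hab (s⁻¹ * r)
      rw [mul_smul, ← hr, e, hs, smul_smul, inv_mul_cancel₀ hs0, one_smul]
    have hsp : Submodule.span K {a', b'} = Submodule.span K {a, b} := by
      apply Submodule.eq_of_le_of_finrank_eq
      · rw [Submodule.span_le]
        rintro x (rfl | rfl)
        · rw [hr]
          exact Submodule.smul_mem _ _ (Submodule.subset_span (by simp))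
        · rw [hs]
          exact Submodule.smul_mem _ _ (Submodule.subset_span (by simp))
      · rw [finrank_span_pair ha hab, finrank_span_pair ha'0 (h.np.2 a' ha' b' hb' hne)]
    rcases hg a' ha' b' hb' hne with ⟨e, he, he0, hn⟩ | h1
    · exfalso
      rw [hsp] at he
      obtain ⟨c, hc, t, ht⟩ := hF e he he0
      exact hn c hc t ht
    · rwa [← IW_span, hsp] at h1
  · intro hg a ha b hb hab
    have hnp := h.np.2 a ha b hb hab
    by_cases hu : ∀ i, A i ∉ Submodule.span K {a, b}
    · right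
      rw [← IW_span]
      exact hg _ (finrank_span_pair (h.np.1 a ha) hnp) hu
    · left
      push Not at hu
      obtain ⟨i, hi⟩ := hu
      exact ⟨A i, hi, h.ne i, fun c hc r => h.disj i c hc r⟩

variable [Fintype K]

/-- the last coordinate -/
noncomputable def Comp.pi (h : Comp A B) (hl : 0 < l) : LD A →ₗ[(MvPolynomial (Fin l) K)] (MvPolynomial (Fin l) K) where
  toFun η := Classical.choose (h.exists_coords η.2) (l - 1)
  map_add' η ζ := by
    have h1 := Classical.choose_spec (h.exists_coords η.2)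
    have h2 := Classical.choose_spec (h.exists_coords ζ.2)
    have h3 := Classical.choose_spec (h.exists_coords (η + ζ).2)
    refine coords_unique h3 (c' := fun j => Classical.choose (h.exists_coords η.2) j +
      Classical.choose (h.exists_coords ζ.2) j) (fun a => ?_) (l - 1) (by omega)
    rw [Submodule.coe_add, pr_add, mul_add, h1, h2, qe_apply, qe_apply, qe_apply,
      ← Finset.sum_add_distrib]
    exact Finset.sum_congr rfl fun j _ => by ring
  map_smul' s η := by
    have h1 := Classical.choose_spec (h.exists_coords η.2)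
    have h3 := Classical.choose_spec (h.exists_coords (s • η).2)
    refine coords_unique h3 (c' := fun j => s * Classical.choose (h.exists_coords η.2) j)
      (fun a => ?_) (l - 1) (by omega)
    rw [Submodule.coe_smul, pr_smul, mul_left_comm, h1, qe_apply, qe_apply, Finset.mul_sum]
    exact Finset.sum_congr rfl fun j _ => by ring

theorem Comp.pi_eq (h : Comp A B) (hl : 0 < l) {η : Fin l → (MvPolynomial (Fin l) K)} (hη : η ∈ LD A) {c : ℕ → (MvPolynomial (Fin l) K)}
    (hc : ∀ a : Fin l → K, QQ B * pr η a = qe K c l (lf a)) : h.pi hl ⟨η, hη⟩ = c (l - 1) := by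
  have h1 := Classical.choose_spec (h.exists_coords hη)
  exact coords_unique h1 hc (l - 1) (by omega)

/-- coordinates of the Frobenius fields -/
theorem coords_th (k : ℕ) (hk : k < l) (a : Fin l → K) :
    QQ B * pr (th K l k) a = qe K (fun j => if j = k then QQ B else 0) l (lf a) := by
  rw [pr_th, qe_apply]
  simp only [ite_mul, zero_mul]
  rw [Finset.sum_ite_eq' (Finset.range l) k, if_pos (Finset.mem_range.2 hk)]

theorem Comp.pi_th (h : Comp A B) (hl : 0 < l) (k : ℕ) (hk : k < l - 1) :
    h.pi hl ⟨th K l k, th_mem k⟩ = 0 := by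
  rw [h.pi_eq hl (th_mem k) (coords_th k (by omega)), if_neg (by omega)]

theorem Comp.pi_th_last (h : Comp A B) (hl : 0 < l) :
    h.pi hl ⟨th K l (l - 1), th_mem (l - 1)⟩ = QQ B := by
  rw [h.pi_eq hl (th_mem (l - 1)) (coords_th (l - 1) (by omega)), if_pos rfl]

theorem Comp.pi_ker (h : Comp A B) (hl : 0 < l) (η : LD A) (h0 : h.pi hl η = 0) :
    ∃ s : ℕ → (MvPolynomial (Fin l) K), (η : Fin l → (MvPolynomial (Fin l) K)) = ∑ j ∈ Finset.range (l - 1), s j • th K l j := by
  obtain ⟨c, hc⟩ := h.exists_coords η.2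
  have h1 := h.pi_eq hl η.2 hc
  rw [Subtype.coe_eta, h0] at h1
  obtain ⟨s, -, hs⟩ := h.kernel hc h1.symm
  exact ⟨s, hs⟩

theorem Comp.pi_mem (h : Comp A B) (hl : 0 < l) (η : LD A) : h.pi hl η ∈ IU A := by
  rw [mem_IU]
  intro W hW hu
  obtain ⟨a, b, -, -, ha, hab, rfl⟩ := exists_pair hW
  obtain ⟨c, hc⟩ := h.exists_coords η.2
  have h1 := h.pi_eq hl η.2 hc
  rw [Subtype.coe_eta] at h1
  rw [h1, IW_span]
  exact (h.full hu).coords_mem h.np ha hab hc (l - 1) (by omega)

theorem Comp.pi_surj (h : Comp A B) (hl : 0 < l) {g : (MvPolynomial (Fin l) K)} (hg : g ∈ IU A) :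
    ∃ η : LD A, h.pi hl η = g := by
  obtain ⟨G, hG1, hGV⟩ := exists_global h.np ((h.adm_iff g).2 hg)
  obtain ⟨δ, hδm, hδ⟩ := h.exists_field hGV
  exact ⟨⟨δ, hδm⟩, by rw [h.pi_eq hl hδm hδ, hG1]⟩

/-- the map is homogeneous -/
theorem Comp.pi_hom (h : Comp A B) (hl : 0 < l) {d : ℕ} (η : LD A)
    (hη : HomF d (η : Fin l → (MvPolynomial (Fin l) K))) :
    (Fintype.card K ^ (l - 1) ≤ B.card + d →
      (h.pi hl η).IsHomogeneous (B.card + d - Fintype.card K ^ (l - 1))) ∧
    (B.card + d < Fintype.card K ^ (l - 1) → h.pi hl η = 0) := by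
  obtain ⟨c, hc⟩ := h.exists_coords η.2
  have h1 := coords_hcv hc d
  rw [hcv_of_homF hη] at h1
  have h2 := h.pi_eq hl η.2 h1
  rw [Subtype.coe_eta] at h2
  constructor
  · intro h3
    rw [h2, gc, if_pos h3]
    exact homogeneousComponent_isHomogeneous _ _
  · intro h3
    rw [h2, gc, if_neg (by omega)]

end Pool.Agent.H160.TF
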