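import Mathlib
import Pool.Agent.H160.TF.Pi

set_option autoImplicit false

/-! # Large free arrangements cover all subspaces of codimension two -/

namespace Pool.Agent.H160.TF

open MvPolynomial

section

variable {K : Type*} [Field K] {l : ℕ}

theorem IW_le {W : Submodule K (Fin l → K)} {g : (MvPolynomial (Fin l) K)} (hg : g ∈ IW W) : constantCoeff g = 0 := by
  have h1 : IW W ≤ RingHom.ker (constantCoeff : (MvPolynomial (Fin l) K) →+* K) := by
    rw [IW, Ideal.span_le]
    rintro _ ⟨w, -, rfl⟩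
    rw [SetLike.mem_coe, RingHom.mem_ker, lf, map_sum]
    refine Finset.sum_eq_zero fun i _ => ?_
    simp
  exact h1 hg

/-- polynomials without constant term -/
theorem exists_sum_X {y : (MvPolynomial (Fin l) K)} (hy : constantCoeff y = 0) : ∃ c : Fin l → (MvPolynomial (Fin l) K), y = ∑ m, c m * X m := by
  have h1 : y ∈ idealOfVars (Fin l) K := by
    have h2 := (mem_pow_idealOfVars_iff' (σ := Fin l) (R := K) 1 y).2 (by
      intro x hx
      have : x = 0 := by
        rw [← Finsupp.degree_eq_zero_iff]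
        omega
      rw [this]
      exact hy)
    rwa [pow_one] at h2
  obtain ⟨c, hc⟩ := Ideal.mem_span_range_iff_exists_fun.1 h1
  exact ⟨c, hc.symm⟩

theorem hcv_add (d : ℕ) (η ζ : Fin l → (MvPolynomial (Fin l) K)) : hcv d (η + ζ) = hcv d η + hcv d ζ := by
  funext j
  simp [hcv]

theorem hcv_sum {κ : Type*} (s : Finset κ) (d : ℕ) (η : κ → Fin l → (MvPolynomial (Fin l) K)) :
    hcv d (∑ k ∈ s, η k) = ∑ k ∈ s, hcv d (η k) := by
  classical
  induction s using Finset.induction_on with
  | empty => funext j; simp [hcv]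
  | insert k s hk ih => rw [Finset.sum_insert hk, Finset.sum_insert hk, hcv_add, ih]

theorem hcv_smul {u : (MvPolynomial (Fin l) K)} {m : ℕ} (hu : u.IsHomogeneous m) (d : ℕ) (hd : m ≤ d) (η : Fin l → (MvPolynomial (Fin l) K)) :
    hcv d (u • η) = u • hcv (d - m) η := by
  funext j
  rw [hcv, Pi.smul_apply, smul_eq_mul, hc_mul hu, if_pos hd]
  rfl

theorem hcv_smul_lt {u : (MvPolynomial (Fin l) K)} {m : ℕ} (hu : u.IsHomogeneous m) (d : ℕ) (hd : d < m)
    (η : Fin l → (MvPolynomial (Fin l) K)) : hcv d (u • η) = 0 := by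
  funext j
  rw [hcv, Pi.smul_apply, smul_eq_mul, hc_mul_lt hu _ hd]
  rfl

theorem dvd_of_mul_dvd {κ : Type*} (s : κ → (MvPolynomial (Fin l) K))
    (hs : ∀ p : (MvPolynomial (Fin l) K), Prime p → ∃ i, ¬ p ∣ s i) (g : (MvPolynomial (Fin l) K)) (hg : g ≠ 0) :
    ∀ r : (MvPolynomial (Fin l) K), (∀ i, g ∣ r * s i) → g ∣ r := by
  induction g using UniqueFactorizationMonoid.induction_on_prime with
  | h₁ => exact absurd rfl hg
  | h₂ x hx => exact fun r _ => hx.dvd
  | h₃ a p ha hp ih =>
    intro r hr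
    obtain ⟨i, hi⟩ := hs p hp
    have h1 : p ∣ r := (hp.dvd_or_dvd ((dvd_mul_right p a).trans (hr i))).resolve_right hi
    obtain ⟨r', rfl⟩ := h1
    apply mul_dvd_mul_left
    apply ih ha
    intro j
    have h2 := hr j
    rw [mul_assoc] at h2
    exact (mul_dvd_mul_iff_left hp.ne_zero).1 h2

end

section

variable {K : Type*} [Field K] [Fintype K] {l : ℕ} {ι : Type*}
  {A : ι → Fin l → K} {B : Finset (Fin l → K)}

/-- combinations of the Frobenius fields with coefficients without constant term -/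
def InMN (v : Fin l → (MvPolynomial (Fin l) K)) : Prop :=
  ∃ s : ℕ → (MvPolynomial (Fin l) K), (∀ j, constantCoeff (s j) = 0) ∧ v = ∑ j ∈ Finset.range (l - 1), s j • th K l j

theorem InMN.zero : InMN (0 : Fin l → (MvPolynomial (Fin l) K)) := ⟨fun _ => 0, fun _ => by simp, by simp⟩

theorem InMN.add {v w : Fin l → (MvPolynomial (Fin l) K)} (hv : InMN v) (hw : InMN w) : InMN (v + w) := by
  obtain ⟨s, hs, rfl⟩ := hv
  obtain ⟨t, ht, rfl⟩ := hw
  exact ⟨fun j => s j + t j, fun j => by rw [map_add, hs, ht, add_zero],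
    by rw [← Finset.sum_add_distrib]; exact Finset.sum_congr rfl fun j _ => by rw [add_smul]⟩

theorem InMN.sum {κ : Type*} (s : Finset κ) (v : κ → Fin l → (MvPolynomial (Fin l) K)) (h : ∀ k ∈ s, InMN (v k)) :
    InMN (∑ k ∈ s, v k) := by
  classical
  induction s using Finset.induction_on with
  | empty => exact InMN.zero
  | insert k s hk ih =>
    rw [Finset.sum_insert hk]
    exact (h k (Finset.mem_insert_self _ _)).add
      (ih fun j hj => h j (Finset.mem_insert_of_mem hj))

/-- homogeneous fields of small degree are combinations of the Frobenius fields -/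
theorem Comp.small (h : Comp A B) (hl : 0 < l)
    (hI : ∀ g ∈ IU A, constantCoeff g = 0) {d : ℕ} {z : Fin l → (MvPolynomial (Fin l) K)} (hz : z ∈ LD A)
    (hd : HomF d z) (hle : B.card + d ≤ Fintype.card K ^ (l - 1)) :
    ∃ s : ℕ → (MvPolynomial (Fin l) K), z = ∑ j ∈ Finset.range (l - 1), s j • th K l j := by
  apply h.pi_ker hl ⟨z, hz⟩
  rcases hle.lt_or_eq with hlt | heq
  · exact (h.pi_hom hl ⟨z, hz⟩ hd).2 hlt
  · have h1 := (h.pi_hom hl ⟨z, hz⟩ hd).1 heq.ge
    rw [heq, Nat.sub_self] at h1
    have h2 := hc_of_hom h1 0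
    rw [if_pos rfl, homogeneousComponent_zero] at h2
    rw [← h2]
    have h3 := hI _ (h.pi_mem hl ⟨z, hz⟩)
    rw [constantCoeff_eq] at h3
    rw [h3, C_0]

/-- key step: graded parts of elements of `𝔪 D(A)` -/
theorem Comp.hcv_mN (h : Comp A B) (hl : 0 < l)
    (hI : ∀ g ∈ IU A, constantCoeff g = 0) {D : ℕ}
    (hD : B.card + D ≤ Fintype.card K ^ (l - 1) + 1) {y : (MvPolynomial (Fin l) K)} (hy : constantCoeff y = 0)
    {e : Fin l → (MvPolynomial (Fin l) K)} (he : e ∈ LD A) : InMN (hcv D (y • e)) := by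
  obtain ⟨c, rfl⟩ := exists_sum_X hy
  rw [Finset.sum_smul, hcv_sum]
  apply InMN.sum
  intro m _
  rw [mul_comm, mul_smul]
  rcases Nat.eq_zero_or_pos D with h0 | hpos
  · rw [hcv_smul_lt (isHomogeneous_X K m) D (by omega)]
    exact InMN.zero
  · rw [hcv_smul (isHomogeneous_X K m) D hpos]
    obtain ⟨s, hs⟩ := h.small hl hI (hcv_mem ((LD A).smul_mem (c m) he) (D - 1))
      (hcv_homF (D - 1) _) (by omega)
    rw [hs, Finset.smul_sum]
    exact ⟨fun j => X m * s j, fun j => by simp, Finset.sum_congr rfl fun j _ => by rw [smul_smul]⟩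

/-- **Large free arrangements cover all subspaces of codimension two.** -/
theorem Comp.conv (h : Comp A B) (hl : 2 ≤ l) (hfree : Module.Free (MvPolynomial (Fin l) K) (LD A))
    (hB : B.card + Fintype.card K ^ (l - 2) ≤ Fintype.card K ^ (l - 1) + 1)
    (hI : ∀ g ∈ IU A, constantCoeff g = 0) : False := by
  classical
  have hl0 : 0 < l := by omega
  set q := Fintype.card K with hq
  have hq1 : 1 < q := one_lt_q (K := K)
  -- the rank
  have hfin : Module.Finite (MvPolynomial (Fin l) K) (LD A) := inferInstance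
  have hrank : Module.finrank (MvPolynomial (Fin l) K) (LD A) = l := by
    apply le_antisymm
    · have h1 := Submodule.finrank_le (LD A)
      rwa [Module.finrank_fin_fun] at h1
    · have h1 : LinearIndependent (MvPolynomial (Fin l) K) (fun k : Fin l => (⟨th K l k, th_mem k⟩ : LD A)) := by
        rw [Fintype.linearIndependent_iff]
        intro g hg k
        have h2 : ∑ j ∈ Finset.range l, (if hj : j < l then g ⟨j, hj⟩ else 0) • th K l j = 0 := by
          rw [← Fin.sum_univ_eq_sum_range
            (fun j => (if hj : j < l then g ⟨j, hj⟩ else 0) • th K l j) l]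
          have h3 := congrArg Subtype.val hg
          simp only [AddSubmonoidClass.coe_finsetSum, SetLike.val_smul,
            ZeroMemClass.coe_zero] at h3
          rw [← h3]
          exact Finset.sum_congr rfl fun k _ => by rw [dif_pos k.isLt]
        have h4 := th_indep h2 k.val k.isLt
        rwa [dif_pos k.isLt] at h4
      have h5 := h1.fintype_card_le_finrank
      rwa [Fintype.card_fin] at h5
  obtain ⟨m, rfl⟩ : ∃ m, l = m + 1 := ⟨l - 1, by omega⟩
  rw [Nat.add_sub_cancel] at hB
  let e := Module.finBasisOfFinrankEq (MvPolynomial (Fin (m + 1)) K) (LD A) hrank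
  -- coordinates of the Frobenius fields
  let Cc : Fin m → Fin (m + 1) → MvPolynomial (Fin (m + 1)) K := fun k =>
    e.repr ⟨th K (m + 1) k, th_mem k⟩
  have hCc : ∀ k : Fin m, ∑ i, Cc k i • e i = ⟨th K (m + 1) k, th_mem k⟩ := fun k =>
    e.sum_repr _
  have hrow : LinearIndependent K (fun k : Fin m => fun i => constantCoeff (Cc k i)) := by
    rw [Fintype.linearIndependent_iff]
    intro g hg k₀
    have hzero : ∀ i, constantCoeff (∑ k : Fin m, C (g k) * Cc k i) = 0 := by
      intro i
      have h1 := congrFun hg i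
      rw [Finset.sum_apply] at h1
      simp only [Pi.smul_apply, smul_eq_mul, Pi.zero_apply] at h1
      rw [map_sum, ← h1]
      exact Finset.sum_congr rfl fun k _ => by rw [map_mul, constantCoeff_C]
    have hexp : (∑ k : Fin m, (C (g k) : MvPolynomial (Fin (m + 1)) K) • th K (m + 1) k) =
        ∑ i, (∑ k : Fin m, C (g k) * Cc k i) • (e i : Fin (m + 1) → _) := by
      have h1 : ∀ k : Fin m, th K (m + 1) k = ∑ i, Cc k i • (e i : Fin (m + 1) → _) := by
        intro k
        have h2 := congrArg Subtype.val (hCc k)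
        simp only [AddSubmonoidClass.coe_finsetSum, SetLike.val_smul] at h2
        exact h2.symm
      simp only [Finset.sum_smul]
      rw [Finset.sum_comm]
      refine Finset.sum_congr rfl fun k _ => ?_
      conv_lhs => rw [h1 k]
      rw [Finset.smul_sum]
      exact Finset.sum_congr rfl fun i _ => by rw [smul_smul]
    have hpow : q ^ (k₀ : ℕ) ≤ q ^ (m - 1) := Nat.pow_le_pow_right (by omega) (by omega)
    have hm1 : m + 1 - 2 = m - 1 := by omega
    rw [hm1] at hB
    have h3 : InMN (hcv (q ^ (k₀ : ℕ)) (∑ i, (∑ k : Fin m, C (g k) * Cc k i) •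
        (e i : Fin (m + 1) → MvPolynomial (Fin (m + 1)) K))) := by
      rw [hcv_sum]
      apply InMN.sum
      intro i _
      apply h.hcv_mN hl0 hI _ (hzero i) (e i).2
      rw [Nat.add_sub_cancel, ← hq]
      omega
    rw [← hexp, hcv_sum] at h3
    have h4 : ∑ k : Fin m, hcv (q ^ (k₀ : ℕ))
        ((C (g k) : MvPolynomial (Fin (m + 1)) K) • th K (m + 1) k) =
        (C (g k₀) : MvPolynomial (Fin (m + 1)) K) • th K (m + 1) k₀ := by
      rw [Finset.sum_eq_single k₀]
      · rw [hcv_smul (isHomogeneous_C _ _) _ (Nat.zero_le _), Nat.sub_zero,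
          hcv_of_homF (th_homF (k₀ : ℕ))]
      · intro k _ hk
        rw [hcv_smul (isHomogeneous_C _ _) _ (Nat.zero_le _), Nat.sub_zero,
          hcv_of_homF_ne (th_homF (k : ℕ)), smul_zero]
        intro hqq
        exact hk (Fin.ext (q_pow_inj hqq).symm)
      · intro hh
        exact absurd (Finset.mem_univ _) hh
    rw [h4] at h3
    obtain ⟨s, hs, hse⟩ := h3
    rw [Nat.add_sub_cancel] at hse
    have h5 : ∑ j ∈ Finset.range (m + 1), ((if j < m then s j else 0) -
        (if j = (k₀ : ℕ) then C (g k₀) else 0)) • th K (m + 1) j = 0 := by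
      simp only [sub_smul, Finset.sum_sub_distrib]
      rw [Finset.sum_range_succ, if_neg (lt_irrefl m), zero_smul, add_zero]
      have h6 : ∑ j ∈ Finset.range m, (if j < m then s j else 0) • th K (m + 1) j =
          ∑ j ∈ Finset.range m, s j • th K (m + 1) j :=
        Finset.sum_congr rfl fun j hj => by rw [if_pos (Finset.mem_range.1 hj)]
      have h7 : ∑ j ∈ Finset.range (m + 1), (if j = (k₀ : ℕ) then
          (C (g k₀) : MvPolynomial (Fin (m + 1)) K) else 0) • th K (m + 1) j =
          (C (g k₀) : MvPolynomial (Fin (m + 1)) K) • th K (m + 1) k₀ := by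
        simp only [ite_smul, zero_smul]
        rw [Finset.sum_ite_eq' (Finset.range (m + 1)) (k₀ : ℕ),
          if_pos (Finset.mem_range.2 (by omega))]
      rw [h6, h7, ← hse, sub_self]
    have h8 := th_indep h5 (k₀ : ℕ) (by omega)
    rw [if_pos k₀.isLt, if_pos rfl, sub_eq_zero] at h8
    have h9 := hs (k₀ : ℕ)
    rwa [h8, constantCoeff_C] at h9
  -- one more vector
  obtain ⟨w, hw⟩ : ∃ w : Fin (m + 1) → K,
      w ∉ Submodule.span K (Set.range (fun k : Fin m => fun i => constantCoeff (Cc k i))) := by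
    by_contra hcon
    push Not at hcon
    have h1 : Submodule.span K (Set.range (fun k : Fin m => fun i => constantCoeff (Cc k i))) = ⊤ :=
      Submodule.eq_top_iff'.2 hcon
    have h2 := finrank_span_eq_card hrow
    rw [h1, finrank_top, Module.finrank_fin_fun, Fintype.card_fin] at h2
    omega
  let M : Matrix (Fin (m + 1)) (Fin (m + 1)) (MvPolynomial (Fin (m + 1)) K) :=
    Fin.snoc (α := fun _ => Fin (m + 1) → MvPolynomial (Fin (m + 1)) K) Cc (fun i => C (w i))
  have hMlast : ∀ i, M (Fin.last m) i = C (w i) := by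
    intro i
    simp only [M, Fin.snoc_last]
  have hMcast : ∀ (k : Fin m) i, M k.castSucc i = Cc k i := by
    intro k i
    simp only [M, Fin.snoc_castSucc]
  have hdet : constantCoeff M.det ≠ 0 := by
    have h1 : LinearIndependent K (Fin.snoc (α := fun _ => Fin (m + 1) → K)
        (fun k : Fin m => fun i => constantCoeff (Cc k i)) w) :=
      linearIndependent_finSnoc.2 ⟨hrow, hw⟩
    have h2 : (M.map constantCoeff) = Fin.snoc (α := fun _ => Fin (m + 1) → K)
        (fun k : Fin m => fun i => constantCoeff (Cc k i)) w := by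
      funext k i
      refine Fin.lastCases ?_ (fun k => ?_) k
      · rw [Matrix.map_apply, hMlast, constantCoeff_C, Fin.snoc_last]
      · rw [Matrix.map_apply, hMcast, Fin.snoc_castSucc]
    have h3 : IsUnit (M.map constantCoeff) := by
      rw [← Matrix.linearIndependent_rows_iff_isUnit]
      rw [h2]
      exact h1
    have h4 := (Matrix.isUnit_iff_isUnit_det _).1 h3
    rw [RingHom.map_det]
    exact h4.ne_zero
  set r := M.det with hr
  set f : Fin (m + 1) → LD A := fun k => ∑ i, M k i • e i with hf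
  have hfc : ∀ k : Fin m, f k.castSucc = ⟨th K (m + 1) k, th_mem k⟩ := by
    intro k
    rw [← hCc k, hf]
    exact Finset.sum_congr rfl fun i _ => by rw [hMcast]
  set π := h.pi hl0 with hπ
  set g := π (f (Fin.last m)) with hg
  have hdvd : ∀ z : LD A, g ∣ r * π z := by
    intro z
    set y : Fin (m + 1) → MvPolynomial (Fin (m + 1)) K := fun i => e.repr z i with hy
    have hz : z = ∑ i, y i • e i := (e.sum_repr z).symm
    have h1 : r • z = ∑ k, (Matrix.vecMul y M.adjugate) k • f k := by
      have h2 : ∑ k, (Matrix.vecMul y M.adjugate) k • f k =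
          ∑ i, (Matrix.vecMul (Matrix.vecMul y M.adjugate) M) i • e i := by
        simp only [hf, Finset.smul_sum, smul_smul]
        rw [Finset.sum_comm]
        refine Finset.sum_congr rfl fun i _ => ?_
        rw [← Finset.sum_smul]
        rfl
      rw [h2, Matrix.vecMul_vecMul, Matrix.adjugate_mul, Matrix.vecMul_smul, Matrix.vecMul_one]
      conv_lhs => rw [hz]
      rw [Finset.smul_sum]
      exact Finset.sum_congr rfl fun i _ => by rw [smul_smul, Pi.smul_apply, smul_eq_mul]
    have h3 := congrArg π h1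
    rw [map_smul, smul_eq_mul, map_sum, Fin.sum_univ_castSucc] at h3
    rw [h3]
    have h4 : ∀ k : Fin m, π ((Matrix.vecMul y M.adjugate) k.castSucc • f k.castSucc) = 0 := by
      intro k
      rw [map_smul, hfc, hπ, h.pi_th hl0 k (by omega), smul_zero]
    rw [Finset.sum_eq_zero fun k _ => h4 k, zero_add, map_smul, smul_eq_mul]
    exact dvd_mul_left _ _
  have hr0 : r ≠ 0 := by
    intro h0
    rw [h0, map_zero] at hdet
    exact hdet rfl
  have hg0 : constantCoeff g = 0 := hI _ (h.pi_mem hl0 _)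
  have hgne : g ≠ 0 := by
    intro h0
    have h1 := hdvd ⟨th K (m + 1) (m + 1 - 1), th_mem (m + 1 - 1)⟩
    rw [hπ, h.pi_th_last hl0, h0, zero_dvd_iff, mul_eq_zero] at h1
    rcases h1 with h1 | h1
    · exact hr0 h1
    · exact h.QQ_ne h1
  -- point fields
  have hpt : ∀ p : Fin (m + 1) → K, p ≠ 0 → ∃ z : LD A, π z = ∏ b ∈ B with b ⬝ᵥ p = 0, lf b := by
    intro p hp
    obtain ⟨a, hap⟩ : ∃ a : Fin (m + 1) → K, a ⬝ᵥ p ≠ 0 := by
      obtain ⟨a, ha⟩ := exists_dual hp
      exact ⟨a, by rw [dotProduct_comm, ha]; exact one_ne_zero⟩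
    obtain ⟨c, hc1, hc⟩ := exists_cp hap
    have hV : ∀ b ∈ B, Van b (fun j => (∏ b ∈ B with b ⬝ᵥ p = 0, lf b) * c j) := by
      intro b hb
      by_cases hbp : b ⬝ᵥ p = 0
      · intro x
        have h1 : qe K (fun j => (∏ b ∈ B with b ⬝ᵥ p = 0, lf b) * c j) (m + 1) (lf x) =
            (∏ b ∈ B with b ⬝ᵥ p = 0, lf b) * qe K c (m + 1) (lf x) := by
          simp only [qe_apply, Finset.mul_sum, mul_assoc]
        rw [h1]
        exact (Finset.dvd_prod_of_mem (fun b => lf b) (Finset.mem_filter.2 ⟨hb, hbp⟩)).mul_right _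
      · exact (van_of_point hbp hc).mul _
    obtain ⟨δ, hδm, hδ⟩ := h.exists_field hV
    refine ⟨⟨δ, hδm⟩, ?_⟩
    rw [hπ, h.pi_eq hl0 hδm hδ, hc1, mul_one]
  have hgr : g ∣ r := by
    apply dvd_of_mul_dvd (κ := LD A) (fun z => π z) _ g hgne r hdvd
    intro p hp
    by_contra hcon
    push Not at hcon
    have h1 := hcon ⟨th K (m + 1) (m + 1 - 1), th_mem (m + 1 - 1)⟩
    rw [hπ, h.pi_th_last hl0] at h1
    obtain ⟨b, hb, hpb⟩ := (hp.dvd_finset_prod_iff _).1 h1
    obtain ⟨x, hx⟩ := exists_dual (h.np.1 b hb)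
    have hx0 : x ≠ 0 := by
      rintro rfl
      rw [dotProduct_zero] at hx
      exact zero_ne_one hx
    obtain ⟨z, hz⟩ := hpt x hx0
    have h2 := hcon z
    rw [hz] at h2
    obtain ⟨b', hb', hpb'⟩ := (hp.dvd_finset_prod_iff _).1 h2
    rw [Finset.mem_filter] at hb'
    have hne : b ≠ b' := by
      rintro rfl
      rw [hb'.2] at hx
      exact zero_ne_one hx
    exact hp.not_unit (h.np.isRelPrime hb hb'.1 hne hpb hpb')
  apply hdet
  obtain ⟨t, ht⟩ := hgr
  rw [ht, map_mul, hg0, zero_mul]

end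

end Pool.Agent.H160.TF
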