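import Mathlib
import Pool.Agent.H160.TF.Pi

set_option autoImplicit false

/-! # Duality and counting of subspaces of codimension two -/

namespace Pool.Agent.H160.TF

section perp

variable {K : Type*} [Field K] {l : ℕ}

/-- the annihilator with respect to the dot product -/
noncomputable def perp (W : Submodule K (Fin l → K)) : Submodule K (Fin l → K) :=
  (W.map (dotProductEquiv K (Fin l)).toLinearMap).dualCoannihilator

theorem mem_perp {W : Submodule K (Fin l → K)} {x : Fin l → K} :
    x ∈ perp W ↔ ∀ a ∈ W, a ⬝ᵥ x = 0 := by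
  rw [perp, Submodule.mem_dualCoannihilator]
  constructor
  · intro h a ha
    exact h _ ⟨a, ha, rfl⟩
  · rintro h _ ⟨a, ha, rfl⟩
    exact h a ha

theorem finrank_perp (W : Submodule K (Fin l → K)) :
    Module.finrank K W + Module.finrank K (perp W) = l := by
  have h1 := Subspace.finrank_add_finrank_dualCoannihilator_eq
    (W.map (dotProductEquiv K (Fin l)).toLinearMap)
  rw [Module.finrank_fin_fun, LinearEquiv.finrank_map_eq] at h1
  exact h1

theorem perp_perp (W : Submodule K (Fin l → K)) : perp (perp W) = W := by
  symm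
  apply Submodule.eq_of_le_of_finrank_eq
  · intro a ha
    rw [mem_perp]
    intro x hx
    rw [dotProduct_comm]
    exact mem_perp.1 hx a ha
  · have h1 := finrank_perp W
    have h2 := finrank_perp (perp W)
    omega

theorem perp_anti {W W' : Submodule K (Fin l → K)} (h : W ≤ W') : perp W' ≤ perp W := by
  intro x hx
  rw [mem_perp] at hx ⊢
  exact fun a ha => hx a (h ha)

/-- the hyperplane of a form -/
noncomputable def hyp (a : Fin l → K) : Submodule K (Fin l → K) := LinearMap.ker (dotL a)

theorem mem_hyp {a x : Fin l → K} : x ∈ hyp a ↔ x ⬝ᵥ a = 0 := by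
  rw [hyp, LinearMap.mem_ker, dotL_apply]

theorem le_hyp {a : Fin l → K} {X : Submodule K (Fin l → K)} : X ≤ hyp a ↔ a ∈ perp X := by
  rw [mem_perp]
  exact ⟨fun h x hx => mem_hyp.1 (h hx), fun h x hx => mem_hyp.2 (h x hx)⟩

end perp

section count

variable {K : Type*} [Field K] [Fintype K] {l : ℕ}

theorem geom (q : ℕ) (hq : 1 < q) (m : ℕ) : (q - 1) * ∑ j ∈ Finset.range m, q ^ j + 1 = q ^ m := by
  induction m with
  | zero => simp
  | succ m ih =>
    rw [Finset.sum_range_succ, mul_add, pow_succ]
    obtain ⟨k, rfl⟩ : ∃ k, q = k + 1 := ⟨q - 1, by omega⟩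
    rw [Nat.add_sub_cancel] at ih ⊢
    linarith

open Classical in
theorem card_mem (W : Submodule K (Fin l → K)) :
    (Finset.univ.filter (fun b : Fin l → K => b ∈ W)).card =
      Fintype.card K ^ Module.finrank K W := by
  have : Fintype W := Fintype.ofFinite W
  rw [← Module.card_eq_pow_finrank (K := K) (V := W), Fintype.card_subtype]

noncomputable instance : Fintype (Submodule K (Fin l → K)) := Fintype.ofFinite _

open Classical in
/-- the number of pencils through a point -/
theorem card_pencils_through {a : Fin l → K} (ha : a ≠ 0) :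
    (Finset.univ.filter (fun W : Submodule K (Fin l → K) =>
      Module.finrank K W = 2 ∧ a ∈ W)).card = ∑ j ∈ Finset.range (l - 1), Fintype.card K ^ j := by
  set q := Fintype.card K with hq
  have hq1 : 1 < q := one_lt_q (K := K)
  have hl : 1 ≤ l := by
    rcases Nat.eq_zero_or_pos l with h | h
    · subst h
      exact absurd (funext fun i => i.elim0) ha
    · exact h
  set T := Finset.univ.filter (fun W : Submodule K (Fin l → K) =>
      Module.finrank K W = 2 ∧ a ∈ W) with hT
  have h1 : ∀ b ∈ (Finset.univ.filter (fun b : Fin l → K => b ∉ Submodule.span K {a})),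
      Submodule.span K {a, b} ∈ T := by
    intro b hb
    rw [Finset.mem_filter] at hb
    rw [hT, Finset.mem_filter]
    refine ⟨Finset.mem_univ _, finrank_span_pair ha ?_, Submodule.subset_span (by simp)⟩
    intro c hc
    exact hb.2 (Submodule.mem_span_singleton.2 ⟨c, hc.symm⟩)
  have h2 := Finset.card_eq_sum_card_fiberwise h1
  have hsp : Module.finrank K (Submodule.span K {a}) = 1 := finrank_span_singleton ha
  have h3 : (Finset.univ.filter (fun b : Fin l → K => b ∉ Submodule.span K {a})).card =
      q ^ l - q := by
    have h4 := Finset.card_filter_add_card_filter_not (s := (Finset.univ : Finset (Fin l → K)))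
      (fun b : Fin l → K => b ∈ Submodule.span K {a})
    rw [card_mem, hsp, pow_one, Finset.card_univ, Fintype.card_fun, Fintype.card_fin] at h4
    rw [← hq] at h4
    omega
  have h5 : ∀ W ∈ T, ((Finset.univ.filter (fun b : Fin l → K => b ∉ Submodule.span K {a})).filter
      (fun b => Submodule.span K {a, b} = W)).card = q ^ 2 - q := by
    intro W hW
    rw [hT, Finset.mem_filter] at hW
    have h6 : ((Finset.univ.filter (fun b : Fin l → K => b ∉ Submodule.span K {a})).filter
        (fun b => Submodule.span K {a, b} = W)) =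
        (Finset.univ.filter (fun b : Fin l → K => b ∈ W)) \
          (Finset.univ.filter (fun b : Fin l → K => b ∈ Submodule.span K {a})) := by
      ext b
      simp only [Finset.mem_filter, Finset.mem_univ, true_and, Finset.mem_sdiff]
      constructor
      · rintro ⟨h7, rfl⟩
        exact ⟨Submodule.subset_span (by simp), h7⟩
      · rintro ⟨h7, h8⟩
        refine ⟨h8, ?_⟩
        apply Submodule.eq_of_le_of_finrank_eq
        · rw [Submodule.span_le]
          rintro x (rfl | rfl)
          · exact hW.2.2
          · exact h7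
        · rw [hW.2.1]
          apply finrank_span_pair ha
          intro c hc
          exact h8 (Submodule.mem_span_singleton.2 ⟨c, hc.symm⟩)
    rw [h6, Finset.card_sdiff_of_subset, card_mem, card_mem, hW.2.1, hsp, pow_one]
    intro b hb
    simp only [Finset.mem_filter, Finset.mem_univ, true_and] at hb ⊢
    obtain ⟨c, rfl⟩ := Submodule.mem_span_singleton.1 hb
    exact W.smul_mem c hW.2.2
  rw [h3, Finset.sum_congr rfl h5, Finset.sum_const, smul_eq_mul] at h2
  have h6 := geom q hq1 (l - 1)
  have h7 : q ^ l - q = (∑ j ∈ Finset.range (l - 1), q ^ j) * (q ^ 2 - q) := by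
    have h8 : q ^ l = q * q ^ (l - 1) := by rw [← pow_succ', Nat.sub_add_cancel hl]
    have h9 : q ^ 2 - q = q * (q - 1) := by rw [Nat.mul_sub, mul_one, sq]
    rw [h8, h9, ← h6]
    have h10 : q * ((q - 1) * ∑ j ∈ Finset.range (l - 1), q ^ j + 1) - q =
        q * ((q - 1) * ∑ j ∈ Finset.range (l - 1), q ^ j) := by
      rw [mul_add, mul_one, Nat.add_sub_cancel]
    rw [h10]
    ring
  rw [h7] at h2
  have h8 : 0 < q ^ 2 - q := by
    have : q ^ 2 - q = q * (q - 1) := by rw [Nat.mul_sub, mul_one, sq]
    rw [this]
    exact Nat.mul_pos (by omega) (by omega)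
  exact (Nat.eq_of_mul_eq_mul_right h8 h2).symm

open Classical in
/-- the number of pencils -/
theorem card_pencils : (Finset.univ.filter (fun W : Submodule K (Fin l → K) =>
      Module.finrank K W = 2)).card * (Fintype.card K + 1) =
      (∑ j ∈ Finset.range l, Fintype.card K ^ j) *
        ∑ j ∈ Finset.range (l - 1), Fintype.card K ^ j := by
  set q := Fintype.card K with hq
  have hq1 : 1 < q := one_lt_q (K := K)
  have h1 := Finset.sum_card_bipartiteAbove_eq_sum_card_bipartiteBelow
    (s := Finset.univ.filter (fun a : Fin l → K => a ≠ 0))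
    (t := Finset.univ.filter (fun W : Submodule K (Fin l → K) => Module.finrank K W = 2))
    (fun (a : Fin l → K) (W : Submodule K (Fin l → K)) => a ∈ W)
  have h2 : ∀ a ∈ Finset.univ.filter (fun a : Fin l → K => a ≠ 0),
      (Finset.bipartiteAbove (fun (a : Fin l → K) (W : Submodule K (Fin l → K)) => a ∈ W)
        (Finset.univ.filter (fun W : Submodule K (Fin l → K) => Module.finrank K W = 2)) a).card =
      ∑ j ∈ Finset.range (l - 1), q ^ j := by
    intro a ha
    rw [Finset.mem_filter] at ha
    rw [← card_pencils_through ha.2, Finset.bipartiteAbove, Finset.filter_filter]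
  have h3 : ∀ W ∈ Finset.univ.filter (fun W : Submodule K (Fin l → K) =>
      Module.finrank K W = 2),
      (Finset.bipartiteBelow (fun (a : Fin l → K) (W : Submodule K (Fin l → K)) => a ∈ W)
        (Finset.univ.filter (fun a : Fin l → K => a ≠ 0)) W).card = q ^ 2 - 1 := by
    intro W hW
    rw [Finset.mem_filter] at hW
    have h4 : Finset.bipartiteBelow (fun (a : Fin l → K) (W : Submodule K (Fin l → K)) => a ∈ W)
        (Finset.univ.filter (fun a : Fin l → K => a ≠ 0)) W =
        (Finset.univ.filter (fun b : Fin l → K => b ∈ W)).erase 0 := by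
      ext b
      simp only [Finset.bipartiteBelow, Finset.mem_filter, Finset.mem_univ, true_and,
        Finset.mem_erase]
    rw [h4, Finset.card_erase_of_mem (by simp), card_mem, hW.2]
  rw [Finset.sum_congr rfl h2, Finset.sum_congr rfl h3, Finset.sum_const, Finset.sum_const,
    smul_eq_mul, smul_eq_mul] at h1
  have h5 : (Finset.univ.filter (fun a : Fin l → K => a ≠ 0)).card = q ^ l - 1 := by
    have h6 : (Finset.univ.filter (fun a : Fin l → K => a ≠ 0)) = Finset.univ.erase 0 := by
      ext b
      simp
    rw [h6, Finset.card_erase_of_mem (Finset.mem_univ _), Finset.card_univ, Fintype.card_fun,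
      Fintype.card_fin]
  rw [h5] at h1
  have h6 := geom q hq1 l
  have h7 : q ^ l - 1 = (q - 1) * ∑ j ∈ Finset.range l, q ^ j := by omega
  have h8 : q ^ 2 - 1 = (q - 1) * (q + 1) := by
    clear_value q
    obtain ⟨k, rfl⟩ : ∃ k, q = k + 1 := ⟨q - 1, by omega⟩
    rw [Nat.add_sub_cancel]
    have : (k + 1) ^ 2 = k * (k + 1 + 1) + 1 := by ring
    rw [this, Nat.add_sub_cancel]
  rw [h7, h8] at h1
  apply Nat.eq_of_mul_eq_mul_left (show 0 < q - 1 by omega)
  rw [← mul_assoc (q - 1) (∑ j ∈ Finset.range l, q ^ j), h1]
  ring

end count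

end Pool.Agent.H160.TF
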