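import Mathlib
import Pool.Agent.H160.TF.Count
import Pool.Agent.H160.TF.Conv

set_option autoImplicit false

/-! # Intersection lattices, second Betti number -/

namespace Pool.Agent.H160.TF

open MvPolynomial

section lattice

variable {K : Type} [Field K] {l n m : ℕ}

/-- the `i`-th hyperplane -/
abbrev HH (A : Matrix (Fin n) (Fin l) K) (i : Fin n) : Submodule K (Fin l → K) :=
  LinearMap.ker ((LinearMap.proj i : (Fin n → K) →ₗ[K] K).comp (Matrix.mulVecLin A))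

theorem mem_HH {A : Matrix (Fin n) (Fin l) K} {i : Fin n} {x : Fin l → K} :
    x ∈ HH A i ↔ A i ⬝ᵥ x = 0 := by
  rw [HH, LinearMap.mem_ker]
  rfl

theorem HH_eq (A : Matrix (Fin n) (Fin l) K) (i : Fin n) : HH A i = hyp (A i) := by
  ext x
  rw [mem_HH, mem_hyp, dotProduct_comm]

/-- the intersection lattice -/
abbrev Lat (A : Matrix (Fin n) (Fin l) K) : Set (Submodule K (Fin l → K)) :=
  Set.range (fun s : Finset (Fin n) => ⨅ i ∈ s, HH A i)

theorem top_mem (A : Matrix (Fin n) (Fin l) K) : (⊤ : Submodule K (Fin l → K)) ∈ Lat A :=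
  ⟨∅, by simp⟩

theorem HH_mem (A : Matrix (Fin n) (Fin l) K) (i : Fin n) : HH A i ∈ Lat A :=
  ⟨{i}, by simp⟩

theorem inf_mem (A : Matrix (Fin n) (Fin l) K) {X Y : Submodule K (Fin l → K)} (hX : X ∈ Lat A)
    (hY : Y ∈ Lat A) : X ⊓ Y ∈ Lat A := by
  classical
  obtain ⟨s, rfl⟩ := hX
  obtain ⟨t, rfl⟩ := hY
  refine ⟨s ∪ t, ?_⟩
  simp only
  rw [Finset.iInf_union]

theorem hyp_span (a : Fin l → K) : hyp a = perp (Submodule.span K {a}) := by
  ext x
  rw [mem_hyp, mem_perp]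
  constructor
  · intro h b hb
    obtain ⟨c, rfl⟩ := Submodule.mem_span_singleton.1 hb
    rw [smul_dotProduct, dotProduct_comm, h, smul_zero]
  · intro h
    rw [dotProduct_comm]
    exact h a (Submodule.mem_span_singleton_self a)

theorem finrank_hyp {a : Fin l → K} (ha : a ≠ 0) : Module.finrank K (hyp a) + 1 = l := by
  have h1 := finrank_perp (Submodule.span K {a})
  rw [finrank_span_singleton ha, ← hyp_span] at h1
  omega

theorem hyp_inf (a b : Fin l → K) : hyp a ⊓ hyp b = perp (Submodule.span K {a, b}) := by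
  ext x
  rw [Submodule.mem_inf, mem_hyp, mem_hyp, mem_perp]
  constructor
  · rintro ⟨h1, h2⟩ c hc
    obtain ⟨r, s, rfl⟩ := Submodule.mem_span_pair.1 hc
    rw [add_dotProduct, smul_dotProduct, smul_dotProduct, dotProduct_comm a, dotProduct_comm b, h1,
      h2, smul_zero, smul_zero, add_zero]
  · intro h
    rw [dotProduct_comm, dotProduct_comm x b]
    exact ⟨h a (Submodule.subset_span (by simp)), h b (Submodule.subset_span (by simp))⟩

theorem dist_np {A : Matrix (Fin n) (Fin l) K} (hA : Dist A) {i j : Fin n} (hij : i ≠ j) (c : K) :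
    A j ≠ c • A i := hA.1 j i hij.symm c

theorem finrank_HH_inf {A : Matrix (Fin n) (Fin l) K} (hA : Dist A) {i j : Fin n} (hij : i ≠ j) :
    Module.finrank K ↥(HH A i ⊓ HH A j) + 2 = l := by
  rw [HH_eq, HH_eq, hyp_inf]
  have h1 := finrank_perp (Submodule.span K {A i, A j})
  rw [finrank_span_pair (hA.2 i) (dist_np hA hij)] at h1
  omega

theorem HH_injective {A : Matrix (Fin n) (Fin l) K} (hA : Dist A) :
    Function.Injective (HH A) := by
  intro i j h
  by_contra hij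
  have h1 := finrank_HH_inf hA hij
  rw [h, inf_idem, HH_eq] at h1
  have h2 := finrank_hyp (hA.2 j)
  omega

/-- the hyperplanes are the coatoms of the lattice -/
theorem coatom_iff {A : Matrix (Fin n) (Fin l) K} (hA : Dist A) {X : Submodule K (Fin l → K)}
    (hX : X ∈ Lat A) : (X ≠ ⊤ ∧ ∀ Y ∈ Lat A, X ≤ Y → Y = X ∨ Y = ⊤) ↔ ∃ i, X = HH A i := by
  constructor
  · rintro ⟨h1, h2⟩
    obtain ⟨s, rfl⟩ := hX
    rcases s.eq_empty_or_nonempty with rfl | ⟨i, hi⟩
    · exact absurd (by simp) h1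
    · refine ⟨i, ?_⟩
      have h3 : (⨅ i ∈ s, HH A i) ≤ HH A i := iInf₂_le i hi
      rcases h2 _ (HH_mem A i) h3 with h | h
      · exact h.symm
      · exfalso
        have h4 := finrank_hyp (hA.2 i)
        rw [← HH_eq, h, finrank_top, Module.finrank_fin_fun] at h4
        omega
  · rintro ⟨i, rfl⟩
    have h4 := finrank_hyp (hA.2 i)
    rw [← HH_eq] at h4
    constructor
    · intro h
      rw [h, finrank_top, Module.finrank_fin_fun] at h4
      omega
    · intro Y hY hle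
      by_cases h : Module.finrank K Y ≤ Module.finrank K ↥(HH A i)
      · left
        exact (Submodule.eq_of_le_of_finrank_le hle h).symm
      · right
        apply Submodule.eq_top_of_finrank_eq
        have h5 := Submodule.finrank_le Y
        rw [Module.finrank_fin_fun] at h5 ⊢
        omega

open Classical in
/-- the number of hyperplanes containing `X` -/
noncomputable def mult (A : Matrix (Fin n) (Fin l) K) (X : Submodule K (Fin l → K)) : ℕ :=
  (Finset.univ.filter (fun i : Fin n => X ≤ HH A i)).card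

open Classical in
/-- the flats of codimension two -/
noncomputable def L2 (A : Matrix (Fin n) (Fin l) K) : Finset (Submodule K (Fin l → K)) :=
  (Finset.univ : Finset (Fin n)).offDiag.image (fun p => HH A p.1 ⊓ HH A p.2)

/-- the second Betti number -/
noncomputable def b2 (A : Matrix (Fin n) (Fin l) K) : ℕ := ∑ X ∈ L2 A, (mult A X - 1)

theorem exists_match {A : Matrix (Fin n) (Fin l) K} {B : Matrix (Fin m) (Fin l) K} (hA : Dist A)
    (hB : Dist B) (e : ↥(Lat A) ≃o ↥(Lat B)) (i : Fin n) :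
    ∃ j, (e ⟨HH A i, HH_mem A i⟩ : Submodule K (Fin l → K)) = HH B j := by
  rw [← coatom_iff hB (e ⟨HH A i, HH_mem A i⟩).2]
  have hc := (coatom_iff hA (HH_mem A i)).2 ⟨i, rfl⟩
  have htop : e ⟨⊤, top_mem A⟩ = ⟨⊤, top_mem B⟩ := by
    apply le_antisymm
    · exact (le_top : (e ⟨⊤, top_mem A⟩ : Submodule K (Fin l → K)) ≤ ⊤)
    · rw [← e.symm_apply_le]
      exact (le_top : (e.symm ⟨⊤, top_mem B⟩ : Submodule K (Fin l → K)) ≤ ⊤)
  constructor
  · intro h
    apply hc.1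
    have h1 : e ⟨HH A i, HH_mem A i⟩ = e ⟨⊤, top_mem A⟩ := by
      rw [htop]
      exact Subtype.ext h
    exact congrArg Subtype.val (e.injective h1)
  · intro Y hY hle
    have h1 : (⟨HH A i, HH_mem A i⟩ : ↥(Lat A)) ≤ e.symm ⟨Y, hY⟩ := by
      rw [e.le_symm_apply]
      exact hle
    rcases hc.2 _ (e.symm ⟨Y, hY⟩).2 h1 with h2 | h2
    · left
      have h3 : e.symm ⟨Y, hY⟩ = ⟨HH A i, HH_mem A i⟩ := Subtype.ext h2
      rw [← h3, e.apply_symm_apply]
    · right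
      have h3 : e.symm ⟨Y, hY⟩ = ⟨⊤, top_mem A⟩ := Subtype.ext h2
      have h4 : (⟨Y, hY⟩ : ↥(Lat B)) = e ⟨⊤, top_mem A⟩ := by rw [← h3, e.apply_symm_apply]
      rw [htop] at h4
      exact congrArg Subtype.val h4

/-- an isomorphism of intersection lattices matches the hyperplanes -/
theorem exists_equiv {A : Matrix (Fin n) (Fin l) K} {B : Matrix (Fin m) (Fin l) K} (hA : Dist A)
    (hB : Dist B) (e : ↥(Lat A) ≃o ↥(Lat B)) :
    ∃ σ : Fin n ≃ Fin m, ∀ i, e ⟨HH A i, HH_mem A i⟩ = ⟨HH B (σ i), HH_mem B (σ i)⟩ := by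
  choose σ hσ using exists_match hA hB e
  choose τ hτ using exists_match hB hA e.symm
  have hσ' : ∀ i, e ⟨HH A i, HH_mem A i⟩ = ⟨HH B (σ i), HH_mem B (σ i)⟩ :=
    fun i => Subtype.ext (hσ i)
  have hτ' : ∀ j, e.symm ⟨HH B j, HH_mem B j⟩ = ⟨HH A (τ j), HH_mem A (τ j)⟩ :=
    fun j => Subtype.ext (hτ j)
  refine ⟨⟨σ, τ, fun i => ?_, fun j => ?_⟩, hσ'⟩
  · apply HH_injective hA
    have h1 := hτ' (σ i)
    rw [← hσ', e.symm_apply_apply] at h1
    exact (congrArg Subtype.val h1).symm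
  · apply HH_injective hB
    have h1 := hσ' (τ j)
    rw [← hτ', e.apply_symm_apply] at h1
    exact (congrArg Subtype.val h1).symm

theorem mult_eq {A : Matrix (Fin n) (Fin l) K} {B : Matrix (Fin m) (Fin l) K}
    (e : ↥(Lat A) ≃o ↥(Lat B)) (σ : Fin n ≃ Fin m)
    (hσ : ∀ i, e ⟨HH A i, HH_mem A i⟩ = ⟨HH B (σ i), HH_mem B (σ i)⟩) (X : ↥(Lat A)) :
    mult A X = mult B (e X) := by
  classical
  unfold mult
  apply Finset.card_bij (fun i _ => σ i)
  · intro i hi
    rw [Finset.mem_filter] at hi ⊢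
    refine ⟨Finset.mem_univ _, ?_⟩
    have h1 : X ≤ ⟨HH A i, HH_mem A i⟩ := hi.2
    rw [← e.le_iff_le, hσ] at h1
    exact h1
  · intro i _ j _ h
    exact σ.injective h
  · intro j hj
    rw [Finset.mem_filter] at hj
    refine ⟨σ.symm j, ?_, σ.apply_symm_apply j⟩
    rw [Finset.mem_filter]
    refine ⟨Finset.mem_univ _, ?_⟩
    have h1 : e X ≤ ⟨HH B j, HH_mem B j⟩ := hj.2
    have h2 := hσ (σ.symm j)
    rw [σ.apply_symm_apply] at h2
    have h3 : e X ≤ e ⟨HH A (σ.symm j), HH_mem A (σ.symm j)⟩ := by rw [h2]; exact h1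
    rw [e.le_iff_le] at h3
    exact h3

theorem e_inf {A : Matrix (Fin n) (Fin l) K} {B : Matrix (Fin m) (Fin l) K}
    (e : ↥(Lat A) ≃o ↥(Lat B)) (σ : Fin n ≃ Fin m)
    (hσ : ∀ i, e ⟨HH A i, HH_mem A i⟩ = ⟨HH B (σ i), HH_mem B (σ i)⟩) (i j : Fin n) :
    e ⟨HH A i ⊓ HH A j, inf_mem A (HH_mem A i) (HH_mem A j)⟩ =
      ⟨HH B (σ i) ⊓ HH B (σ j), inf_mem B (HH_mem B (σ i)) (HH_mem B (σ j))⟩ := by
  apply le_antisymm
  · have h1 : e ⟨HH A i ⊓ HH A j, inf_mem A (HH_mem A i) (HH_mem A j)⟩ ≤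
        ⟨HH B (σ i), HH_mem B (σ i)⟩ := by
      rw [← hσ, e.le_iff_le]
      exact (inf_le_left : HH A i ⊓ HH A j ≤ HH A i)
    have h2 : e ⟨HH A i ⊓ HH A j, inf_mem A (HH_mem A i) (HH_mem A j)⟩ ≤
        ⟨HH B (σ j), HH_mem B (σ j)⟩ := by
      rw [← hσ, e.le_iff_le]
      exact (inf_le_right : HH A i ⊓ HH A j ≤ HH A j)
    have h3 : ((e ⟨HH A i ⊓ HH A j, inf_mem A (HH_mem A i) (HH_mem A j)⟩ : ↥(Lat B)) :
        Submodule K (Fin l → K)) ≤ HH B (σ i) ⊓ HH B (σ j) := le_inf h1 h2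
    exact h3
  · rw [← e.symm_apply_le]
    have h1 : e.symm ⟨HH B (σ i) ⊓ HH B (σ j), inf_mem B (HH_mem B (σ i)) (HH_mem B (σ j))⟩ ≤
        ⟨HH A i, HH_mem A i⟩ := by
      rw [e.symm_apply_le, hσ]
      exact (inf_le_left : HH B (σ i) ⊓ HH B (σ j) ≤ HH B (σ i))
    have h2 : e.symm ⟨HH B (σ i) ⊓ HH B (σ j), inf_mem B (HH_mem B (σ i)) (HH_mem B (σ j))⟩ ≤
        ⟨HH A j, HH_mem A j⟩ := by
      rw [e.symm_apply_le, hσ]
      exact (inf_le_right : HH B (σ i) ⊓ HH B (σ j) ≤ HH B (σ j))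
    have h3 : ((e.symm ⟨HH B (σ i) ⊓ HH B (σ j),
        inf_mem B (HH_mem B (σ i)) (HH_mem B (σ j))⟩ : ↥(Lat A)) :
        Submodule K (Fin l → K)) ≤ HH A i ⊓ HH A j := le_inf h1 h2
    exact h3

theorem L2_sub (A : Matrix (Fin n) (Fin l) K) {X : Submodule K (Fin l → K)} (hX : X ∈ L2 A) :
    X ∈ Lat A := by
  obtain ⟨p, -, rfl⟩ := Finset.mem_image.1 hX
  exact inf_mem A (HH_mem A _) (HH_mem A _)

theorem L2_map {A : Matrix (Fin n) (Fin l) K} {B : Matrix (Fin m) (Fin l) K}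
    (e : ↥(Lat A) ≃o ↥(Lat B)) (σ : Fin n ≃ Fin m)
    (hσ : ∀ i, e ⟨HH A i, HH_mem A i⟩ = ⟨HH B (σ i), HH_mem B (σ i)⟩)
    {X : Submodule K (Fin l → K)} (hX : X ∈ L2 A) :
    (e ⟨X, L2_sub A hX⟩ : Submodule K (Fin l → K)) ∈ L2 B := by
  classical
  obtain ⟨⟨i, j⟩, hp, rfl⟩ := Finset.mem_image.1 hX
  rw [Finset.mem_offDiag] at hp
  simp only
  rw [e_inf e σ hσ]
  exact Finset.mem_image.2 ⟨(σ i, σ j), Finset.mem_offDiag.2
    ⟨Finset.mem_univ _, Finset.mem_univ _, fun h => hp.2.2 (σ.injective h)⟩, rfl⟩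

/-- the number of hyperplanes and the second Betti number are determined by the lattice -/
theorem b2_eq {A : Matrix (Fin n) (Fin l) K} {B : Matrix (Fin m) (Fin l) K} (hA : Dist A)
    (hB : Dist B) (e : ↥(Lat A) ≃o ↥(Lat B)) : n = m ∧ b2 A = b2 B := by
  classical
  obtain ⟨σ, hσ⟩ := exists_equiv hA hB e
  refine ⟨by simpa using Fintype.card_congr σ, ?_⟩
  have hσ' : ∀ j, e.symm ⟨HH B j, HH_mem B j⟩ =
      ⟨HH A (σ.symm j), HH_mem A (σ.symm j)⟩ := by
    intro j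
    rw [e.symm_apply_eq, hσ]
    simp only [σ.apply_symm_apply]
  unfold b2
  apply Finset.sum_bij (fun X hX => (e ⟨X, L2_sub A hX⟩ : Submodule K (Fin l → K)))
  · intro X hX
    exact L2_map e σ hσ hX
  · intro X hX Y hY h
    have h1 := e.injective (Subtype.ext h)
    exact congrArg Subtype.val h1
  · intro Y hY
    refine ⟨(e.symm ⟨Y, L2_sub B hY⟩ : Submodule K (Fin l → K)), L2_map e.symm σ.symm hσ' hY, ?_⟩
    simp only [Subtype.coe_eta, e.apply_symm_apply]
  · intro X hX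
    rw [mult_eq e σ hσ ⟨X, L2_sub A hX⟩]

end lattice

end Pool.Agent.H160.TF
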