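import Mathlib
import Pool.Agent.H160.TF.Lattice

set_option autoImplicit false

/-! # Covering arrangements and the second Betti number -/

namespace Pool.Agent.H160.TF

open MvPolynomial

section

variable {K : Type} [Field K] {l n : ℕ}

/-- every subspace of codimension two lies in a hyperplane of the arrangement -/
def Covers (A : Matrix (Fin n) (Fin l) K) : Prop :=
  ∀ X : Submodule K (Fin l → K), Module.finrank K X + 2 = l → ∃ i, X ≤ HH A i

theorem le_HH {A : Matrix (Fin n) (Fin l) K} {i : Fin n} {X : Submodule K (Fin l → K)} :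
    X ≤ HH A i ↔ A i ∈ perp X := by
  rw [HH_eq, le_hyp]

theorem cov_iff (A : Matrix (Fin n) (Fin l) K) : Cov A ↔ Covers A := by
  constructor
  · intro h X hX
    have h1 := finrank_perp X
    obtain ⟨i, hi⟩ := h (perp X) (by omega)
    exact ⟨i, le_HH.2 hi⟩
  · intro h W hW
    have h1 := finrank_perp W
    obtain ⟨i, hi⟩ := h (perp W) (by omega)
    rw [le_HH, perp_perp] at hi
    exact ⟨i, hi⟩

/-- the ideal generated by the linear forms vanishing on `X` -/
noncomputable def idealOf (X : Submodule K (Fin l → K)) : Ideal (MvPolynomial (Fin l) K) :=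
  Ideal.span { f | ∃ a : Fin l → K, (∀ x ∈ X, a ⬝ᵥ x = 0) ∧ f = ∑ j, C (a j) * MvPolynomial.X j }

theorem idealOf_eq (X : Submodule K (Fin l → K)) : idealOf X = IW (perp X) := by
  rw [idealOf, IW]
  congr 1
  ext f
  constructor
  · rintro ⟨a, ha, rfl⟩
    exact ⟨a, mem_perp.2 fun x hx => by rw [dotProduct_comm]; exact ha x hx, rfl⟩
  · rintro ⟨a, ha, rfl⟩
    exact ⟨a, fun x hx => by rw [dotProduct_comm]; exact mem_perp.1 ha x hx, rfl⟩

/-- the intersection of the ideals of the uncovered subspaces of codimension two -/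
noncomputable def idealU (A : Matrix (Fin n) (Fin l) K) : Ideal (MvPolynomial (Fin l) K) :=
  ⨅ X : { X : Submodule K (Fin l → K) // Module.finrank K X + 2 = l ∧ ∀ i, ¬ X ≤ HH A i },
    idealOf X.1

theorem idealU_eq (A : Matrix (Fin n) (Fin l) K) : idealU A = IU A := by
  ext g
  refine Iff.trans ?_ mem_IU.symm
  rw [idealU, Submodule.mem_iInf]
  constructor
  · intro h W hW hu
    have h1 := finrank_perp W
    have h2 := h ⟨perp W, by omega, fun i hi => hu i (by rw [le_HH, perp_perp] at hi; exact hi)⟩
    rwa [idealOf_eq, perp_perp] at h2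
  · rintro h ⟨X, hX, hu⟩
    rw [idealOf_eq]
    have h1 := finrank_perp X
    exact h (perp X) (by omega) (fun i hi => hu i (le_HH.2 hi))

variable [Fintype K]

open Classical in
/-- the subspaces of codimension two -/
noncomputable def cod2 (K : Type) [Field K] [Fintype K] (l : ℕ) :
    Finset (Submodule K (Fin l → K)) :=
  Finset.univ.filter (fun X => Module.finrank K X + 2 = l)

open Classical in
theorem card_cod2 : (cod2 K l).card * (Fintype.card K + 1) =
      (∑ j ∈ Finset.range l, Fintype.card K ^ j) *
        ∑ j ∈ Finset.range (l - 1), Fintype.card K ^ j := by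
  rw [← card_pencils (K := K) (l := l)]
  congr 1
  apply Finset.card_bij (fun X _ => perp X)
  · intro X hX
    rw [cod2, Finset.mem_filter] at hX
    rw [Finset.mem_filter]
    have := finrank_perp X
    exact ⟨Finset.mem_univ _, by omega⟩
  · intro X _ Y _ h
    rw [← perp_perp X, h, perp_perp]
  · intro W hW
    rw [Finset.mem_filter] at hW
    refine ⟨perp W, ?_, perp_perp W⟩
    rw [cod2, Finset.mem_filter]
    have := finrank_perp W
    exact ⟨Finset.mem_univ _, by omega⟩

open Classical in
theorem card_cod2_le {A : Matrix (Fin n) (Fin l) K} (hA : Dist A) (i : Fin n) :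
    ((cod2 K l).filter (fun X => X ≤ HH A i)).card =
      ∑ j ∈ Finset.range (l - 1), Fintype.card K ^ j := by
  rw [← card_pencils_through (hA.2 i)]
  apply Finset.card_bij (fun X _ => perp X)
  · intro X hX
    rw [cod2, Finset.filter_filter, Finset.mem_filter] at hX
    rw [Finset.mem_filter]
    have := finrank_perp X
    exact ⟨Finset.mem_univ _, by omega, le_HH.1 hX.2.2⟩
  · intro X _ Y _ h
    rw [← perp_perp X, h, perp_perp]
  · intro W hW
    rw [Finset.mem_filter] at hW
    refine ⟨perp W, ?_, perp_perp W⟩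
    rw [cod2, Finset.filter_filter, Finset.mem_filter]
    have := finrank_perp W
    exact ⟨Finset.mem_univ _, by omega, by rw [le_HH, perp_perp]; exact hW.2.2⟩

open Classical in
theorem sum_mult {A : Matrix (Fin n) (Fin l) K} (hA : Dist A) :
    ∑ X ∈ cod2 K l, mult A X = n * ∑ j ∈ Finset.range (l - 1), Fintype.card K ^ j := by
  have h1 := Finset.sum_card_bipartiteAbove_eq_sum_card_bipartiteBelow
    (s := (Finset.univ : Finset (Fin n))) (t := cod2 K l) (fun i X => X ≤ HH A i)
  have h2 : ∀ i ∈ (Finset.univ : Finset (Fin n)),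
      (Finset.bipartiteAbove (fun (i : Fin n) (X : Submodule K (Fin l → K)) => X ≤ HH A i)
        (cod2 K l) i).card = ∑ j ∈ Finset.range (l - 1), Fintype.card K ^ j := by
    intro i _
    exact card_cod2_le hA i
  rw [Finset.sum_congr rfl h2, Finset.sum_const, Finset.card_univ, Fintype.card_fin,
    smul_eq_mul] at h1
  rw [h1]
  rfl

open Classical in
/-- the set of uncovered subspaces -/
noncomputable def unc (A : Matrix (Fin n) (Fin l) K) : Finset (Submodule K (Fin l → K)) :=
  (cod2 K l).filter (fun X => ∀ i, ¬ X ≤ HH A i)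

theorem mem_unc {A : Matrix (Fin n) (Fin l) K} {X : Submodule K (Fin l → K)} :
    X ∈ unc A ↔ Module.finrank K X + 2 = l ∧ ∀ i, ¬ X ≤ HH A i := by
  classical
  rw [unc, cod2, Finset.mem_filter, Finset.mem_filter]
  simp

open Classical in
theorem unc_count {A : Matrix (Fin n) (Fin l) K} (hA : Dist A) :
    n * (∑ j ∈ Finset.range (l - 1), Fintype.card K ^ j) + (unc A).card =
      (cod2 K l).card + b2 A := by
  have hL2 : L2 A ⊆ cod2 K l := by
    intro X hX
    obtain ⟨⟨i, j⟩, hp, rfl⟩ := Finset.mem_image.1 hX
    rw [Finset.mem_offDiag] at hp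
    rw [cod2, Finset.mem_filter]
    exact ⟨Finset.mem_univ _, finrank_HH_inf hA hp.2.2⟩
  have hb : b2 A = ∑ X ∈ cod2 K l, (mult A X - 1) := by
    rw [b2]
    apply Finset.sum_subset hL2
    intro X hX hX2
    have h1 : mult A X ≤ 1 := by
      unfold mult
      rw [Finset.card_le_one]
      intro i hi j hj
      by_contra hij
      rw [Finset.mem_filter] at hi hj
      apply hX2
      rw [L2, Finset.mem_image]
      refine ⟨(i, j), Finset.mem_offDiag.2 ⟨Finset.mem_univ _, Finset.mem_univ _, hij⟩, ?_⟩
      symm
      apply Submodule.eq_of_le_of_finrank_eq (le_inf hi.2 hj.2)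
      have h2 := finrank_HH_inf hA hij
      rw [cod2, Finset.mem_filter] at hX
      omega
    omega
  rw [hb, ← sum_mult hA, unc, Finset.card_eq_sum_ones ((cod2 K l).filter _), Finset.sum_filter,
    ← Finset.sum_add_distrib, Finset.card_eq_sum_ones (cod2 K l), ← Finset.sum_add_distrib]
  refine Finset.sum_congr rfl fun X _ => ?_
  by_cases h : ∀ i, ¬ X ≤ HH A i
  · rw [if_pos h]
    have : mult A X = 0 := by
      unfold mult
      rw [Finset.card_eq_zero, Finset.filter_eq_empty_iff]
      exact fun i _ => h i
    omega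
  · rw [if_neg h]
    push Not at h
    obtain ⟨i, hi⟩ := h
    have : 0 < mult A X := by
      unfold mult
      rw [Finset.card_pos]
      exact ⟨i, Finset.mem_filter.2 ⟨Finset.mem_univ _, hi⟩⟩
    omega

theorem covers_iff_unc (A : Matrix (Fin n) (Fin l) K) : Covers A ↔ (unc A).card = 0 := by
  classical
  rw [Finset.card_eq_zero, Finset.eq_empty_iff_forall_notMem]
  constructor
  · intro h X hX
    rw [mem_unc] at hX
    obtain ⟨i, hi⟩ := h X hX.1
    exact hX.2 i hi
  · intro h X hX
    by_contra hc
    push Not at hc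
    exact h X (mem_unc.2 ⟨hX, hc⟩)

/-- the number of uncovered subspaces in terms of the second Betti number -/
theorem unc_formula {A : Matrix (Fin n) (Fin l) K} (hA : Dist A) :
    (Fintype.card K + 1) * (unc A).card +
      (Fintype.card K + 1) * n * (∑ j ∈ Finset.range (l - 1), Fintype.card K ^ j) =
      (Fintype.card K + 1) * b2 A + (∑ j ∈ Finset.range l, Fintype.card K ^ j) *
        ∑ j ∈ Finset.range (l - 1), Fintype.card K ^ j := by
  have h1 := unc_count hA
  have h2 := card_cod2 (K := K) (l := l)
  rw [← h2]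
  have h3 := congrArg (fun x => (Fintype.card K + 1) * x) h1
  linarith

theorem covers_iff {A : Matrix (Fin n) (Fin l) K} (hA : Dist A) : Covers A ↔
    (Fintype.card K + 1) * b2 A + (∑ j ∈ Finset.range l, Fintype.card K ^ j) *
        (∑ j ∈ Finset.range (l - 1), Fintype.card K ^ j) =
      (Fintype.card K + 1) * n * (∑ j ∈ Finset.range (l - 1), Fintype.card K ^ j) := by
  rw [covers_iff_unc]
  have h1 := unc_formula hA
  constructor
  · intro h
    rw [h, mul_zero, zero_add] at h1
    exact h1.symm
  · intro h
    rw [← h] at h1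
    have h2 : (Fintype.card K + 1) * (unc A).card = 0 := by omega
    exact (Nat.mul_eq_zero.1 h2).resolve_left (by omega)

/-- the number of uncovered subspaces is determined by the lattice -/
theorem unc_card_eq {m : ℕ} {A : Matrix (Fin n) (Fin l) K} {B : Matrix (Fin m) (Fin l) K}
    (hA : Dist A) (hB : Dist B) (e : ↥(Lat A) ≃o ↥(Lat B)) : (unc A).card = (unc B).card := by
  obtain ⟨rfl, hb⟩ := b2_eq hA hB e
  have h1 := unc_count hA
  have h2 := unc_count hB
  rw [hb] at h1
  omega

end

end Pool.Agent.H160.TF
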