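import Mathlib
import Pool.Agent.H160.TF.Conv

set_option autoImplicit false

/-! # The complete intersection criterion: sufficiency -/

namespace Pool.Agent.H160.TF

open MvPolynomial

section

variable {K : Type*} [Field K] [Fintype K] {l : ℕ} {ι : Type*}
  {A : ι → Fin l → K} {B : Finset (Fin l → K)}

theorem Comp.pi_hcv (h : Comp A B) (hl : 0 < l) (d : ℕ) (η : LD A) :
    h.pi hl ⟨hcv d η, hcv_mem η.2 d⟩ = if Fintype.card K ^ (l - 1) ≤ B.card + d then
      homogeneousComponent (B.card + d - Fintype.card K ^ (l - 1)) (h.pi hl η) else 0 := by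
  obtain ⟨c, hc⟩ := h.exists_coords η.2
  have h1 := coords_hcv hc d
  rw [h.pi_eq hl (hcv_mem η.2 d) h1]
  have h2 := h.pi_eq hl η.2 hc
  rw [Subtype.coe_eta] at h2
  rw [h2, gc]

/-- homogeneous preimages -/
theorem Comp.pi_surj_hom (h : Comp A B) (hl : 0 < l) {g : (MvPolynomial (Fin l) K)} {i : ℕ} (hg : g ∈ IU A)
    (hgi : g.IsHomogeneous i) (hg0 : g ≠ 0) : B.card ≤ i + Fintype.card K ^ (l - 1) ∧
      ∃ η : LD A, HomF (i + Fintype.card K ^ (l - 1) - B.card) (η : Fin l → (MvPolynomial (Fin l) K)) ∧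
        h.pi hl η = g := by
  obtain ⟨η, hη⟩ := h.pi_surj hl hg
  obtain ⟨c, hc⟩ := h.exists_coords η.2
  have h2 := h.pi_eq hl η.2 hc
  rw [Subtype.coe_eta, hη] at h2
  have hle : B.card ≤ i + Fintype.card K ^ (l - 1) := by
    by_contra hlt
    push Not at hlt
    have h1 := coeffs_unique (gc (i + Fintype.card K ^ (l - 1)) c) l le_rfl (by
      intro a
      rw [← hc_qe, ← hc, hc_mul_lt (QQ_homogeneous B) _ hlt]) (l - 1) (by omega)
    rw [gc, if_pos (by omega), Nat.add_sub_cancel, ← h2, hc_of_hom hgi, if_pos rfl] at h1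
    exact hg0 h1
  refine ⟨hle, ⟨hcv (i + Fintype.card K ^ (l - 1) - B.card) η, hcv_mem η.2 _⟩, hcv_homF _ _, ?_⟩
  rw [h.pi_hcv, if_pos (by omega), hη]
  have h3 : B.card + (i + Fintype.card K ^ (l - 1) - B.card) - Fintype.card K ^ (l - 1) = i := by
    omega
  rw [h3, hc_of_hom hgi, if_pos rfl]

/-- no prime divides all elements of the ideal of the uncovered subspaces -/
theorem Comp.no_prime (h : Comp A B) (hl : 0 < l) {p : (MvPolynomial (Fin l) K)} (hp : Prime p) :
    ∃ g ∈ IU A, ¬ p ∣ g := by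
  classical
  by_contra hcon
  push Not at hcon
  have h1 := hcon _ (h.pi_mem hl ⟨th K l (l - 1), th_mem (l - 1)⟩)
  rw [h.pi_th_last hl] at h1
  obtain ⟨b, hb, hpb⟩ := (hp.dvd_finsetProd_iff _).1 h1
  obtain ⟨x, hx⟩ := exists_dual (h.np.1 b hb)
  have hx0 : x ≠ 0 := by
    rintro rfl
    rw [dotProduct_zero] at hx
    exact zero_ne_one hx
  -- point field
  have hpt : ∏ b ∈ B with b ⬝ᵥ x = 0, lf b ∈ IU A := by
    obtain ⟨c, hc1, hc⟩ := exists_cp (a := b) (p := x) (by rw [hx]; exact one_ne_zero)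
    have hV : ∀ b ∈ B, Van b (fun j => (∏ b ∈ B with b ⬝ᵥ x = 0, lf b) * c j) := by
      intro b hb
      by_cases hbp : b ⬝ᵥ x = 0
      · intro y
        have h1 : qe K (fun j => (∏ b ∈ B with b ⬝ᵥ x = 0, lf b) * c j) l (lf y) =
            (∏ b ∈ B with b ⬝ᵥ x = 0, lf b) * qe K c l (lf y) := by
          simp only [qe_apply, Finset.mul_sum, mul_assoc]
        rw [h1]
        exact (Finset.dvd_prod_of_mem (fun b => lf b) (Finset.mem_filter.2 ⟨hb, hbp⟩)).mul_right _
      · exact (van_of_point hbp hc).mul _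
    obtain ⟨δ, hδm, hδ⟩ := h.exists_field hV
    have h3 := h.pi_mem hl ⟨δ, hδm⟩
    rwa [h.pi_eq hl hδm hδ, hc1, mul_one] at h3
  have h2 := hcon _ hpt
  obtain ⟨b', hb', hpb'⟩ := (hp.dvd_finsetProd_iff _).1 h2
  rw [Finset.mem_filter] at hb'
  have hne : b ≠ b' := by
    rintro rfl
    rw [hb'.2] at hx
    exact zero_ne_one hx
  exact hp.not_isUnit (h.np.isRelPrime hb hb'.1 hne hpb hpb')

omit [Fintype K] in
theorem HomF.smul {u : (MvPolynomial (Fin l) K)} {i d : ℕ} (hu : u.IsHomogeneous i) {η : Fin l → (MvPolynomial (Fin l) K)} (hη : HomF d η) :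
    HomF (i + d) (u • η) := fun j => hu.mul (hη j)

omit [Fintype K] in
theorem HomF.sub {d : ℕ} {η ζ : Fin l → (MvPolynomial (Fin l) K)} (hη : HomF d η) (hζ : HomF d ζ) : HomF d (η - ζ) :=
  fun j => (hη j).sub (hζ j)

/-- a combination of few Frobenius fields which vanishes on a subspace of codimension two has
coefficients vanishing there -/
theorem coeffs_mem_IW {W : Submodule K (Fin l → K)} (hW : Module.finrank K W = 2) (s : ℕ → (MvPolynomial (Fin l) K))
    (hs : ∀ w : Fin l → K, ∑ j ∈ Finset.range (l - 2), s j * lf w ^ (Fintype.card K ^ j) ∈ IW W) :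
    ∀ j < l - 2, s j ∈ IW W := by
  classical
  obtain ⟨a, b, -, -, ha, hab, rfl⟩ := exists_pair hW
  rw [IW_span] at hs ⊢
  obtain ⟨p, p', h1, h2, h3, h4⟩ := exists_dual2 ha hab
  set φ := ret2 a b p p' with hφ
  set L : (Fin l → K) →ₗ[K] (K × K) := (dotL p).prod (dotL p') with hL
  have hLs : LinearMap.range L = ⊤ := by
    rw [LinearMap.range_eq_top]
    rintro ⟨x, y⟩
    refine ⟨x • a + y • b, ?_⟩
    simp [hL, add_dotProduct, smul_dotProduct, h1, h2, h3, h4]
  have hker : Module.finrank K (LinearMap.ker L) = l - 2 := by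
    have h5 := L.finrank_range_add_finrank_ker
    rw [hLs, finrank_top, Module.finrank_prod, Module.finrank_self, Module.finrank_fin_fun] at h5
    omega
  have hφw : ∀ w ∈ LinearMap.ker L, φ (lf w) = lf w := by
    intro w hw
    have h5 : w ⬝ᵥ p = 0 ∧ w ⬝ᵥ p' = 0 := by
      have := LinearMap.mem_ker.1 hw
      simpa [hL] using this
    rw [hφ, ret2_lf h2, h5.1, h5.2, zero_smul, zero_smul, sub_zero, sub_zero]
  have := Fintype.ofFinite (LinearMap.ker L)
  intro j hj
  apply mem_of_ret2 (p := p) (p' := p')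
  refine coeff_eq_zero_of_roots (K := K) (ι := LinearMap.ker L)
      (f := fun w => (lf (w : Fin l → K) : (MvPolynomial (Fin l) K))) ?_ (l - 2) ?_ (fun j => φ (s j)) ?_ j hj
  · intro w w' hw
    exact Subtype.ext (lf_injective hw)
  · rw [Module.card_eq_pow_finrank (K := K) (V := LinearMap.ker L), hker]
  · intro w
    have h5 := ret2_of_mem h1 h2 h3 h4 (hs w)
    rw [← hφ, map_sum] at h5
    rw [← h5]
    exact Finset.sum_congr rfl fun j _ => by rw [map_mul, map_pow, hφw _ w.2]

end

section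

variable {K : Type*} [Field K] [Fintype K] {m : ℕ} {ι : Type*}
  {A : ι → Fin (m + 2) → K} {B : Finset (Fin (m + 2) → K)}

/-- the family consisting of the first `m` Frobenius fields and two more fields -/
noncomputable def fam (K : Type*) [Field K] [Fintype K] (m : ℕ)
    (η₁ η₂ : Fin (m + 2) → MvPolynomial (Fin (m + 2)) K) :
    Fin (m + 2) → Fin (m + 2) → MvPolynomial (Fin (m + 2)) K :=
  fun k => if k.val < m then th K (m + 2) k.val else if k.val = m then η₁ else η₂

theorem fam_sum (η₁ η₂ : Fin (m + 2) → MvPolynomial (Fin (m + 2)) K)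
    (g : Fin (m + 2) → MvPolynomial (Fin (m + 2)) K) :
    ∑ k, g k • fam K m η₁ η₂ k =
      ∑ j ∈ Finset.range m, (if hj : j < m + 2 then g ⟨j, hj⟩ else 0) • th K (m + 2) j +
        g ⟨m, by omega⟩ • η₁ + g ⟨m + 1, by omega⟩ • η₂ := by
  have e : ∑ k : Fin (m + 2), g k • fam K m η₁ η₂ k = ∑ j ∈ Finset.range (m + 2),
      (if hj : j < m + 2 then g ⟨j, hj⟩ else 0) •
        (if j < m then th K (m + 2) j else if j = m then η₁ else η₂) := by
    rw [← Fin.sum_univ_eq_sum_range (fun j => (if hj : j < m + 2 then g ⟨j, hj⟩ else 0) •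
      (if j < m then th K (m + 2) j else if j = m then η₁ else η₂)) (m + 2)]
    refine Finset.sum_congr rfl fun k _ => ?_
    rw [dif_pos k.isLt, fam]
  rw [e, Finset.sum_range_succ, Finset.sum_range_succ]
  congr 1
  · congr 1
    · refine Finset.sum_congr rfl fun j hj => ?_
      rw [if_pos (Finset.mem_range.1 hj)]
    · rw [dif_pos (by omega), if_neg (lt_irrefl m), if_pos rfl]
  · rw [dif_pos (by omega), if_neg (by omega), if_neg (by omega)]

/-- **Sufficiency.** If the ideal of the uncovered subspaces is a complete intersection of the right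
degrees, the arrangement is free. -/
theorem Comp.free_of_ci (h : Comp A B) {i j : ℕ} (hi : 1 ≤ i) (hj : 1 ≤ j)
    (hij : i + j + Fintype.card K ^ (m + 1) = Fintype.card K ^ m + B.card)
    {f g : MvPolynomial (Fin (m + 2)) K} (hf : f.IsHomogeneous i) (hg : g.IsHomogeneous j)
    (hfg : IsRelPrime f g) (hI : IU A = Ideal.span {f, g}) :
    i ≤ Fintype.card K ^ m ∧ j ≤ Fintype.card K ^ m ∧
    ∃ b : Module.Basis (Fin (m + 2)) (MvPolynomial (Fin (m + 2)) K) (LD A),
      (∀ k : Fin (m + 2), k.val < m → (b k : Fin (m + 2) → MvPolynomial (Fin (m + 2)) K) = th K (m + 2) k.val) ∧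
      (∀ k : Fin (m + 2), k.val = m → HomF (Fintype.card K ^ m - j) (b k : Fin (m + 2) → MvPolynomial (Fin (m + 2)) K)) ∧
      (∀ k : Fin (m + 2), k.val = m + 1 →
        HomF (Fintype.card K ^ m - i) (b k : Fin (m + 2) → MvPolynomial (Fin (m + 2)) K)) := by
  classical
  set q := Fintype.card K with hq
  have hl : 0 < m + 2 := by omega
  have hcc : ∀ {u : MvPolynomial (Fin (m + 2)) K} {d : ℕ}, u.IsHomogeneous d → 1 ≤ d →
      constantCoeff u = 0 := by
    intro u d hu hd
    rw [constantCoeff_eq]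
    apply hu.coeff_eq_zero
    simp
    omega
  have hf0c : constantCoeff f = 0 := hcc hf hi
  have hg0c : constantCoeff g = 0 := hcc hg hj
  have hf0 : f ≠ 0 := by
    rintro rfl
    have h1 : IsUnit g := hfg (dvd_zero g) dvd_rfl
    have h2 := h1.map (constantCoeff : MvPolynomial (Fin (m + 2)) K →+* K)
    rw [hg0c] at h2
    exact not_isUnit_zero h2
  have hg0 : g ≠ 0 := by
    rintro rfl
    have h1 : IsUnit f := hfg dvd_rfl (dvd_zero f)
    have h2 := h1.map (constantCoeff : MvPolynomial (Fin (m + 2)) K →+* K)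
    rw [hf0c] at h2
    exact not_isUnit_zero h2
  have hfI : f ∈ IU A := by rw [hI]; exact Ideal.subset_span (by simp)
  have hgI : g ∈ IU A := by rw [hI]; exact Ideal.subset_span (by simp)
  obtain ⟨hle1, η₁, hη₁, hπ1⟩ := h.pi_surj_hom hl hfI hf hf0
  obtain ⟨hle2, η₂, hη₂, hπ2⟩ := h.pi_surj_hom hl hgI hg hg0
  rw [show m + 2 - 1 = m + 1 from rfl, ← hq] at hle1 hle2 hη₁ hη₂
  have hd1 : i + q ^ (m + 1) - B.card = q ^ m - j := by omega
  have hd2 : j + q ^ (m + 1) - B.card = q ^ m - i := by omega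
  rw [hd1] at hη₁
  rw [hd2] at hη₂
  have hjle : j ≤ q ^ m := by omega
  have hile : i ≤ q ^ m := by omega
  -- the relation
  set ζ : LD A := g • η₁ - f • η₂ with hζ
  have hπζ : h.pi hl ζ = 0 := by
    rw [hζ, map_sub, map_smul, map_smul, hπ1, hπ2, smul_eq_mul, smul_eq_mul, mul_comm, sub_self]
  have hζhom : HomF (q ^ m) (ζ : Fin (m + 2) → MvPolynomial (Fin (m + 2)) K) := by
    have h1 : HomF (j + (q ^ m - j)) (g • (η₁ : Fin (m + 2) → MvPolynomial (Fin (m + 2)) K)) :=
      HomF.smul hg hη₁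
    have h2 : HomF (i + (q ^ m - i)) (f • (η₂ : Fin (m + 2) → MvPolynomial (Fin (m + 2)) K)) :=
      HomF.smul hf hη₂
    rw [Nat.add_sub_cancel' hjle] at h1
    rw [Nat.add_sub_cancel' hile] at h2
    exact h1.sub h2
  obtain ⟨s₀, hs₀⟩ := h.pi_ker hl ζ hπζ
  rw [show m + 2 - 1 = m + 1 from rfl] at hs₀
  -- graded coefficients
  set s : ℕ → MvPolynomial (Fin (m + 2)) K :=
    fun j => homogeneousComponent (q ^ m - q ^ j) (s₀ j) with hs
  have hsζ : (ζ : Fin (m + 2) → MvPolynomial (Fin (m + 2)) K) =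
      ∑ j ∈ Finset.range (m + 1), s j • th K (m + 2) j := by
    have h1 := congrArg (hcv (q ^ m)) hs₀
    rw [hcv_of_homF hζhom, hcv_sum] at h1
    rw [h1]
    refine Finset.sum_congr rfl fun j hj => ?_
    have hjm : q ^ j ≤ q ^ m := Nat.pow_le_pow_right Fintype.card_pos (by
      have := Finset.mem_range.1 hj; omega)
    funext k
    rw [hcv, Pi.smul_apply, smul_eq_mul, mul_comm, hc_mul (th_homF j k), if_pos hjm]
    rw [Pi.smul_apply, smul_eq_mul, mul_comm]
  obtain ⟨c, hc⟩ : ∃ c : K, s m = C c := by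
    refine ⟨coeff 0 (s₀ m), ?_⟩
    rw [hs]
    simp only [Nat.sub_self, homogeneousComponent_zero]
  have hc0 : c ≠ 0 := by
    rintro rfl
    rw [C_0] at hc
    have hsζ' : (ζ : Fin (m + 2) → MvPolynomial (Fin (m + 2)) K) =
        ∑ j ∈ Finset.range m, s j • th K (m + 2) j := by
      rw [hsζ, Finset.sum_range_succ, hc, zero_smul, add_zero]
    have hsI : ∀ j < m, s j ∈ IU A := by
      intro j hj
      rw [mem_IU]
      intro W hW hu
      apply coeffs_mem_IW hW s _ j hj
      intro w
      have h1 : ∑ j ∈ Finset.range (m + 2 - 2), s j * lf w ^ (Fintype.card K ^ j) =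
          pr (ζ : Fin (m + 2) → MvPolynomial (Fin (m + 2)) K) w := by
        rw [hsζ', pr_sum, Nat.add_sub_cancel]
        exact Finset.sum_congr rfl fun j _ => by rw [pr_smul, pr_th]
      rw [h1, hζ]
      have h2 : ((g • η₁ - f • η₂ : LD A) : Fin (m + 2) → MvPolynomial (Fin (m + 2)) K) =
          g • (η₁ : Fin (m + 2) → MvPolynomial (Fin (m + 2)) K) - f • (η₂ : Fin (m + 2) → MvPolynomial (Fin (m + 2)) K) := rfl
      rw [h2, pr_sub, pr_smul, pr_smul]
      exact Ideal.sub_mem _ (Ideal.mul_mem_right _ _ (mem_IU.1 hgI W hW hu))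
        (Ideal.mul_mem_right _ _ (mem_IU.1 hfI W hW hu))
    rw [hI] at hsI
    have hex : ∀ j, ∃ αβ : MvPolynomial (Fin (m + 2)) K × MvPolynomial (Fin (m + 2)) K,
        j < m → s j = αβ.1 * f + αβ.2 * g := by
      intro j
      by_cases hj : j < m
      · obtain ⟨x, y, hxy⟩ := Ideal.mem_span_pair.1 (hsI j hj)
        exact ⟨(x, y), fun _ => hxy.symm⟩
      · exact ⟨(0, 0), fun h => absurd h hj⟩
    choose αβ hαβ using hex
    -- g (η₁ - Σ β θ) = f (η₂ + Σ α θ)
    set x : LD A := η₁ - ∑ j ∈ Finset.range m, (αβ j).2 • ⟨th K (m + 2) j, th_mem j⟩ with hx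
    set y : LD A := η₂ + ∑ j ∈ Finset.range m, (αβ j).1 • ⟨th K (m + 2) j, th_mem j⟩ with hy
    have hζs : ζ = ∑ j ∈ Finset.range m, s j • (⟨th K (m + 2) j, th_mem j⟩ : LD A) := by
      apply Subtype.ext
      rw [hsζ']
      simp only [AddSubmonoidClass.coe_finsetSum, SetLike.val_smul]
    have hxy : g • x = f • y := by
      have h1 : g • η₁ - f • η₂ = ∑ j ∈ Finset.range m,
          s j • (⟨th K (m + 2) j, th_mem j⟩ : LD A) := by rw [← hζs]
      have h2 : ∑ j ∈ Finset.range m, s j • (⟨th K (m + 2) j, th_mem j⟩ : LD A) =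
          f • ∑ j ∈ Finset.range m, (αβ j).1 • (⟨th K (m + 2) j, th_mem j⟩ : LD A) +
          g • ∑ j ∈ Finset.range m, (αβ j).2 • (⟨th K (m + 2) j, th_mem j⟩ : LD A) := by
        rw [Finset.smul_sum, Finset.smul_sum, ← Finset.sum_add_distrib]
        refine Finset.sum_congr rfl fun j hj => ?_
        rw [hαβ j (Finset.mem_range.1 hj), add_smul, mul_comm _ f, mul_comm _ g, mul_smul,
          mul_smul]
      rw [h2] at h1
      rw [hx, hy, smul_sub, smul_add]
      have h3 := sub_eq_iff_eq_add.1 h1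
      rw [h3]
      abel
    have hxyk : ∀ k, g * (x : Fin (m + 2) → MvPolynomial (Fin (m + 2)) K) k =
        f * (y : Fin (m + 2) → MvPolynomial (Fin (m + 2)) K) k := fun k =>
      congrFun (congrArg Subtype.val hxy) k
    have hdv : ∀ k, f ∣ (x : Fin (m + 2) → MvPolynomial (Fin (m + 2)) K) k := by
      intro k
      apply hfg.dvd_of_dvd_mul_left
      rw [hxyk k]
      exact dvd_mul_right _ _
    choose z hz using hdv
    have hyz : ∀ k, (y : Fin (m + 2) → MvPolynomial (Fin (m + 2)) K) k = g * z k := by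
      intro k
      apply mul_left_cancel₀ hf0
      rw [← hxyk k, hz k]
      ring
    have hxz : (x : Fin (m + 2) → MvPolynomial (Fin (m + 2)) K) = f • z := by
      funext k
      rw [hz k]
      rfl
    have hyz' : (y : Fin (m + 2) → MvPolynomial (Fin (m + 2)) K) = g • z := by
      funext k
      rw [hyz k]
      rfl
    have hzm : z ∈ LD A := by
      intro i
      have h1 := x.2 i
      have h2 := y.2 i
      rw [hxz, pr_smul] at h1
      rw [hyz', pr_smul] at h2
      have hp := prime_lf (h.ne i)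
      rcases hp.dvd_or_dvd h1 with h3 | h3
      · rcases hp.dvd_or_dvd h2 with h4 | h4
        · exact absurd (hfg h3 h4) hp.not_isUnit
        · exact h4
      · exact h3
    have hπx : h.pi hl x = f := by
      rw [hx, map_sub, hπ1, map_sum, Finset.sum_eq_zero, sub_zero]
      intro j hj
      rw [map_smul, h.pi_th hl j (by have := Finset.mem_range.1 hj; omega), smul_zero]
    have hπx' : h.pi hl x = f * h.pi hl ⟨z, hzm⟩ := by
      have h1 : x = f • (⟨z, hzm⟩ : LD A) := Subtype.ext hxz
      rw [h1, map_smul, smul_eq_mul]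
    have h1 : h.pi hl ⟨z, hzm⟩ = 1 := by
      apply mul_left_cancel₀ hf0
      rw [← hπx', hπx, mul_one]
    have h2 := h.pi_mem hl ⟨z, hzm⟩
    rw [h1, hI] at h2
    obtain ⟨u, v, huv⟩ := Ideal.mem_span_pair.1 h2
    have h3 := congrArg constantCoeff huv
    rw [map_add, map_mul, map_mul, hf0c, hg0c, mul_zero, mul_zero, add_zero, map_one] at h3
    exact zero_ne_one h3
  -- membership
  have hm : ∀ k, fam K m η₁ η₂ k ∈ LD A := by
    intro k
    unfold fam
    split_ifs
    · exact th_mem _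
    · exact η₁.2
    · exact η₂.2
  have hζval : g • (η₁ : Fin (m + 2) → MvPolynomial (Fin (m + 2)) K) -
      f • (η₂ : Fin (m + 2) → MvPolynomial (Fin (m + 2)) K) =
      ∑ j ∈ Finset.range m, s j • th K (m + 2) j +
        (C c : MvPolynomial (Fin (m + 2)) K) • th K (m + 2) m := by
    have h1 : (ζ : Fin (m + 2) → MvPolynomial (Fin (m + 2)) K) =
      g • (η₁ : Fin (m + 2) → MvPolynomial (Fin (m + 2)) K) -
      f • (η₂ : Fin (m + 2) → MvPolynomial (Fin (m + 2)) K) := rfl
    rw [← h1, hsζ, Finset.sum_range_succ, hc]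
  have hli : LinearIndependent (MvPolynomial (Fin (m + 2)) K)
      (fun k => (⟨fam K m η₁ η₂ k, hm k⟩ : LD A)) := by
    rw [Fintype.linearIndependent_iff]
    intro u hu
    have hu' : ∑ k, u k • fam K m η₁ η₂ k = 0 := by
      have := congrArg Subtype.val hu
      simpa using this
    have hu2 : ∑ j ∈ Finset.range m, (if hj : j < m + 2 then u ⟨j, hj⟩ else 0) •
        (⟨th K (m + 2) j, th_mem j⟩ : LD A) + u ⟨m, by omega⟩ • η₁ + u ⟨m + 1, by omega⟩ • η₂ =
          0 := by
      apply Subtype.ext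
      rw [fam_sum] at hu'
      simp only [Submodule.coe_add, AddSubmonoidClass.coe_finsetSum, SetLike.val_smul,
        ZeroMemClass.coe_zero]
      exact hu'
    have h1 := congrArg (h.pi hl) hu2
    rw [map_add, map_add, map_sum, map_smul, map_smul, hπ1, hπ2, map_zero, Finset.sum_eq_zero,
      zero_add, smul_eq_mul, smul_eq_mul] at h1
    swap
    · intro j hj
      rw [map_smul, h.pi_th hl j (by have := Finset.mem_range.1 hj; omega), smul_zero]
    -- u_m f + u_{m+1} g = 0
    have h2 : f ∣ u ⟨m + 1, by omega⟩ * g := by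
      have : u ⟨m + 1, by omega⟩ * g = f * (- u ⟨m, by omega⟩) := by linear_combination h1
      rw [this]
      exact dvd_mul_right _ _
    obtain ⟨t, ht⟩ := hfg.dvd_of_dvd_mul_right h2
    have h3 : u ⟨m, by omega⟩ = - (g * t) := by
      apply mul_right_cancel₀ hf0
      rw [ht] at h1
      linear_combination h1
    -- substitute
    rw [fam_sum, ht, h3] at hu'
    have h4 : ∑ j ∈ Finset.range (m + 2), (if j < m then
        (if hj : j < m + 2 then u ⟨j, hj⟩ else 0) - t * s j else
        if j = m then - (t * C c) else 0) • th K (m + 2) j = 0 := by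
      rw [Finset.sum_range_succ, Finset.sum_range_succ, if_neg (show ¬ m + 1 < m by omega),
        if_neg (show ¬ m + 1 = m by omega), if_neg (lt_irrefl m), if_pos rfl, zero_smul, add_zero]
      have h5 : ∑ j ∈ Finset.range m, (if j < m then
          (if hj : j < m + 2 then u ⟨j, hj⟩ else 0) - t * s j else
          if j = m then - (t * C c) else 0) • th K (m + 2) j =
          ∑ j ∈ Finset.range m, (if hj : j < m + 2 then u ⟨j, hj⟩ else 0) • th K (m + 2) j -
            t • ∑ j ∈ Finset.range m, s j • th K (m + 2) j := by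
        rw [Finset.smul_sum, ← Finset.sum_sub_distrib]
        refine Finset.sum_congr rfl fun j hj => ?_
        rw [if_pos (Finset.mem_range.1 hj), sub_smul, mul_smul]
      rw [h5]
      have h6 : ∑ j ∈ Finset.range m, (if hj : j < m + 2 then u ⟨j, hj⟩ else 0) • th K (m + 2) j =
          t • (g • (η₁ : Fin (m + 2) → MvPolynomial (Fin (m + 2)) K) -
            f • (η₂ : Fin (m + 2) → MvPolynomial (Fin (m + 2)) K)) := by
        rw [smul_sub, smul_smul, smul_smul, mul_comm t g, mul_comm t f]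
        have h7 := eq_neg_of_add_eq_zero_left hu'
        rw [neg_smul] at hu'
        have h8 : ∀ (x y z : Fin (m + 2) → MvPolynomial (Fin (m + 2)) K), x + -y + z = 0 →
            x = y - z := by
          intro x y z hxyz
          have h9 : x = (x + -y + z) + y - z := by abel
          rw [h9, hxyz]
          abel
        exact h8 _ _ _ hu'
      rw [h6, hζval, smul_add, neg_smul, smul_smul]
      abel
    have h5 := th_indep h4
    have ht0 : t = 0 := by
      have h6 := h5 m (by omega)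
      rw [if_neg (lt_irrefl m), if_pos rfl, neg_eq_zero, mul_eq_zero] at h6
      rcases h6 with h6 | h6
      · exact h6
      · exact absurd h6 (fun h7 => hc0 (C_injective _ _ (h7.trans C_0.symm)))
    intro k
    rcases lt_trichotomy k.val m with hk | hk | hk
    · have h6 := h5 k.val (by omega)
      rw [if_pos hk, dif_pos k.isLt, ht0, zero_mul, sub_zero] at h6
      exact h6
    · have : k = ⟨m, by omega⟩ := Fin.ext hk
      rw [this, h3, ht0, mul_zero, neg_zero]
    · have : k = ⟨m + 1, by omega⟩ := Fin.ext (by have := k.isLt; simp only; omega)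
      rw [this, ht, ht0, mul_zero]
  have hth : (th K (m + 2) m : Fin (m + 2) → MvPolynomial (Fin (m + 2)) K) =
      (C c⁻¹ * g) • (η₁ : Fin (m + 2) → MvPolynomial (Fin (m + 2)) K) -
      (C c⁻¹ * f) • (η₂ : Fin (m + 2) → MvPolynomial (Fin (m + 2)) K) -
      ∑ j ∈ Finset.range m, (C c⁻¹ * s j) • th K (m + 2) j := by
    have h1 : (C c⁻¹ : MvPolynomial (Fin (m + 2)) K) •
        ((C c : MvPolynomial (Fin (m + 2)) K) • th K (m + 2) m) =
        (th K (m + 2) m : Fin (m + 2) → MvPolynomial (Fin (m + 2)) K) := by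
      rw [smul_smul, ← C_mul, inv_mul_cancel₀ hc0, C_1, one_smul]
    have h2 := eq_sub_of_add_eq' hζval.symm
    rw [h2, smul_sub, smul_sub, smul_smul, smul_smul, Finset.smul_sum] at h1
    rw [← h1]
    simp only [smul_smul]
  have hsp : ⊤ ≤ Submodule.span (MvPolynomial (Fin (m + 2)) K)
      (Set.range (fun k => (⟨fam K m η₁ η₂ k, hm k⟩ : LD A))) := by
    rintro z -
    have h1 := h.pi_mem hl z
    rw [hI] at h1
    obtain ⟨u, v, huv⟩ := Ideal.mem_span_pair.1 h1
    have h2 : h.pi hl (z - u • η₁ - v • η₂) = 0 := by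
      rw [map_sub, map_sub, map_smul, map_smul, hπ1, hπ2, ← huv, smul_eq_mul, smul_eq_mul]
      ring
    obtain ⟨r, hr⟩ := h.pi_ker hl _ h2
    rw [show m + 2 - 1 = m + 1 from rfl, Finset.sum_range_succ] at hr
    have hmem1 : ∀ j < m, (⟨th K (m + 2) j, th_mem j⟩ : LD A) ∈
        Submodule.span (MvPolynomial (Fin (m + 2)) K)
          (Set.range (fun k => (⟨fam K m η₁ η₂ k, hm k⟩ : LD A))) := by
      intro j hj
      apply Submodule.subset_span
      refine ⟨⟨j, by omega⟩, ?_⟩
      apply Subtype.ext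
      simp only [fam, if_pos hj]
    have hmemη1 : η₁ ∈ Submodule.span (MvPolynomial (Fin (m + 2)) K)
          (Set.range (fun k => (⟨fam K m η₁ η₂ k, hm k⟩ : LD A))) := by
      apply Submodule.subset_span
      refine ⟨⟨m, by omega⟩, ?_⟩
      apply Subtype.ext
      simp [fam]
    have hmemη2 : η₂ ∈ Submodule.span (MvPolynomial (Fin (m + 2)) K)
          (Set.range (fun k => (⟨fam K m η₁ η₂ k, hm k⟩ : LD A))) := by
      apply Submodule.subset_span
      refine ⟨⟨m + 1, by omega⟩, ?_⟩
      apply Subtype.ext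
      simp [fam]
    have hmemm : (⟨th K (m + 2) m, th_mem m⟩ : LD A) ∈
        Submodule.span (MvPolynomial (Fin (m + 2)) K)
          (Set.range (fun k => (⟨fam K m η₁ η₂ k, hm k⟩ : LD A))) := by
      have h3 : (⟨th K (m + 2) m, th_mem m⟩ : LD A) =
          (C c⁻¹ * g) • η₁ - (C c⁻¹ * f) • η₂ -
          ∑ j ∈ Finset.range m, (C c⁻¹ * s j) • (⟨th K (m + 2) j, th_mem j⟩ : LD A) := by
        apply Subtype.ext
        simp only [AddSubgroupClass.coe_sub, AddSubmonoidClass.coe_finsetSum, SetLike.val_smul]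
        exact hth
      rw [h3]
      refine Submodule.sub_mem _ (Submodule.sub_mem _ (Submodule.smul_mem _ _ hmemη1)
        (Submodule.smul_mem _ _ hmemη2)) (Submodule.sum_mem _ fun j hj =>
          Submodule.smul_mem _ _ (hmem1 j (Finset.mem_range.1 hj)))
    have h4 : z = (∑ j ∈ Finset.range m, r j • (⟨th K (m + 2) j, th_mem j⟩ : LD A) +
        r m • (⟨th K (m + 2) m, th_mem m⟩ : LD A)) + u • η₁ + v • η₂ := by
      apply Subtype.ext
      simp only [Submodule.coe_add, AddSubmonoidClass.coe_finsetSum, SetLike.val_smul]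
      rw [← hr]
      simp only [AddSubgroupClass.coe_sub, SetLike.val_smul]
      abel
    rw [h4]
    exact Submodule.add_mem _ (Submodule.add_mem _ (Submodule.add_mem _
      (Submodule.sum_mem _ fun j hj => Submodule.smul_mem _ _ (hmem1 j (Finset.mem_range.1 hj)))
      (Submodule.smul_mem _ _ hmemm)) (Submodule.smul_mem _ _ hmemη1))
      (Submodule.smul_mem _ _ hmemη2)
  refine ⟨hile, hjle, Module.Basis.mk hli hsp, fun k hk => ?_, fun k hk => ?_, fun k hk => ?_⟩
  · rw [Module.Basis.mk_apply]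
    simp only [fam, if_pos hk]
  · rw [Module.Basis.mk_apply]
    simp only [fam, hk, lt_irrefl, if_false, if_true]
    exact hη₁
  · rw [Module.Basis.mk_apply]
    have h1 : ¬ k.val < m := by omega
    have h2 : ¬ k.val = m := by omega
    simp only [fam, if_neg h1, if_neg h2]
    exact hη₂

end

end Pool.Agent.H160.TF
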