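import Mathlib
import Pool.Agent.H160.TF.CIa

set_option autoImplicit false

/-! # The complete intersection criterion: necessity -/

namespace Pool.Agent.H160.TF

open MvPolynomial

section

variable {K : Type*} [Field K] {l : ℕ} {ι : Type*} {A : ι → Fin l → K}

/-- decomposition into homogeneous components -/
theorem sum_hcv (η : Fin l → (MvPolynomial (Fin l) K)) : ∃ D : ℕ, η = ∑ d ∈ Finset.range D, hcv d η := by
  classical
  refine ⟨(Finset.univ.sup fun j => (η j).totalDegree) + 1, ?_⟩
  funext j
  rw [Finset.sum_apply]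
  have h1 : (η j).totalDegree ≤ Finset.univ.sup fun j => (η j).totalDegree :=
    Finset.le_sup (f := fun j => (η j).totalDegree) (Finset.mem_univ j)
  have h2 : ∑ d ∈ Finset.range ((Finset.univ.sup fun j => (η j).totalDegree) + 1),
      homogeneousComponent d (η j) =
      ∑ d ∈ Finset.range ((η j).totalDegree + 1), homogeneousComponent d (η j) := by
    symm
    apply Finset.sum_subset
    · intro d hd
      rw [Finset.mem_range] at hd ⊢
      omega
    · intro d _ hd
      rw [Finset.mem_range] at hd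
      exact homogeneousComponent_eq_zero _ _ (by omega)
  simp only [hcv]
  rw [h2, sum_homogeneousComponent]

theorem sum_hcv' (η : LD A) : ∃ D : ℕ, η = ∑ d ∈ Finset.range D,
    (⟨hcv d η, hcv_mem η.2 d⟩ : LD A) := by
  obtain ⟨D, hD⟩ := sum_hcv (η : Fin l → (MvPolynomial (Fin l) K))
  refine ⟨D, Subtype.ext ?_⟩
  rw [AddSubmonoidClass.coe_finsetSum]
  exact hD

/-- the constant terms of the coordinates of an element of a free module -/
noncomputable def row (e : Module.Basis (Fin l) (MvPolynomial (Fin l) K) (LD A)) : LD A →ₗ[K] (Fin l → K) where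
  toFun z := fun i => constantCoeff (e.repr z i)
  map_add' z w := by
    funext i
    simp
  map_smul' c z := by
    funext i
    rw [← algebraMap_smul (MvPolynomial (Fin l) K) c z, map_smul]
    simp [MvPolynomial.algebraMap_eq]

theorem row_apply (e : Module.Basis (Fin l) (MvPolynomial (Fin l) K) (LD A)) (z : LD A) (i : Fin l) :
    row e z i = constantCoeff (e.repr z i) := rfl

/-- the rows of the homogeneous elements span -/
theorem rows_span (e : Module.Basis (Fin l) (MvPolynomial (Fin l) K) (LD A)) (V : Submodule K (Fin l → K))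
    (hV : ∀ (d : ℕ) (z : LD A), HomF d (z : Fin l → (MvPolynomial (Fin l) K)) → row e z ∈ V) : V = ⊤ := by
  classical
  have h1 : ∀ i : Fin l, Pi.single i (1 : K) ∈ V := by
    intro i
    obtain ⟨D, hD⟩ := sum_hcv' (e i)
    have h2 : row e (e i) = Pi.single i 1 := by
      funext j
      rw [row_apply, Module.Basis.repr_self]
      by_cases h : j = i
      · subst h
        simp
      · rw [Finsupp.single_eq_of_ne h, map_zero, Pi.single_eq_of_ne h]
    rw [← h2, hD, map_sum]
    exact Submodule.sum_mem _ fun d _ => hV d _ (fun _ => homogeneousComponent_isHomogeneous _ _)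
  rw [eq_top_iff]
  intro v _
  have h2 : v = ∑ i, v i • Pi.single i (1 : K) := by
    funext j
    rw [Finset.sum_apply, Finset.sum_eq_single j]
    · simp
    · intro k _ hk
      simp [Pi.single_eq_of_ne hk.symm]
    · intro h
      exact absurd (Finset.mem_univ j) h
  rw [h2]
  exact Submodule.sum_mem _ fun i _ => Submodule.smul_mem _ _ (h1 i)

/-- **graded Nakayama lemma** -/
theorem span_of_rows (e : Module.Basis (Fin l) (MvPolynomial (Fin l) K) (LD A)) (w : Fin l → LD A) (dg : Fin l → ℕ)
    (hw : ∀ k, HomF (dg k) (w k : Fin l → (MvPolynomial (Fin l) K)))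
    (hrow : LinearIndependent K (fun k => row e (w k))) (z : LD A) :
    z ∈ Submodule.span (MvPolynomial (Fin l) K) (Set.range w) := by
  classical
  let M : Matrix (Fin l) (Fin l) (MvPolynomial (Fin l) K) := fun k i => e.repr (w k) i
  have hdet : constantCoeff M.det ≠ 0 := by
    have h3 : IsUnit (M.map constantCoeff) := by
      rw [← Matrix.linearIndependent_rows_iff_isUnit]
      exact hrow
    have h4 := (Matrix.isUnit_iff_isUnit_det _).1 h3
    rw [RingHom.map_det]
    exact h4.ne_zero
  set r := M.det with hr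
  have hwe : ∀ k, w k = ∑ i, M k i • e i := fun k => (e.sum_repr (w k)).symm
  have key : ∀ z : LD A, ∃ y : Fin l → (MvPolynomial (Fin l) K), r • z = ∑ k, y k • w k := by
    intro z
    set y : Fin l → (MvPolynomial (Fin l) K) := fun i => e.repr z i with hy
    have hz : z = ∑ i, y i • e i := (e.sum_repr z).symm
    refine ⟨Matrix.vecMul y M.adjugate, ?_⟩
    have h2 : ∑ k, (Matrix.vecMul y M.adjugate) k • w k =
        ∑ i, (Matrix.vecMul (Matrix.vecMul y M.adjugate) M) i • e i := by
      conv_lhs => enter [2, k]; rw [hwe k]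
      simp only [Finset.smul_sum, smul_smul]
      rw [Finset.sum_comm]
      refine Finset.sum_congr rfl fun i _ => ?_
      rw [← Finset.sum_smul]
      rfl
    rw [h2, Matrix.vecMul_vecMul, Matrix.adjugate_mul, Matrix.vecMul_smul, Matrix.vecMul_one]
    conv_lhs => rw [hz]
    rw [Finset.smul_sum]
    exact Finset.sum_congr rfl fun i _ => by rw [smul_smul, Pi.smul_apply, smul_eq_mul]
  -- homogeneous elements
  have hhom : ∀ (d : ℕ) (z : LD A), HomF d (z : Fin l → (MvPolynomial (Fin l) K)) →
      z ∈ Submodule.span (MvPolynomial (Fin l) K) (Set.range w) := by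
    intro d z hz
    obtain ⟨y, hy⟩ := key z
    have h1 := congrArg (fun x : LD A => hcv d (x : Fin l → (MvPolynomial (Fin l) K))) hy
    simp only [AddSubmonoidClass.coe_finsetSum, SetLike.val_smul] at h1
    rw [hcv_sum] at h1
    have h2 : hcv d (r • (z : Fin l → (MvPolynomial (Fin l) K))) = (C (constantCoeff r) : (MvPolynomial (Fin l) K)) • (z : Fin l → (MvPolynomial (Fin l) K)) := by
      funext j
      rw [hcv, Pi.smul_apply, smul_eq_mul, mul_comm, hc_mul (hz j), if_pos le_rfl, Nat.sub_self,
        homogeneousComponent_zero, Pi.smul_apply, smul_eq_mul, mul_comm, constantCoeff_eq]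
    have h3 : ∀ k, hcv d (y k • (w k : Fin l → (MvPolynomial (Fin l) K))) =
        (if dg k ≤ d then homogeneousComponent (d - dg k) (y k) else 0) • (w k : Fin l → (MvPolynomial (Fin l) K)) := by
      intro k
      funext j
      rw [hcv, Pi.smul_apply, smul_eq_mul, mul_comm, hc_mul (hw k j), Pi.smul_apply, smul_eq_mul]
      split_ifs
      · rw [mul_comm]
      · rw [zero_mul]
    rw [h2, Finset.sum_congr rfl fun k _ => h3 k] at h1
    have h4 : z = ∑ k, (C (constantCoeff r)⁻¹ *
        (if dg k ≤ d then homogeneousComponent (d - dg k) (y k) else 0)) • w k := by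
      apply Subtype.ext
      simp only [AddSubmonoidClass.coe_finsetSum, SetLike.val_smul]
      simp only [mul_smul]
      rw [← Finset.smul_sum, ← h1, smul_smul, ← C_mul, inv_mul_cancel₀ hdet, C_1, one_smul]
    rw [h4]
    exact Submodule.sum_mem _ fun k _ => Submodule.smul_mem _ _ (Submodule.subset_span ⟨k, rfl⟩)
  obtain ⟨D, hD⟩ := sum_hcv' z
  rw [hD]
  exact Submodule.sum_mem _ fun d _ => hhom d _ (fun _ => homogeneousComponent_isHomogeneous _ _)

/-- extension of an independent family of rows by a homogeneous element -/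
theorem exists_hom_notMem (e : Module.Basis (Fin l) (MvPolynomial (Fin l) K) (LD A)) {k : ℕ} (hk : k < l)
    (v : Fin k → Fin l → K) :
    ∃ (d : ℕ) (z : LD A), HomF d (z : Fin l → (MvPolynomial (Fin l) K)) ∧
      row e z ∉ Submodule.span K (Set.range v) := by
  by_contra hcon
  push Not at hcon
  have h1 := rows_span e _ (fun d z hz => hcon d z hz)
  have h2 := finrank_range_le_card (R := K) v
  rw [Set.finrank, h1, finrank_top, Module.finrank_fin_fun, Fintype.card_fin] at h2
  omega

end

section

variable {K : Type*} [Field K] [Fintype K] {l : ℕ} {ι : Type*}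
  {A : ι → Fin l → K} {B : Finset (Fin l → K)}

/-- a basis indexed by `Fin l` -/
theorem exists_basis (hfree : Module.Free (MvPolynomial (Fin l) K) (LD A)) :
    Nonempty (Module.Basis (Fin l) (MvPolynomial (Fin l) K) (LD A)) := by
  have hfin : Module.Finite (MvPolynomial (Fin l) K) (LD A) := inferInstance
  have hrank : Module.finrank (MvPolynomial (Fin l) K) (LD A) = l := by
    apply le_antisymm
    · have h1 := Submodule.finrank_le (LD A)
      rwa [Module.finrank_fin_fun] at h1
    · have h1 : LinearIndependent (MvPolynomial (Fin l) K) (fun k : Fin l => (⟨th K l k, th_mem k⟩ : LD A)) := by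
        rw [Fintype.linearIndependent_iff]
        intro g hg k
        have h2 : ∑ j ∈ Finset.range l, (if hj : j < l then g ⟨j, hj⟩ else 0) • th K l j = 0 := by
          rw [← Fin.sum_univ_eq_sum_range
            (fun j => (if hj : j < l then g ⟨j, hj⟩ else 0) • th K l j) l]
          have h3 := congrArg Subtype.val hg
          simp only [AddSubmonoidClass.coe_finsetSum, SetLike.val_smul,
            ZeroMemClass.coe_zero] at h3
          rw [← h3]
          exact Finset.sum_congr rfl fun k _ => by rw [dif_pos k.isLt]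
        have h4 := th_indep h2 k.val k.isLt
        rwa [dif_pos k.isLt] at h4
      have h5 := h1.fintype_card_le_finrank
      rwa [Fintype.card_fin] at h5
  exact ⟨Module.finBasisOfFinrankEq (MvPolynomial (Fin l) K) (LD A) hrank⟩

/-- independence of the rows of the Frobenius fields of small degree -/
theorem Comp.rows_indep (h : Comp A B) (hl : 0 < l) (e : Module.Basis (Fin l) (MvPolynomial (Fin l) K) (LD A)) {k : ℕ}
    (hk : k ≤ l - 1) (hB : ∀ j < k, B.card + Fintype.card K ^ j ≤ Fintype.card K ^ (l - 1) + 1)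
    (hI : ∀ g ∈ IU A, constantCoeff g = 0) :
    LinearIndependent K (fun j : Fin k => row e ⟨th K l j, th_mem j⟩) := by
  classical
  rw [Fintype.linearIndependent_iff]
  intro g hg k₀
  set y : Fin l → (MvPolynomial (Fin l) K) := fun i => ∑ j : Fin k, C (g j) * e.repr ⟨th K l j, th_mem j⟩ i with hy
  have hzero : ∀ i, constantCoeff (y i) = 0 := by
    intro i
    have h1 := congrFun hg i
    rw [Finset.sum_apply] at h1
    simp only [Pi.smul_apply, smul_eq_mul, Pi.zero_apply, row_apply] at h1
    rw [hy, map_sum, ← h1]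
    exact Finset.sum_congr rfl fun j _ => by rw [map_mul, constantCoeff_C]
  have hexp : (∑ j : Fin k, (C (g j) : (MvPolynomial (Fin l) K)) • th K l j) =
      ∑ i, y i • (e i : Fin l → (MvPolynomial (Fin l) K)) := by
    have h1 : ∀ j : Fin k, th K l j = ∑ i, e.repr ⟨th K l j, th_mem j⟩ i • (e i : Fin l → (MvPolynomial (Fin l) K)) := by
      intro j
      have h2 := congrArg Subtype.val (e.sum_repr ⟨th K l j, th_mem j⟩)
      simp only [AddSubmonoidClass.coe_finsetSum, SetLike.val_smul] at h2
      exact h2.symm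
    simp only [hy, Finset.sum_smul]
    rw [Finset.sum_comm]
    refine Finset.sum_congr rfl fun j _ => ?_
    conv_lhs => rw [h1 j]
    rw [Finset.smul_sum]
    exact Finset.sum_congr rfl fun i _ => by rw [smul_smul]
  have h3 : InMN (hcv (Fintype.card K ^ (k₀ : ℕ)) (∑ i, y i • (e i : Fin l → (MvPolynomial (Fin l) K)))) := by
    rw [hcv_sum]
    apply InMN.sum
    intro i _
    exact h.hcv_mN hl hI (hB k₀ k₀.isLt) (hzero i) (e i).2
  rw [← hexp, hcv_sum] at h3
  have h4 : ∑ j : Fin k, hcv (Fintype.card K ^ (k₀ : ℕ)) ((C (g j) : (MvPolynomial (Fin l) K)) • th K l j) =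
      (C (g k₀) : (MvPolynomial (Fin l) K)) • th K l k₀ := by
    rw [Finset.sum_eq_single k₀]
    · rw [hcv_smul (isHomogeneous_C _ _) _ (Nat.zero_le _), Nat.sub_zero,
        hcv_of_homF (th_homF (k₀ : ℕ))]
    · intro j _ hj
      rw [hcv_smul (isHomogeneous_C _ _) _ (Nat.zero_le _), Nat.sub_zero,
        hcv_of_homF_ne (th_homF (j : ℕ)), smul_zero]
      intro hqq
      exact hj (Fin.ext (q_pow_inj hqq).symm)
    · intro hh
      exact absurd (Finset.mem_univ _) hh
  rw [h4] at h3
  obtain ⟨s, hs, hse⟩ := h3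
  have h5 : ∑ j ∈ Finset.range l, ((if j < l - 1 then s j else 0) -
      (if j = (k₀ : ℕ) then C (g k₀) else 0)) • th K l j = 0 := by
    simp only [sub_smul, Finset.sum_sub_distrib]
    have h6 : ∑ j ∈ Finset.range l, (if j < l - 1 then s j else 0) • th K l j =
        ∑ j ∈ Finset.range (l - 1), s j • th K l j := by
      rw [range_pred hl, Finset.sum_range_succ, if_neg (lt_irrefl _), zero_smul, add_zero]
      exact Finset.sum_congr rfl fun j hj => by rw [if_pos (Finset.mem_range.1 hj)]
    have h7 : ∑ j ∈ Finset.range l, (if j = (k₀ : ℕ) then (C (g k₀) : (MvPolynomial (Fin l) K)) else 0) • th K l j =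
        (C (g k₀) : (MvPolynomial (Fin l) K)) • th K l k₀ := by
      simp only [ite_smul, zero_smul]
      rw [Finset.sum_ite_eq' (Finset.range l) (k₀ : ℕ),
        if_pos (Finset.mem_range.2 (by have := k₀.isLt; omega))]
    rw [h6, h7, ← hse, sub_self]
  have hk₀ := k₀.isLt
  have h8 := th_indep h5 (k₀ : ℕ) (by omega)
  rw [if_pos (by omega), if_pos rfl, sub_eq_zero] at h8
  have h9 := hs (k₀ : ℕ)
  rwa [h8, constantCoeff_C] at h9

/-- the row of the Euler field is nonzero -/
theorem row_euler (i : ι) (hi : A i ≠ 0) (e : Module.Basis (Fin l) (MvPolynomial (Fin l) K) (LD A)) :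
    row e ⟨th K l 0, th_mem 0⟩ ≠ 0 := by
  classical
  intro h0
  set y : Fin l → (MvPolynomial (Fin l) K) := fun i => e.repr ⟨th K l 0, th_mem 0⟩ i with hy
  have hzero : ∀ i, constantCoeff (y i) = 0 := fun i => congrFun h0 i
  have h2 := congrArg Subtype.val (e.sum_repr ⟨th K l 0, th_mem 0⟩)
  simp only [AddSubmonoidClass.coe_finsetSum, SetLike.val_smul] at h2
  -- degree one part, paired with `A i`
  have h3 : ∀ k, homogeneousComponent 1 (pr (y k • (e k : Fin l → (MvPolynomial (Fin l) K))) (A i)) = 0 := by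
    intro k
    obtain ⟨c, hc⟩ := exists_sum_X (hzero k)
    rw [pr_smul, hc, Finset.sum_mul, map_sum]
    apply Finset.sum_eq_zero
    intro t _
    rw [mul_comm (c t), mul_assoc, hc_mul (isHomogeneous_X K t), if_pos le_rfl, Nat.sub_self]
    have h4 : homogeneousComponent 0 (c t * pr (e k : Fin l → (MvPolynomial (Fin l) K)) (A i)) = 0 := by
      rw [homogeneousComponent_zero]
      have h5 : lf (A i) ∣ pr (e k : Fin l → (MvPolynomial (Fin l) K)) (A i) := (e k).2 i
      obtain ⟨u, hu⟩ := h5
      have h6 : constantCoeff (c t * pr (e k : Fin l → (MvPolynomial (Fin l) K)) (A i)) = 0 := by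
        rw [hu, map_mul, map_mul]
        have : constantCoeff (lf (A i) : (MvPolynomial (Fin l) K)) = 0 := by
          rw [lf, map_sum]
          refine Finset.sum_eq_zero fun i _ => ?_
          simp
        rw [this, zero_mul, mul_zero]
      rw [constantCoeff_eq] at h6
      rw [h6, C_0]
    rw [h4, mul_zero]
  have h4 := congrArg (fun v => homogeneousComponent 1 (pr v (A i))) h2
  simp only [pr_sum, map_sum] at h4
  rw [Finset.sum_eq_zero fun k _ => h3 k, pr_th, pow_zero, pow_one,
    hc_of_hom (lf_homogeneous (A i)), if_pos rfl] at h4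
  exact lf_ne_zero hi h4.symm

end

section

variable {K : Type*} [Field K] [Fintype K] {m : ℕ} {ι : Type*}
  {A : ι → Fin (m + 2) → K} {B : Finset (Fin (m + 2) → K)}

/-- **Necessity.** -/
theorem Comp.ci_of_free (h : Comp A B) (e : Module.Basis (Fin (m + 2))
      (MvPolynomial (Fin (m + 2)) K) (LD A))
    (hrow : LinearIndependent K (fun j : Fin m => row e ⟨th K (m + 2) j, th_mem j⟩))
    (hI : ∀ g ∈ IU A, constantCoeff g = 0) :
    ∃ (i j : ℕ) (f g : MvPolynomial (Fin (m + 2)) K), 1 ≤ i ∧ 1 ≤ j ∧
      i + j + Fintype.card K ^ (m + 1) = Fintype.card K ^ m + B.card ∧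
      f.IsHomogeneous i ∧ g.IsHomogeneous j ∧ IsRelPrime f g ∧ IU A = Ideal.span {f, g} := by
  classical
  set q := Fintype.card K with hq
  have hl : 0 < m + 2 := by omega
  obtain ⟨d₁, η₁, hη₁, hr1⟩ := exists_hom_notMem e (show m < m + 2 by omega)
    (fun j : Fin m => row e ⟨th K (m + 2) j, th_mem j⟩)
  have hrow1 := linearIndependent_finSnoc.2 ⟨hrow, hr1⟩
  obtain ⟨d₂, η₂, hη₂, hr2⟩ := exists_hom_notMem e (show m + 1 < m + 2 by omega)
    (Fin.snoc (α := fun _ => Fin (m + 2) → K)
      (fun j : Fin m => row e ⟨th K (m + 2) j, th_mem j⟩) (row e η₁))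
  have hrow2 := linearIndependent_finSnoc.2 ⟨hrow1, hr2⟩
  -- the family
  set w : Fin (m + 2) → LD A := Fin.snoc (α := fun _ => LD A) (Fin.snoc (α := fun _ => LD A)
    (fun j : Fin m => (⟨th K (m + 2) j, th_mem j⟩ : LD A)) η₁) η₂ with hw
  set dg : Fin (m + 2) → ℕ := Fin.snoc (α := fun _ => ℕ) (Fin.snoc (α := fun _ => ℕ)
    (fun j : Fin m => q ^ (j : ℕ)) d₁) d₂ with hdg
  have hwdg : ∀ k, HomF (dg k) (w k : Fin (m + 2) → MvPolynomial (Fin (m + 2)) K) := by
    intro k
    refine Fin.lastCases ?_ (fun k => ?_) k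
    · rw [hw, hdg, Fin.snoc_last, Fin.snoc_last]
      exact hη₂
    · rw [hw, hdg, Fin.snoc_castSucc, Fin.snoc_castSucc]
      refine Fin.lastCases ?_ (fun k => ?_) k
      · rw [Fin.snoc_last, Fin.snoc_last]
        exact hη₁
      · rw [Fin.snoc_castSucc, Fin.snoc_castSucc]
        exact th_homF _
  have hwrow : LinearIndependent K (fun k => row e (w k)) := by
    have h1 : (fun k => row e (w k)) = Fin.snoc (α := fun _ => Fin (m + 2) → K)
        (Fin.snoc (α := fun _ => Fin (m + 2) → K)
          (fun j : Fin m => row e ⟨th K (m + 2) j, th_mem j⟩) (row e η₁)) (row e η₂) := by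
      funext k
      refine Fin.lastCases ?_ (fun k => ?_) k
      · rw [hw, Fin.snoc_last, Fin.snoc_last]
      · rw [hw, Fin.snoc_castSucc, Fin.snoc_castSucc]
        refine Fin.lastCases ?_ (fun k => ?_) k
        · rw [Fin.snoc_last, Fin.snoc_last]
        · rw [Fin.snoc_castSucc, Fin.snoc_castSucc]
    rw [h1]
    exact hrow2
  have hspan := span_of_rows e w dg hwdg hwrow
  have hrep : ∀ z : LD A, ∃ (a : Fin m → MvPolynomial (Fin (m + 2)) K)
      (u v : MvPolynomial (Fin (m + 2)) K),
      z = ∑ j : Fin m, a j • (⟨th K (m + 2) j, th_mem j⟩ : LD A) + u • η₁ + v • η₂ := by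
    intro z
    obtain ⟨c, hc⟩ := (Submodule.mem_span_range_iff_exists_fun _).1 (hspan z)
    rw [Fin.sum_univ_castSucc, Fin.sum_univ_castSucc] at hc
    refine ⟨fun j => c j.castSucc.castSucc, c (Fin.last m).castSucc, c (Fin.last (m + 1)), ?_⟩
    rw [← hc]
    simp only [hw, Fin.snoc_last, Fin.snoc_castSucc]
  set f := h.pi hl η₁ with hf
  set g := h.pi hl η₂ with hg
  have hπth : ∀ a : Fin m → MvPolynomial (Fin (m + 2)) K,
      h.pi hl (∑ j : Fin m, a j • (⟨th K (m + 2) j, th_mem j⟩ : LD A)) = 0 := by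
    intro a
    rw [map_sum]
    apply Finset.sum_eq_zero
    intro j _
    rw [map_smul, h.pi_th hl j (by have := j.isLt; omega), smul_zero]
  have hIU : IU A = Ideal.span {f, g} := by
    apply le_antisymm
    · intro x hx
      obtain ⟨z, hz⟩ := h.pi_surj hl hx
      obtain ⟨a, u, v, hzz⟩ := hrep z
      rw [← hz, hzz, map_add, map_add, hπth, zero_add, map_smul, map_smul]
      exact Ideal.add_mem _ (Ideal.mul_mem_left _ _ (Ideal.subset_span (by simp [hf])))
        (Ideal.mul_mem_left _ _ (Ideal.subset_span (by simp [hg])))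
    · rw [Ideal.span_le]
      rintro x (rfl | rfl)
      · exact h.pi_mem hl η₁
      · exact h.pi_mem hl η₂
  have hfI := h.pi_mem hl η₁
  have hgI := h.pi_mem hl η₂
  have hf0c := hI _ hfI
  have hg0c := hI _ hgI
  rw [← hf] at hf0c hfI
  rw [← hg] at hg0c hgI
  -- coprimality
  have hnp : ∀ p : MvPolynomial (Fin (m + 2)) K, Prime p → p ∣ f → ¬ p ∣ g := by
    intro p hp h1 h2
    obtain ⟨x, hx, hpx⟩ := h.no_prime hl hp
    rw [hIU] at hx
    obtain ⟨u, v, rfl⟩ := Ideal.mem_span_pair.1 hx
    exact hpx (dvd_add (h1.mul_left _) (h2.mul_left _))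
  have hfg0 : ¬ (f = 0 ∧ g = 0) := by
    rintro ⟨h1, h2⟩
    have h3 : IU A = ⊥ := by
      rw [hIU, h1, h2]
      simp
    have h4 := h.pi_mem hl ⟨th K (m + 2) (m + 2 - 1), th_mem (m + 2 - 1)⟩
    rw [h.pi_th_last hl, h3, Ideal.mem_bot] at h4
    exact h.QQ_ne h4
  have hrel : IsRelPrime f g := by
    intro x hxf hxg
    by_contra hnu
    have hx0 : x ≠ 0 := by
      rintro rfl
      exact hfg0 ⟨zero_dvd_iff.1 hxf, zero_dvd_iff.1 hxg⟩
    obtain ⟨p, hpirr, hpx⟩ := WfDvdMonoid.exists_irreducible_factor hnu hx0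
    have hp : Prime p := UniqueFactorizationMonoid.irreducible_iff_prime.1 hpirr
    exact hnp p hp (hpx.trans hxf) (hpx.trans hxg)
  have hf0 : f ≠ 0 := by
    intro h0
    rw [h0] at hrel
    have h1 : IsUnit g := hrel (dvd_zero g) dvd_rfl
    have h2 := h1.map (constantCoeff : MvPolynomial (Fin (m + 2)) K →+* K)
    rw [hg0c] at h2
    exact not_isUnit_zero h2
  have hg0 : g ≠ 0 := by
    intro h0
    rw [h0] at hrel
    have h1 : IsUnit f := hrel dvd_rfl (dvd_zero f)
    have h2 := h1.map (constantCoeff : MvPolynomial (Fin (m + 2)) K →+* K)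
    rw [hf0c] at h2
    exact not_isUnit_zero h2
  -- degrees
  have hdeg : ∀ (d : ℕ) (η : LD A), HomF d (η : Fin (m + 2) → MvPolynomial (Fin (m + 2)) K) →
      h.pi hl η ≠ 0 → constantCoeff (h.pi hl η) = 0 → q ^ (m + 1) < B.card + d ∧
      (h.pi hl η).IsHomogeneous (B.card + d - q ^ (m + 1)) := by
    intro d η hη hne hcc
    obtain ⟨h1, h2⟩ := h.pi_hom hl η hη
    rw [show m + 2 - 1 = m + 1 from rfl, ← hq] at h1 h2
    have h3 : q ^ (m + 1) ≤ B.card + d := by
      by_contra hlt
      exact hne (h2 (by omega))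
    have h4 := h1 h3
    refine ⟨lt_of_le_of_ne h3 ?_, h4⟩
    intro heq
    rw [heq, Nat.sub_self] at h4
    apply hne
    have h5 := hc_of_hom h4 0
    rw [if_pos rfl, homogeneousComponent_zero] at h5
    rw [← h5]
    rw [constantCoeff_eq] at hcc
    rw [hcc, C_0]
  obtain ⟨hlt1, hfh⟩ := hdeg d₁ η₁ hη₁ hf0 hf0c
  obtain ⟨hlt2, hgh⟩ := hdeg d₂ η₂ hη₂ hg0 hg0c
  rw [← hf] at hfh
  rw [← hg] at hgh
  -- the relation
  obtain ⟨a, u, v, hθ⟩ := hrep ⟨th K (m + 2) m, th_mem m⟩
  have h1 := congrArg (h.pi hl) hθ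
  rw [h.pi_th hl m (by omega), map_add, map_add, hπth, zero_add, map_smul, map_smul, ← hf, ← hg,
    smul_eq_mul, smul_eq_mul] at h1
  have h2 : f ∣ v * g := by
    have : v * g = f * (-u) := by linear_combination -h1
    rw [this]
    exact dvd_mul_right _ _
  obtain ⟨t, ht⟩ := hrel.dvd_of_dvd_mul_right h2
  have hu : u = - (g * t) := by
    apply mul_right_cancel₀ hf0
    rw [ht] at h1
    linear_combination -h1
  set ζ : LD A := f • η₂ - g • η₁ with hζ
  have hπζ : h.pi hl ζ = 0 := by
    rw [hζ, map_sub, map_smul, map_smul, ← hf, ← hg, smul_eq_mul, smul_eq_mul, mul_comm, sub_self]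
  obtain ⟨s, hs⟩ := h.pi_ker hl ζ hπζ
  rw [show m + 2 - 1 = m + 1 from rfl] at hs
  have hθζ : (th K (m + 2) m : Fin (m + 2) → MvPolynomial (Fin (m + 2)) K) =
      ∑ j : Fin m, a j • th K (m + 2) j +
        t • (ζ : Fin (m + 2) → MvPolynomial (Fin (m + 2)) K) := by
    have h3 := congrArg Subtype.val hθ
    simp only [Submodule.coe_add, AddSubmonoidClass.coe_finsetSum, SetLike.val_smul] at h3
    rw [h3, add_assoc]
    congr 1
    rw [hu, ht, hζ]
    simp only [AddSubgroupClass.coe_sub, SetLike.val_smul]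
    rw [smul_sub, smul_smul, smul_smul, neg_smul, mul_comm f t, mul_comm g t]
    abel
  -- compare the coefficients of the last Frobenius field
  have hts : t * s m = 1 := by
    have h4 : ∑ j ∈ Finset.range (m + 2), (if j < m then
        (if hj : j < m then a ⟨j, hj⟩ else 0) + t * s j else
          if j = m then t * s m - 1 else 0) • th K (m + 2) j = 0 := by
      rw [Finset.sum_range_succ, Finset.sum_range_succ, if_neg (show ¬ m + 1 < m by omega),
        if_neg (show ¬ m + 1 = m by omega), if_neg (lt_irrefl m), if_pos rfl, zero_smul, add_zero]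
      have h5 : ∑ j ∈ Finset.range m, (if j < m then
          (if hj : j < m then a ⟨j, hj⟩ else 0) + t * s j else
          if j = m then t * s m - 1 else 0) • th K (m + 2) j =
          ∑ j : Fin m, a j • th K (m + 2) j +
            t • ∑ j ∈ Finset.range m, s j • th K (m + 2) j := by
        rw [← Fin.sum_univ_eq_sum_range (fun j => (if j < m then
          (if hj : j < m then a ⟨j, hj⟩ else 0) + t * s j else
          if j = m then t * s m - 1 else 0) • th K (m + 2) j) m,
          ← Fin.sum_univ_eq_sum_range (fun j => s j • th K (m + 2) j) m, Finset.smul_sum,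
          ← Finset.sum_add_distrib]
        refine Finset.sum_congr rfl fun j _ => ?_
        rw [if_pos j.isLt, dif_pos j.isLt, add_smul, mul_smul]
      rw [h5, sub_smul, one_smul, mul_smul]
      rw [hs, Finset.sum_range_succ, smul_add, ← add_assoc] at hθζ
      have h6 : ∀ x y z : Fin (m + 2) → MvPolynomial (Fin (m + 2)) K, z = x + y → x + (y - z) = 0 := by
        intro x y z hxyz
        rw [hxyz]
        abel
      exact h6 _ _ _ hθζ
    have h5 := th_indep h4 m (by omega)
    rw [if_neg (lt_irrefl m), if_pos rfl, sub_eq_zero] at h5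
    exact h5
  have hsm0 : constantCoeff (s m) ≠ 0 := by
    intro h0
    have h4 := congrArg constantCoeff hts
    rw [map_mul, h0, mul_zero, map_one] at h4
    exact zero_ne_one h4
  -- the degree of `ζ`
  have hi1 : B.card + d₁ - q ^ (m + 1) + d₂ = q ^ m := by
    by_contra hne
    have hζhom : HomF (B.card + d₁ - q ^ (m + 1) + d₂)
        (ζ : Fin (m + 2) → MvPolynomial (Fin (m + 2)) K) := by
      have h3 : HomF (B.card + d₁ - q ^ (m + 1) + d₂)
        (f • (η₂ : Fin (m + 2) → MvPolynomial (Fin (m + 2)) K)) := HomF.smul hfh hη₂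
      have h4 : HomF (B.card + d₂ - q ^ (m + 1) + d₁)
        (g • (η₁ : Fin (m + 2) → MvPolynomial (Fin (m + 2)) K)) := HomF.smul hgh hη₁
      have h5 : B.card + d₂ - q ^ (m + 1) + d₁ = B.card + d₁ - q ^ (m + 1) + d₂ := by omega
      rw [h5] at h4
      exact h3.sub h4
    have h3 := congrArg (hcv (q ^ m)) hs
    rw [hcv_of_homF_ne hζhom (Ne.symm hne), hcv_sum] at h3
    have h4 : ∑ j ∈ Finset.range (m + 2), (if j < m + 1 then
        homogeneousComponent (q ^ m - q ^ j) (s j) else 0) • th K (m + 2) j = 0 := by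
      rw [Finset.sum_range_succ, if_neg (lt_irrefl _), zero_smul, add_zero, h3]
      refine Finset.sum_congr rfl fun j hj => ?_
      have hjm : q ^ j ≤ q ^ m := Nat.pow_le_pow_right Fintype.card_pos (by
        have := Finset.mem_range.1 hj; omega)
      rw [if_pos (Finset.mem_range.1 hj)]
      funext k
      rw [hcv, Pi.smul_apply, Pi.smul_apply, smul_eq_mul, smul_eq_mul, mul_comm (s j),
        hc_mul (th_homF j k), if_pos hjm, mul_comm]
    have h5 := th_indep h4 m (by omega)
    rw [if_pos (by omega), Nat.sub_self, homogeneousComponent_zero] at h5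
    apply hsm0
    have h6 := C_injective _ _ (h5.trans C_0.symm)
    rw [constantCoeff_eq]
    exact h6
  exact ⟨B.card + d₁ - q ^ (m + 1), B.card + d₂ - q ^ (m + 1), f, g, by omega, by omega,
    by omega, hfh, hgh, hrel, hIU⟩

end

end Pool.Agent.H160.TF
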