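import Mathlib
import Pool.Agent.H160.TF.Count

set_option autoImplicit false

/-! # Sets of points missing few lines -/

namespace Pool.Agent.H160.TF

open MvPolynomial

section jamison

variable {K : Type*} [Field K] [Fintype K]

theorem eval_lf {l : ℕ} (a x : Fin l → K) : eval x (lf a) = a ⬝ᵥ x := by
  simp [lf, dotProduct]

open Classical in
/-- Jamison's theorem in coordinates -/
theorem jamison_coord {ι : Type*} (I : Finset ι) (a : ι → Fin 3 → K) (x₀ : Fin 3 → K)
    (hx₀ : x₀ ≠ 0) (ha : ∀ i ∈ I, a i ⬝ᵥ x₀ ≠ 0) (hI : I.card ≤ 2 * (Fintype.card K - 1)) :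
    ∃ x : Fin 3 → K, (∀ i ∈ I, a i ⬝ᵥ x ≠ 0) ∧ ∀ c : K, x ≠ c • x₀ := by
  by_contra hcon
  push Not at hcon
  set q := Fintype.card K with hq
  have hq1 : 1 < q := one_lt_q (K := K)
  obtain ⟨c₀, hc₀⟩ := exists_dual hx₀
  set f : MvPolynomial (Fin 3) K := (∏ i ∈ I, lf (a i)) * (lf c₀) ^ (2 * (q - 1) - I.card) with hf
  have hfh : f.IsHomogeneous (2 * (q - 1)) := by
    have h1 : (∏ i ∈ I, lf (a i) : MvPolynomial (Fin 3) K).IsHomogeneous I.card := by
      have := IsHomogeneous.prod I (fun i => (lf (a i) : MvPolynomial (Fin 3) K)) (fun _ => 1)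
        (fun i _ => lf_homogeneous _)
      simpa using this
    have h2 : ((lf c₀ : MvPolynomial (Fin 3) K) ^ (2 * (q - 1) - I.card)).IsHomogeneous
        (2 * (q - 1) - I.card) := by
      have := (lf_homogeneous c₀).pow (2 * (q - 1) - I.card)
      rwa [one_mul] at this
    have h3 := h1.mul h2
    rwa [Nat.add_sub_cancel' hI] at h3
  have hsum : ∑ x : Fin 3 → K, eval x f = 0 := by
    apply MvPolynomial.sum_eval_eq_zero
    rw [Fintype.card_fin]
    refine lt_of_le_of_lt hfh.totalDegree_le ?_
    rw [← hq]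
    omega
  have hinj : Function.Injective (fun c : K => c • x₀) := by
    intro c d hcd
    have : (c - d) • x₀ = 0 := by rw [sub_smul]; exact sub_eq_zero.2 hcd
    rcases smul_eq_zero.1 this with h | h
    · exact sub_eq_zero.1 h
    · exact absurd h hx₀
  have hf0 : eval x₀ f ≠ 0 := by
    rw [hf, map_mul, map_prod, map_pow, eval_lf]
    apply mul_ne_zero
    · apply Finset.prod_ne_zero_iff.2
      intro i hi
      rw [eval_lf]
      exact ha i hi
    · apply pow_ne_zero
      rw [dotProduct_comm, hc₀]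
      exact one_ne_zero
  have h1 : ∑ x : Fin 3 → K, eval x f = ∑ c : K, eval (c • x₀) f := by
    rw [← Finset.sum_image (s := Finset.univ) (g := fun c : K => c • x₀) (f := fun x => eval x f)
      (fun c _ d _ h => hinj h)]
    symm
    apply Finset.sum_subset (Finset.subset_univ _)
    intro x _ hx
    have hx' : ∀ c : K, x ≠ c • x₀ := by
      intro c hc
      apply hx
      rw [hc]
      exact Finset.mem_image_of_mem _ (Finset.mem_univ c)
    have : ∃ i ∈ I, a i ⬝ᵥ x = 0 := by
      by_contra hn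
      push Not at hn
      obtain ⟨c, hc⟩ := hcon x hn
      exact hx' c hc
    obtain ⟨i, hi, hix⟩ := this
    rw [hf, map_mul, map_prod]
    rw [Finset.prod_eq_zero hi (by rw [eval_lf, hix]), zero_mul]
  have h2 : ∀ c : K, eval (c • x₀) f = (if c = 0 then 0 else 1) * eval x₀ f := by
    intro c
    have h3 : eval (c • x₀) f = c ^ (2 * (q - 1)) * eval x₀ f := by
      rw [hf, map_mul, map_mul, map_prod, map_prod, map_pow, map_pow]
      simp only [eval_lf, dotProduct_smul, smul_eq_mul, mul_pow, Finset.prod_mul_distrib,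
        Finset.prod_const]
      have : c ^ (2 * (q - 1)) = c ^ I.card * c ^ (2 * (q - 1) - I.card) := by
        rw [← pow_add, Nat.add_sub_cancel' hI]
      rw [this]
      ring
    rw [h3]
    by_cases hc : c = 0
    · rw [if_pos hc, hc, zero_pow (by omega), zero_mul]
    · rw [if_neg hc, mul_comm 2, pow_mul, FiniteField.pow_card_sub_one_eq_one c hc, one_pow]
  rw [h1, Finset.sum_congr rfl fun c _ => h2 c, ← Finset.sum_mul] at hsum
  have h3 : ∑ c : K, (if c = 0 then (0 : K) else 1) = -1 := by
    have h4 : ∑ c : K, (if c = 0 then (0 : K) else 1) + ∑ c : K, (if c = 0 then (1 : K) else 0) =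
        (Fintype.card K : K) := by
      have h5 : ∀ c : K, (if c = 0 then (0 : K) else 1) + (if c = 0 then (1 : K) else 0) = 1 := by
        intro c
        split_ifs <;> simp
      rw [← Finset.sum_add_distrib, Finset.sum_congr rfl fun c _ => h5 c]
      simp
    rw [FiniteField.cast_card_eq_zero, Finset.sum_ite_eq' Finset.univ (0 : K),
      if_pos (Finset.mem_univ _)] at h4
    exact eq_neg_of_add_eq_zero_left h4
  rw [h3, neg_one_mul, neg_eq_zero] at hsum
  exact hf0 hsum

open Classical in
/-- Jamison's theorem for a three-dimensional space -/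
theorem jamison_dual {E : Type*} [AddCommGroup E] [Module K E] (hE : Module.finrank K E = 3)
    (I : Finset E) (x₀ : Module.Dual K E) (hx₀ : x₀ ≠ 0) (ha : ∀ a ∈ I, x₀ a ≠ 0)
    (hI : I.card ≤ 2 * (Fintype.card K - 1)) :
    ∃ x : Module.Dual K E, (∀ a ∈ I, x a ≠ 0) ∧ ∀ c : K, x ≠ c • x₀ := by
  have : FiniteDimensional K E := Module.finite_of_finrank_pos (by omega)
  let b := Module.finBasisOfFinrankEq K E hE
  have key : ∀ (x : Module.Dual K E) (a : E), (fun t => b.repr a t) ⬝ᵥ (fun t => x (b t)) = x a := by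
    intro x a
    conv_rhs => rw [← b.sum_repr a, map_sum]
    simp only [dotProduct, map_smul, smul_eq_mul]
  obtain ⟨y, hy1, hy2⟩ := jamison_coord I (fun a t => b.repr a t) (fun t => x₀ (b t)) (by
    intro h
    apply hx₀
    apply b.ext
    intro t
    rw [congrFun h t]
    rfl) (by
    intro a ha'
    rw [key]
    exact ha a ha') hI
  refine ⟨b.constr K y, ?_, ?_⟩
  · intro a ha'
    rw [← key]
    have : (fun t => (b.constr K y) (b t)) = y := by
      funext t
      rw [b.constr_basis]
    rw [this]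
    exact hy1 a ha'
  · intro c hc
    apply hy2 c
    funext t
    have := LinearMap.congr_fun hc (b t)
    rw [b.constr_basis] at this
    rw [this]
    rfl

end jamison

section planes

variable {K : Type*} [Field K] [Fintype K] {l : ℕ}

open Classical in
/-- a set of points of a plane which misses exactly one line -/
theorem plane_bound {E L₀ : Submodule K (Fin l → K)} (hE : Module.finrank K E = 3)
    (hL : Module.finrank K L₀ = 2) (hLE : L₀ ≤ E) (F : Finset (Fin l → K))
    (hF0 : ∀ a ∈ F, a ∉ L₀)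
    (hF : ∀ W : Submodule K (Fin l → K), Module.finrank K W = 2 → W ≤ E → W ≠ L₀ →
      ∃ a ∈ F, a ∈ W) :
    2 * Fintype.card K ≤ (F.filter (fun a => a ∈ E)).card + 1 := by
  by_contra hlt
  push Not at hlt
  have hq1 : 1 < Fintype.card K := one_lt_q (K := K)
  -- the functional of `L₀`
  obtain ⟨x₀, hx₀, hker⟩ : ∃ x₀ : Module.Dual K E, x₀ ≠ 0 ∧ ∀ a : E, x₀ a = 0 ↔ (a : Fin l → K) ∈ L₀ := by
    have h1 : L₀.comap E.subtype ≠ ⊤ := by
      intro h
      have h2 : E ≤ L₀ := by
        intro a ha
        have : (⟨a, ha⟩ : E) ∈ L₀.comap E.subtype := by rw [h]; exact Submodule.mem_top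
        exact this
      have h3 := Submodule.finrank_mono h2
      omega
    obtain ⟨f, hf0, hf⟩ := Submodule.exists_le_ker_of_lt_top _ (lt_top_iff_ne_top.2 h1)
    refine ⟨f, hf0, ?_⟩
    have h4 : L₀.comap E.subtype = LinearMap.ker f := by
      apply Submodule.eq_of_le_of_finrank_eq hf
      have h5 : Module.finrank K ↥(L₀.comap E.subtype) = 2 := by
        rw [← hL]
        exact LinearEquiv.finrank_eq (Submodule.comapSubtypeEquivOfLe hLE)
      have h6 := f.finrank_range_add_finrank_ker
      have h7 : Module.finrank K ↥(LinearMap.range f) = 1 := by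
        have h8 : LinearMap.range f = ⊤ := by
          rw [LinearMap.range_eq_top]
          exact LinearMap.surjective hf0
        rw [h8, finrank_top, Module.finrank_self]
      rw [h7, hE] at h6
      omega
    intro a
    rw [← LinearMap.mem_ker, ← h4]
    rfl
  -- the points of the plane
  set I : Finset E := (Finset.univ : Finset E).filter (fun a => (a : Fin l → K) ∈ F) with hI
  have hIc : I.card = (F.filter (fun a => a ∈ E)).card := by
    apply Finset.card_bij (fun (a : E) _ => (a : Fin l → K))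
    · intro a ha
      rw [hI, Finset.mem_filter] at ha
      rw [Finset.mem_filter]
      exact ⟨ha.2, a.2⟩
    · intro a _ b _ h
      exact Subtype.ext h
    · intro a ha
      rw [Finset.mem_filter] at ha
      exact ⟨⟨a, ha.2⟩, by rw [hI, Finset.mem_filter]; exact ⟨Finset.mem_univ _, ha.1⟩, rfl⟩
  obtain ⟨x, hx1, hx2⟩ := jamison_dual hE I x₀ hx₀ (by
    intro a ha
    rw [hI, Finset.mem_filter] at ha
    intro h
    exact hF0 _ ha.2 ((hker a).1 h)) (by omega)
  have hx0 : x ≠ 0 := by
    intro h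
    apply hx2 0
    rw [h, zero_smul]
  have hkx : Module.finrank K ↥(LinearMap.ker x) = 2 := by
    have h6 := x.finrank_range_add_finrank_ker
    have h8 : LinearMap.range x = ⊤ := by
      rw [LinearMap.range_eq_top]
      exact LinearMap.surjective hx0
    rw [h8, finrank_top, Module.finrank_self, hE] at h6
    omega
  obtain ⟨a, haF, haW⟩ := hF ((LinearMap.ker x).map E.subtype) (by
    rw [← hkx]
    exact LinearEquiv.finrank_eq (Submodule.equivMapOfInjective E.subtype
      (Submodule.injective_subtype E) (LinearMap.ker x)).symm) (by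
    rintro _ ⟨a, -, rfl⟩
    exact a.2) (by
    intro heq
    -- then `x` is proportional to `x₀`
    have h1 : ∀ a : E, x₀ a = 0 → x a = 0 := by
      intro a ha
      have h2 : (a : Fin l → K) ∈ (LinearMap.ker x).map E.subtype := by
        rw [heq]
        exact (hker a).1 ha
      obtain ⟨b, hb, hba⟩ := h2
      have : b = a := Subtype.ext hba
      rw [← this]
      exact hb
    obtain ⟨e, he⟩ : ∃ e : E, x₀ e = 1 := LinearMap.surjective hx₀ 1
    apply hx2 (x e)
    ext a
    have h2 : x₀ (a - x₀ a • e) = 0 := by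
      rw [map_sub, map_smul, he, smul_eq_mul, mul_one, sub_self]
    have h3 := h1 _ h2
    rw [map_sub, map_smul, sub_eq_zero, smul_eq_mul] at h3
    rw [h3, LinearMap.smul_apply, smul_eq_mul, mul_comm])
  obtain ⟨b, hb, rfl⟩ := haW
  exact hx1 b (by rw [hI, Finset.mem_filter]; exact ⟨Finset.mem_univ _, haF⟩) hb

open Classical in
/-- the number of planes through a line -/
theorem card_planes_through {L₀ : Submodule K (Fin l → K)} (hL : Module.finrank K L₀ = 2) :
    (Finset.univ.filter (fun E : Submodule K (Fin l → K) =>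
      Module.finrank K E = 3 ∧ L₀ ≤ E)).card = ∑ j ∈ Finset.range (l - 2), Fintype.card K ^ j ∧
    ∀ F : Finset (Fin l → K), (∀ a ∈ F, a ∉ L₀) →
      F.card = ∑ E ∈ Finset.univ.filter (fun E : Submodule K (Fin l → K) =>
        Module.finrank K E = 3 ∧ L₀ ≤ E), (F.filter (fun a => a ∈ E)).card := by
  set q := Fintype.card K with hq
  have hq1 : 1 < q := one_lt_q (K := K)
  have hl : 2 ≤ l := by
    have h1 := Submodule.finrank_le L₀
    rw [hL, Module.finrank_fin_fun] at h1
    exact h1
  set T := Finset.univ.filter (fun E : Submodule K (Fin l → K) =>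
      Module.finrank K E = 3 ∧ L₀ ≤ E) with hT
  have hfr : ∀ a : Fin l → K, a ∉ L₀ → Module.finrank K ↥(L₀ ⊔ Submodule.span K {a}) = 3 := by
    intro a ha
    have h1 := Submodule.finrank_sup_add_finrank_inf_eq L₀ (Submodule.span K {a})
    have ha0 : a ≠ 0 := by
      rintro rfl
      exact ha L₀.zero_mem
    have h2 : L₀ ⊓ Submodule.span K {a} = ⊥ := by
      rw [Submodule.eq_bot_iff]
      intro x hx
      obtain ⟨hx1, hx2⟩ := Submodule.mem_inf.1 hx
      obtain ⟨c, rfl⟩ := Submodule.mem_span_singleton.1 hx2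
      by_cases hc : c = 0
      · rw [hc, zero_smul]
      · exfalso
        apply ha
        have := L₀.smul_mem c⁻¹ hx1
        rwa [smul_smul, inv_mul_cancel₀ hc, one_smul] at this
    rw [h2, finrank_bot, hL, finrank_span_singleton ha0] at h1
    omega
  have hmaps : ∀ F : Finset (Fin l → K), (∀ a ∈ F, a ∉ L₀) →
      ∀ a ∈ F, L₀ ⊔ Submodule.span K {a} ∈ T := by
    intro F hF a ha
    rw [hT, Finset.mem_filter]
    exact ⟨Finset.mem_univ _, hfr a (hF a ha), le_sup_left⟩
  have hfib : ∀ F : Finset (Fin l → K), (∀ a ∈ F, a ∉ L₀) → ∀ E ∈ T,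
      (F.filter (fun a => L₀ ⊔ Submodule.span K {a} = E)) = F.filter (fun a => a ∈ E) := by
    intro F hF E hE
    rw [hT, Finset.mem_filter] at hE
    ext a
    rw [Finset.mem_filter, Finset.mem_filter]
    constructor
    · rintro ⟨h1, rfl⟩
      exact ⟨h1, Submodule.mem_sup_right (Submodule.mem_span_singleton_self a)⟩
    · rintro ⟨h1, h2⟩
      refine ⟨h1, ?_⟩
      apply Submodule.eq_of_le_of_finrank_eq
      · exact sup_le hE.2.2 ((Submodule.span_singleton_le_iff_mem _ _).2 h2)
      · rw [hfr a (hF a h1), hE.2.1]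
  have hcount : ∀ F : Finset (Fin l → K), (∀ a ∈ F, a ∉ L₀) →
      F.card = ∑ E ∈ T, (F.filter (fun a => a ∈ E)).card := by
    intro F hF
    rw [Finset.card_eq_sum_card_fiberwise (hmaps F hF)]
    exact Finset.sum_congr rfl fun E hE => by rw [hfib F hF E hE]
  refine ⟨?_, hcount⟩
  have h1 := hcount (Finset.univ.filter (fun a => a ∉ L₀)) (fun a ha =>
    (Finset.mem_filter.1 ha).2)
  have h3 : (Finset.univ.filter (fun b : Fin l → K => b ∉ L₀)).card = q ^ l - q ^ 2 := by
    have h4 := Finset.card_filter_add_card_filter_not (s := (Finset.univ : Finset (Fin l → K)))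
      (fun b : Fin l → K => b ∈ L₀)
    rw [card_mem, hL, Finset.card_univ, Fintype.card_fun, Fintype.card_fin] at h4
    rw [← hq] at h4
    omega
  have h5 : ∀ E ∈ T, ((Finset.univ.filter (fun a : Fin l → K => a ∉ L₀)).filter
      (fun a => a ∈ E)).card = q ^ 3 - q ^ 2 := by
    intro E hE
    rw [hT, Finset.mem_filter] at hE
    have h6 : ((Finset.univ.filter (fun a : Fin l → K => a ∉ L₀)).filter (fun a => a ∈ E)) =
        (Finset.univ.filter (fun b : Fin l → K => b ∈ E)) \
          (Finset.univ.filter (fun b : Fin l → K => b ∈ L₀)) := by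
      ext b
      simp only [Finset.mem_filter, Finset.mem_univ, true_and, Finset.mem_sdiff]
      tauto
    rw [h6, Finset.card_sdiff_of_subset, card_mem, card_mem, hE.2.1, hL]
    intro b hb
    simp only [Finset.mem_filter, Finset.mem_univ, true_and] at hb ⊢
    exact hE.2.2 hb
  rw [h3, Finset.sum_congr rfl h5, Finset.sum_const, smul_eq_mul] at h1
  have h6 := geom q hq1 (l - 2)
  have h7 : q ^ l - q ^ 2 = (∑ j ∈ Finset.range (l - 2), q ^ j) * (q ^ 3 - q ^ 2) := by
    have h8 : q ^ l = q ^ 2 * q ^ (l - 2) := by rw [← pow_add, Nat.add_sub_cancel' hl]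
    have h9 : q ^ 3 - q ^ 2 = q ^ 2 * (q - 1) := by rw [Nat.mul_sub, mul_one, pow_succ q 2]
    rw [h8, h9, ← h6]
    have h10 : q ^ 2 * ((q - 1) * ∑ j ∈ Finset.range (l - 2), q ^ j + 1) - q ^ 2 =
        q ^ 2 * ((q - 1) * ∑ j ∈ Finset.range (l - 2), q ^ j) := by
      rw [mul_add, mul_one, Nat.add_sub_cancel]
    rw [h10]
    ring
  rw [h7] at h1
  have h8 : 0 < q ^ 3 - q ^ 2 := by
    have : q ^ 3 - q ^ 2 = q ^ 2 * (q - 1) := by rw [Nat.mul_sub, mul_one, pow_succ q 2]
    rw [this]
    exact Nat.mul_pos (pow_pos (by omega) 2) (by omega)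
  exact (Nat.eq_of_mul_eq_mul_right h8 h1).symm

open Classical in
/-- **Jamison-type bound.** A set of points missing a line `L₀`, and hitting all other lines that meet
`L₀`. -/
theorem jam_bound {L₀ : Submodule K (Fin l → K)} (hL : Module.finrank K L₀ = 2)
    (F : Finset (Fin l → K)) (hF0 : ∀ a ∈ F, a ∉ L₀)
    (hF : ∀ W : Submodule K (Fin l → K), Module.finrank K W = 2 → W ⊓ L₀ ≠ ⊥ → W ≠ L₀ →
      ∃ a ∈ F, a ∈ W) :
    (2 * Fintype.card K - 1) * ∑ j ∈ Finset.range (l - 2), Fintype.card K ^ j ≤ F.card := by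
  obtain ⟨h1, h2⟩ := card_planes_through hL
  rw [h2 F hF0, ← h1, mul_comm, ← smul_eq_mul, ← Finset.sum_const]
  apply Finset.sum_le_sum
  intro E hE
  rw [Finset.mem_filter] at hE
  have h3 := plane_bound hE.2.1 hL hE.2.2 F hF0 (by
    intro W hW hWE hne
    apply hF W hW _ hne
    intro hbot
    have h4 := Submodule.finrank_sup_add_finrank_inf_eq W L₀
    rw [hbot, finrank_bot, hW, hL] at h4
    have h5 := Submodule.finrank_mono (sup_le hWE hE.2.2)
    omega)
  omega

theorem exists_mem_notMem {W L₀ : Submodule K (Fin l → K)} (hW : Module.finrank K W = 2)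
    (hL : Module.finrank K L₀ = 2) (hne : W ≠ L₀) : ∃ p ∈ W, p ∉ L₀ := by
  by_contra hcon
  push Not at hcon
  apply hne
  exact Submodule.eq_of_le_of_finrank_eq hcon (by rw [hW, hL])

open Classical in
/-- **Sets of points missing few lines are large.** -/
theorem missed_bound (F : Finset (Fin l → K)) (U : Finset (Submodule K (Fin l → K)))
    (hU : ∀ W, W ∈ U ↔ Module.finrank K W = 2 ∧ ∀ a ∈ F, a ∉ W) (hne : U.Nonempty) :
    (2 * Fintype.card K - 1) * (∑ j ∈ Finset.range (l - 2), Fintype.card K ^ j) + 1 ≤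
      F.card + U.card := by
  obtain ⟨L₀, hL₀⟩ := hne
  obtain ⟨hL, hF0⟩ := (hU L₀).1 hL₀
  have hex : ∀ W ∈ U.erase L₀, ∃ p ∈ W, p ∉ L₀ := by
    intro W hW
    rw [Finset.mem_erase] at hW
    exact exists_mem_notMem ((hU W).1 hW.2).1 hL hW.1
  choose! p hpW hpL using hex
  have h1 := jam_bound hL (F ∪ (U.erase L₀).image p) (by
    intro a ha
    rcases Finset.mem_union.1 ha with ha | ha
    · exact hF0 a ha
    · obtain ⟨W, hW, rfl⟩ := Finset.mem_image.1 ha
      exact hpL W hW) (by
    intro W hW _ hne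
    by_cases hWU : W ∈ U
    · have hW' : W ∈ U.erase L₀ := Finset.mem_erase.2 ⟨hne, hWU⟩
      exact ⟨p W, Finset.mem_union_right _ (Finset.mem_image_of_mem p hW'), hpW W hW'⟩
    · rw [hU] at hWU
      push Not at hWU
      obtain ⟨a, ha, haW⟩ := hWU hW
      exact ⟨a, Finset.mem_union_left _ ha, haW⟩)
  have h2 : (F ∪ (U.erase L₀).image p).card ≤ F.card + (U.card - 1) := by
    refine (Finset.card_union_le _ _).trans ?_
    have h3 := Finset.card_image_le (s := U.erase L₀) (f := p)
    rw [Finset.card_erase_of_mem hL₀] at h3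
    omega
  have h3 : 0 < U.card := Finset.card_pos.2 ⟨L₀, hL₀⟩
  omega

open Classical in
/-- **Equality case.** The missed lines have a common point. -/
theorem missed_eq (F : Finset (Fin l → K)) (U : Finset (Submodule K (Fin l → K)))
    (hU : ∀ W, W ∈ U ↔ Module.finrank K W = 2 ∧ ∀ a ∈ F, a ∉ W) (hne : U.Nonempty)
    (heq : F.card + U.card =
      (2 * Fintype.card K - 1) * (∑ j ∈ Finset.range (l - 2), Fintype.card K ^ j) + 1) :
    ∃ v : Fin l → K, v ≠ 0 ∧ ∀ W ∈ U, v ∈ W := by
  have hnz : ∀ W : Submodule K (Fin l → K), Module.finrank K W = 2 → ∃ v ∈ W, v ≠ 0 := by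
    intro W hW
    have : W ≠ ⊥ := by
      rintro rfl
      rw [finrank_bot] at hW
      omega
    exact W.exists_mem_ne_zero_of_ne_bot this
  rcases Nat.lt_or_ge 1 U.card with hc | hc
  swap
  · obtain ⟨L₀, hL₀⟩ := hne
    obtain ⟨v, hv, hv0⟩ := hnz L₀ ((hU L₀).1 hL₀).1
    refine ⟨v, hv0, fun W hW => ?_⟩
    rw [Finset.card_le_one.1 hc W hW L₀ hL₀]
    exact hv
  obtain ⟨L₁, hL₁, L₂, hL₂, h12⟩ := Finset.one_lt_card.1 hc
  obtain ⟨hf1, hF1⟩ := (hU L₁).1 hL₁
  obtain ⟨hf2, hF2⟩ := (hU L₂).1 hL₂
  by_cases hint : L₁ ⊓ L₂ = ⊥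
  · -- skew lines
    exfalso
    have hex : ∀ W ∈ (U.erase L₁).erase L₂, ∃ p ∈ W, p ∉ L₁ := by
      intro W hW
      rw [Finset.mem_erase, Finset.mem_erase] at hW
      exact exists_mem_notMem ((hU W).1 hW.2.2).1 hf1 hW.2.1
    choose! p hpW hpL using hex
    have h1 := jam_bound hf1 (F ∪ ((U.erase L₁).erase L₂).image p) (by
      intro a ha
      rcases Finset.mem_union.1 ha with ha | ha
      · exact hF1 a ha
      · obtain ⟨W, hW, rfl⟩ := Finset.mem_image.1 ha
        exact hpL W hW) (by
      intro W hW hWL hne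
      by_cases hWU : W ∈ U
      · have hW2 : W ≠ L₂ := by
          rintro rfl
          rw [inf_comm] at hWL
          exact hWL hint
        have hW' : W ∈ (U.erase L₁).erase L₂ :=
          Finset.mem_erase.2 ⟨hW2, Finset.mem_erase.2 ⟨hne, hWU⟩⟩
        exact ⟨p W, Finset.mem_union_right _ (Finset.mem_image_of_mem p hW'), hpW W hW'⟩
      · rw [hU] at hWU
        push Not at hWU
        obtain ⟨a, ha, haW⟩ := hWU hW
        exact ⟨a, Finset.mem_union_left _ ha, haW⟩)
    have h2 : (F ∪ ((U.erase L₁).erase L₂).image p).card ≤ F.card + (U.card - 1 - 1) := by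
      refine (Finset.card_union_le _ _).trans ?_
      have h3 := Finset.card_image_le (s := (U.erase L₁).erase L₂) (f := p)
      rw [Finset.card_erase_of_mem (Finset.mem_erase.2 ⟨h12.symm, hL₂⟩),
        Finset.card_erase_of_mem hL₁] at h3
      omega
    omega
  · obtain ⟨v, hv, hv0⟩ := Submodule.exists_mem_ne_zero_of_ne_bot hint
    obtain ⟨hv1, hv2⟩ := Submodule.mem_inf.1 hv
    refine ⟨v, hv0, ?_⟩
    intro L₀ hL₀
    by_contra hvL
    obtain ⟨hL, hF0⟩ := (hU L₀).1 hL₀
    have h01 : L₀ ≠ L₁ := by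
      rintro rfl
      exact hvL hv1
    have h02 : L₀ ≠ L₂ := by
      rintro rfl
      exact hvL hv2
    have hex : ∀ W ∈ ((U.erase L₀).erase L₁).erase L₂, ∃ p ∈ W, p ∉ L₀ := by
      intro W hW
      rw [Finset.mem_erase, Finset.mem_erase, Finset.mem_erase] at hW
      exact exists_mem_notMem ((hU W).1 hW.2.2.2).1 hL hW.2.2.1
    choose! p hpW hpL using hex
    have h1 := jam_bound hL (insert v (F ∪ (((U.erase L₀).erase L₁).erase L₂).image p)) (by
      intro a ha
      rcases Finset.mem_insert.1 ha with rfl | ha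
      · exact hvL
      · rcases Finset.mem_union.1 ha with ha | ha
        · exact hF0 a ha
        · obtain ⟨W, hW, rfl⟩ := Finset.mem_image.1 ha
          exact hpL W hW) (by
      intro W hW _ hne
      by_cases hWU : W ∈ U
      · by_cases hW1 : W = L₁
        · exact ⟨v, Finset.mem_insert_self _ _, hW1 ▸ hv1⟩
        · by_cases hW2 : W = L₂
          · exact ⟨v, Finset.mem_insert_self _ _, hW2 ▸ hv2⟩
          · have hW' : W ∈ ((U.erase L₀).erase L₁).erase L₂ :=
              Finset.mem_erase.2 ⟨hW2, Finset.mem_erase.2 ⟨hW1, Finset.mem_erase.2 ⟨hne, hWU⟩⟩⟩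
            exact ⟨p W, Finset.mem_insert_of_mem
              (Finset.mem_union_right _ (Finset.mem_image_of_mem p hW')), hpW W hW'⟩
      · rw [hU] at hWU
        push Not at hWU
        obtain ⟨a, ha, haW⟩ := hWU hW
        exact ⟨a, Finset.mem_insert_of_mem (Finset.mem_union_left _ ha), haW⟩)
    have h2 : (insert v (F ∪ (((U.erase L₀).erase L₁).erase L₂).image p)).card ≤
        F.card + (U.card - 1 - 1 - 1) + 1 := by
      refine (Finset.card_insert_le _ _).trans ?_
      have h4 := Finset.card_union_le F ((((U.erase L₀).erase L₁).erase L₂).image p)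
      have h3 := Finset.card_image_le (s := ((U.erase L₀).erase L₁).erase L₂) (f := p)
      rw [Finset.card_erase_of_mem (Finset.mem_erase.2 ⟨h12.symm,
        Finset.mem_erase.2 ⟨h02.symm, hL₂⟩⟩),
        Finset.card_erase_of_mem (Finset.mem_erase.2 ⟨h01.symm, hL₁⟩),
        Finset.card_erase_of_mem hL₀] at h3
      omega
    have h5 : 3 ≤ U.card := by
      have h6 : ({L₀, L₁, L₂} : Finset (Submodule K (Fin l → K))) ⊆ U := by
        intro x hx
        simp only [Finset.mem_insert, Finset.mem_singleton] at hx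
        rcases hx with rfl | rfl | rfl
        · exact hL₀
        · exact hL₁
        · exact hL₂
      have h7 := Finset.card_le_card h6
      have h8 : ({L₀, L₁, L₂} : Finset (Submodule K (Fin l → K))).card = 3 := by
        rw [Finset.card_eq_three]
        exact ⟨L₀, L₁, L₂, h01, h02, h12, rfl⟩
      omega
    omega

end planes

end Pool.Agent.H160.TF
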