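import Mathlib
import Pool.Agent.H160.TF.Jam
import Pool.Agent.H160.TF.CIb
import Pool.Agent.H160.TF.Betti

set_option autoImplicit false

/-! # Nearly covering arrangements -/

namespace Pool.Agent.H160.TF

open MvPolynomial

section

variable {K : Type*} [Field K] {l : ℕ} {ι : Type*} {A : ι → Fin l → K}

theorem exists_lf {f : (MvPolynomial (Fin l) K)} (hf : f.IsHomogeneous 1) : ∃ v : Fin l → K, f = lf v := by
  classical
  refine ⟨fun j => coeff (Finsupp.single j 1) f, ?_⟩
  ext d
  by_cases hd : d.degree = 1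
  · obtain ⟨j, rfl⟩ : ∃ j, d = Finsupp.single j 1 := by
      have h0 : d ≠ 0 := by
        rintro rfl
        simp at hd
      obtain ⟨j, hj⟩ := Finsupp.support_nonempty_iff.2 h0
      refine ⟨j, ?_⟩
      rw [Finsupp.mem_support_iff] at hj
      have h1 : Finsupp.single j 1 ≤ d := by
        rw [Finsupp.single_le_iff]
        omega
      obtain ⟨e, rfl⟩ := exists_add_of_le h1
      have h2 : e.degree = 0 := by
        rw [map_add, Finsupp.degree_single] at hd
        omega
      rw [Finsupp.degree_eq_zero_iff] at h2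
      rw [h2, add_zero]
    rw [coeff_lf]
  · rw [hf.coeff_eq_zero hd, (lf_homogeneous _).coeff_eq_zero hd]

theorem lf_mem_IW {W : Submodule K (Fin l → K)} (hW : Module.finrank K W = 2) {v : Fin l → K}
    (hv : lf v ∈ IW W) : v ∈ W := by
  obtain ⟨a, b, -, -, ha, hab, rfl⟩ := exists_pair hW
  rw [IW_span] at hv
  obtain ⟨p, p', h1, h2, h3, h4⟩ := exists_dual2 ha hab
  have h5 := ret2_of_mem h1 h2 h3 h4 hv
  rw [ret2_lf h2] at h5
  have h6 := lf_injective (h5.trans lf_zero.symm)
  have h7 : v = (v ⬝ᵥ p) • a + (v ⬝ᵥ p') • b := by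
    have : v = (v - (v ⬝ᵥ p') • b - (v ⬝ᵥ p) • a) + ((v ⬝ᵥ p) • a + (v ⬝ᵥ p') • b) := by abel
    rw [h6, zero_add] at this
    exact this
  rw [h7]
  exact Submodule.add_mem _ (Submodule.smul_mem _ _ (Submodule.subset_span (by simp)))
    (Submodule.smul_mem _ _ (Submodule.subset_span (by simp)))

/-- If all uncovered subspaces contain `v`, their ideal is a complete intersection. -/
theorem IU_of_common (U : Finset (Submodule K (Fin l → K)))
    (hU : ∀ W, W ∈ U ↔ Module.finrank K W = 2 ∧ ∀ i, A i ∉ W) {v : Fin l → K} (hv : v ≠ 0)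
    (hvU : ∀ W ∈ U, v ∈ W) :
    ∃ g : (MvPolynomial (Fin l) K), g.IsHomogeneous U.card ∧ IsRelPrime (lf v) g ∧ IU A = Ideal.span {lf v, g} ∧
      ∃ p : Fin l → K, v ⬝ᵥ p = 1 ∧ ret v p g = g ∧ g ≠ 0 := by
  classical
  obtain ⟨p, hp⟩ := exists_dual hv
  have hex : ∀ W ∈ U, ∃ w ∈ W, w ≠ 0 ∧ w ⬝ᵥ p = 0 ∧ W = Submodule.span K {v, w} := by
    intro W hW
    obtain ⟨hW2, -⟩ := (hU W).1 hW
    obtain ⟨a, b, ha, hb, ha0, hab, hWs⟩ := exists_pair hW2
    -- a vector of `W` outside the line of `v`
    obtain ⟨x, hx, hxv⟩ : ∃ x ∈ W, ∀ c : K, x ≠ c • v := by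
      by_contra hcon
      push Not at hcon
      obtain ⟨c, hc⟩ := hcon a ha
      obtain ⟨d, hd⟩ := hcon b hb
      have hc0 : c ≠ 0 := by
        rintro rfl
        rw [zero_smul] at hc
        exact ha0 hc
      apply hab (d * c⁻¹)
      rw [hd, hc, smul_smul, mul_assoc, inv_mul_cancel₀ hc0, mul_one]
    refine ⟨x - (x ⬝ᵥ p) • v, W.sub_mem hx (W.smul_mem _ (hvU W hW)),
      fun h => hxv _ (sub_eq_zero.1 h), ?_, ?_⟩
    · rw [sub_dotProduct, smul_dotProduct, hp, smul_eq_mul, mul_one, sub_self]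
    · symm
      apply Submodule.eq_of_le_of_finrank_eq
      · rw [Submodule.span_le]
        rintro y (rfl | rfl)
        · exact hvU W hW
        · exact W.sub_mem hx (W.smul_mem _ (hvU W hW))
      · rw [hW2]
        apply finrank_span_pair hv
        intro c hc
        apply hxv (c + x ⬝ᵥ p)
        rw [add_smul, ← hc]
        abel
  choose! w hwW hw0 hwp hWw using hex
  have hnp : ∀ W ∈ U, ∀ c : K, w W ≠ c • v := by
    intro W hW c hc
    have h1 := hwp W hW
    rw [hc, smul_dotProduct, hp, smul_eq_mul, mul_one] at h1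
    apply hw0 W hW
    rw [hc, h1, zero_smul]
  have hrel : IsRelPrime (lf v) (∏ W ∈ U, lf (w W) : (MvPolynomial (Fin l) K)) := by
    apply IsRelPrime.prod_right
    intro W hW
    exact isRelPrime_lf hv (hnp W hW)
  have hret : ∀ W ∈ U, ret v p (lf (w W)) = lf (w W) := by
    intro W hW
    rw [ret_lf, hwp W hW, zero_smul, sub_zero]
  refine ⟨∏ W ∈ U, lf (w W), ?_, hrel, ?_, p, hp, ?_, ?_⟩
  · have := IsHomogeneous.prod U (fun W => (lf (w W) : (MvPolynomial (Fin l) K))) (fun _ => 1)
      (fun W _ => lf_homogeneous _)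
    simpa using this
  · apply le_antisymm
    · intro g hg
      rw [mem_IU] at hg
      have h1 : ∏ W ∈ U, lf (w W) ∣ ret v p g := by
        apply Finset.prod_dvd_of_isRelPrime
        · intro W hW W' hW' hne
          apply isRelPrime_lf (hw0 W hW)
          intro c hc
          apply hne
          rw [hWw W hW, hWw W' hW']
          symm
          apply Submodule.eq_of_le_of_finrank_eq
          · rw [Submodule.span_le]
            rintro y (rfl | rfl)
            · exact Submodule.subset_span (by simp)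
            · rw [hc]
              exact Submodule.smul_mem _ _ (Submodule.subset_span (by simp))
          · rw [finrank_span_pair hv (hnp W hW), finrank_span_pair hv (hnp W' hW')]
        · intro W hW
          obtain ⟨hW2, hWA⟩ := (hU W).1 hW
          have h2 := hg W hW2 hWA
          rw [hWw W hW, IW_span] at h2
          obtain ⟨x, y, rfl⟩ := Ideal.mem_span_pair.1 h2
          rw [map_add, map_mul, map_mul, ret_self hp, mul_zero, zero_add, hret W hW]
          exact dvd_mul_left _ _
      have h2 : g = (g - ret v p g) + ret v p g := by ring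
      rw [h2]
      exact Ideal.add_mem _ (Ideal.mem_of_dvd _ (dvd_sub_ret v p g) (Ideal.subset_span (by simp)))
        (Ideal.mem_of_dvd _ h1 (Ideal.subset_span (by simp)))
    · rw [Ideal.span_le]
      rintro g (rfl | rfl)
      · rw [SetLike.mem_coe, mem_IU]
        intro W hW2 hWA
        exact Ideal.subset_span ⟨v, hvU W ((hU W).2 ⟨hW2, hWA⟩), rfl⟩
      · rw [SetLike.mem_coe, mem_IU]
        intro W hW2 hWA
        have hW := (hU W).2 ⟨hW2, hWA⟩
        exact Ideal.mem_of_dvd _ (Finset.dvd_prod_of_mem (fun W => lf (w W)) hW)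
          (Ideal.subset_span ⟨w W, hwW W hW, rfl⟩)
  · rw [map_prod]
    exact Finset.prod_congr rfl hret
  · exact Finset.prod_ne_zero_iff.2 fun W hW => lf_ne_zero (hw0 W hW)

/-- If the ideal is a complete intersection of type `(1, j)`, there are exactly `j` uncovered
subspaces. -/
theorem card_of_ci (U : Finset (Submodule K (Fin l → K)))
    (hU : ∀ W, W ∈ U ↔ Module.finrank K W = 2 ∧ ∀ i, A i ∉ W) {f g : (MvPolynomial (Fin l) K)} {j : ℕ}
    (hf : f.IsHomogeneous 1) (hg : g.IsHomogeneous j) (hfg : IsRelPrime f g) (hf0 : f ≠ 0)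
    (hI : IU A = Ideal.span {f, g}) : U.card = j := by
  classical
  obtain ⟨v, rfl⟩ := exists_lf hf
  have hv : v ≠ 0 := by
    rintro rfl
    exact hf0 lf_zero
  have hvU : ∀ W ∈ U, v ∈ W := by
    intro W hW
    obtain ⟨hW2, hWA⟩ := (hU W).1 hW
    apply lf_mem_IW hW2
    have h1 : lf v ∈ IU A := by rw [hI]; exact Ideal.subset_span (by simp)
    exact mem_IU.1 h1 W hW2 hWA
  obtain ⟨P, hP, -, hIP, p, hp, hretP, hP0⟩ := IU_of_common U hU hv hvU
  set G := ret v p g with hG
  have hGh : G.IsHomogeneous j := by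
    have := hg.aeval (fun i => X i - C (p i) * lf v) (n := 1) (by
      intro i
      exact (isHomogeneous_X K i).sub ((lf_homogeneous v).C_mul _))
    rwa [one_mul] at this
  have hPI : P ∈ Ideal.span {lf v, g} := by
    rw [← hI, hIP]
    exact Ideal.subset_span (by simp)
  have hgI : g ∈ Ideal.span {lf v, P} := by
    rw [← hIP, hI]
    exact Ideal.subset_span (by simp)
  obtain ⟨x, y, hxy⟩ := Ideal.mem_span_pair.1 hPI
  obtain ⟨x', y', hxy'⟩ := Ideal.mem_span_pair.1 hgI
  have h1 : G ∣ P := by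
    have := congrArg (ret v p) hxy
    rw [map_add, map_mul, map_mul, ret_self hp, mul_zero, zero_add, hretP] at this
    rw [← this]
    exact dvd_mul_left _ _
  have h2 : P ∣ G := by
    have := congrArg (ret v p) hxy'
    rw [map_add, map_mul, map_mul, ret_self hp, mul_zero, zero_add, hretP] at this
    rw [hG, ← this]
    exact dvd_mul_left _ _
  have hG0 : G ≠ 0 := by
    intro h0
    rw [h0, zero_dvd_iff] at h1
    exact hP0 h1
  have hd1 := hP.totalDegree hP0
  have hd2 := hGh.totalDegree hG0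
  obtain ⟨s, hs⟩ := h1
  obtain ⟨t, ht⟩ := h2
  have hs0 : s ≠ 0 := by
    rintro rfl
    rw [mul_zero] at hs
    exact hP0 hs
  have ht0 : t ≠ 0 := by
    rintro rfl
    rw [mul_zero] at ht
    exact hG0 ht
  have h3 := congrArg totalDegree hs
  have h4 := congrArg totalDegree ht
  rw [totalDegree_mul_of_isDomain hG0 hs0] at h3
  rw [totalDegree_mul_of_isDomain hP0 ht0] at h4
  omega

end

end Pool.Agent.H160.TF
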