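import Mathlib
import Pool.Agent.H160.TF.Near

set_option autoImplicit false

/-! # Main theorems on arrangements over finite fields -/

namespace Pool.Agent.H160.TF

open MvPolynomial

section

variable {K : Type} [Field K] {l n : ℕ}

/-- the module of logarithmic vector fields, in matrix form -/
noncomputable abbrev DD (A : Matrix (Fin n) (Fin l) K) :
    Submodule (MvPolynomial (Fin l) K) (Fin l → MvPolynomial (Fin l) K) :=
  Submodule.comap (Matrix.mulVecLin (A.map MvPolynomial.C))
    (Submodule.pi Set.univ (fun i : Fin n =>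
      (Ideal.span {(Matrix.mulVec (A.map MvPolynomial.C)
          (fun j => (MvPolynomial.X j : MvPolynomial (Fin l) K))) i} :
        Submodule (MvPolynomial (Fin l) K) (MvPolynomial (Fin l) K))))

theorem DD_eq (A : Matrix (Fin n) (Fin l) K) : DD A = LD (fun i => A i) := by
  ext η
  rw [Submodule.mem_comap, Submodule.mem_pi]
  constructor
  · intro h i
    have h1 := h i (Set.mem_univ i)
    exact Ideal.mem_span_singleton.1 h1
  · intro h i _
    exact Ideal.mem_span_singleton.2 (h i)

/-- free with a homogeneous basis of given degrees -/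
def FreeExp (A : Matrix (Fin n) (Fin l) K) (e : Fin l → ℕ) : Prop :=
  ∃ b : Module.Basis (Fin l) (MvPolynomial (Fin l) K) (DD A),
    ∀ k j, ((b k : Fin l → MvPolynomial (Fin l) K) j).IsHomogeneous (e k)

theorem FreeExp.free {A : Matrix (Fin n) (Fin l) K} {e : Fin l → ℕ} (h : FreeExp A e) :
    Module.Free (MvPolynomial (Fin l) K) (DD A) := by
  obtain ⟨b, -⟩ := h
  exact Module.Free.of_basis b

theorem freeExp_of {A : Matrix (Fin n) (Fin l) K} {e : Fin l → ℕ}
    (b : Module.Basis (Fin l) (MvPolynomial (Fin l) K) (LD (fun i => A i)))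
    (hb : ∀ k, HomF (e k) (b k : Fin l → MvPolynomial (Fin l) K)) : FreeExp A e := by
  refine ⟨b.map (LinearEquiv.ofEq _ _ (DD_eq A).symm), fun k j => ?_⟩
  rw [Module.Basis.map_apply]
  exact hb k j

theorem free_iff_LD (A : Matrix (Fin n) (Fin l) K) :
    Module.Free (MvPolynomial (Fin l) K) (DD A) ↔
      Module.Free (MvPolynomial (Fin l) K) (LD (fun i => A i)) := by
  rw [DD_eq]

end

section

variable {K : Type} [Field K] [Fintype K] {l n : ℕ}

/-- the uncovered pencils -/
theorem exists_uncW (A : Matrix (Fin n) (Fin l) K) :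
    ∃ U : Finset (Submodule K (Fin l → K)), U.card = (unc A).card ∧
      ∀ W, W ∈ U ↔ Module.finrank K W = 2 ∧ ∀ i, A i ∉ W := by
  classical
  refine ⟨(unc A).image perp, ?_, ?_⟩
  · apply Finset.card_image_of_injective
    intro X Y h
    rw [← perp_perp X, h, perp_perp]
  · intro W
    rw [Finset.mem_image]
    constructor
    · rintro ⟨X, hX, rfl⟩
      rw [mem_unc] at hX
      have h1 := finrank_perp X
      exact ⟨by omega, fun i hi => hX.2 i (le_HH.2 hi)⟩
    · rintro ⟨h1, h2⟩
      refine ⟨perp W, ?_, perp_perp W⟩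
      rw [mem_unc]
      have h3 := finrank_perp W
      exact ⟨by omega, fun i hi => h2 i (by rw [le_HH, perp_perp] at hi; exact hi)⟩

theorem arith (q : ℕ) (hq : 1 < q) (m : ℕ) :
    (2 * q - 1) * (∑ j ∈ Finset.range m, q ^ j) + 2 = ∑ j ∈ Finset.range (m + 1), q ^ j + q ^ m := by
  have h1 := geom q hq m
  rw [Finset.sum_range_succ]
  obtain ⟨k, rfl⟩ : ∃ k, q = k + 1 := ⟨q - 1, by omega⟩
  rw [Nat.add_sub_cancel] at h1
  have h2 : 2 * (k + 1) - 1 = 2 * k + 1 := by omega
  rw [h2]
  nlinarith

omit [Fintype K] in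
theorem image_card {A : Matrix (Fin n) (Fin l) K} (hA : Dist A) :
    ∃ F : Finset (Fin l → K), F.card = n ∧ ∀ W : Submodule K (Fin l → K),
      (∀ a ∈ F, a ∉ W) ↔ ∀ i, A i ∉ W := by
  classical
  refine ⟨Finset.univ.image (fun i => A i), ?_, ?_⟩
  · rw [Finset.card_image_of_injective, Finset.card_univ, Fintype.card_fin]
    intro i j hij
    by_contra hne
    exact hA.1 i j hne 1 (by rw [one_smul]; exact hij)
  · intro W
    constructor
    · intro h i
      exact h (A i) (Finset.mem_image_of_mem _ (Finset.mem_univ i))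
    · intro h a ha
      obtain ⟨i, -, rfl⟩ := Finset.mem_image.1 ha
      exact h i

/-- **lower bound for the number of uncovered subspaces** -/
theorem unc_bound {A : Matrix (Fin n) (Fin l) K} (hA : Dist A) (hl : 2 ≤ l)
    (hu : (unc A).card ≠ 0) :
    ∑ j ∈ Finset.range (l - 1), Fintype.card K ^ j + Fintype.card K ^ (l - 2) ≤
      n + (unc A).card + 1 := by
  obtain ⟨U, hUc, hU⟩ := exists_uncW A
  obtain ⟨F, hFc, hF⟩ := image_card hA
  have h1 := missed_bound F U (fun W => by rw [hU, hF]) (by
    rw [← Finset.card_pos, hUc]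
    omega)
  have h2 := arith (Fintype.card K) (one_lt_q (K := K)) (l - 2)
  rw [show l - 2 + 1 = l - 1 by omega] at h2
  omega

theorem const_of_unc {A : Matrix (Fin n) (Fin l) K} (hu : (unc A).card ≠ 0) :
    ∀ g ∈ IU (fun i => A i), constantCoeff g = 0 := by
  obtain ⟨U, hUc, hU⟩ := exists_uncW A
  have h1 : U.Nonempty := by
    rw [← Finset.card_pos, hUc]
    omega
  obtain ⟨W, hW⟩ := h1
  intro g hg
  exact IW_le (mem_IU.1 hg W ((hU W).1 hW).1 ((hU W).1 hW).2)

omit [Fintype K] in
theorem dist_fun {A : Matrix (Fin n) (Fin l) K} (hA : Dist A) : Dist (fun i => A i) := hA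

/-- covering arrangements -/
theorem main_cover {A : Matrix (Fin n) (Fin l) K} (hA : Dist A) (hl : 2 ≤ l)
    (hu : (unc A).card = 0) : ∑ j ∈ Finset.range (l - 1), Fintype.card K ^ j ≤ n ∧
      FreeExp A (fun k => if k.val < l - 1 then Fintype.card K ^ k.val else
        n - ∑ j ∈ Finset.range (l - 1), Fintype.card K ^ j) := by
  obtain ⟨B, hB, hBc⟩ := exists_comp (dist_fun hA)
  have hcov : Cov (fun i => A i) := (cov_iff A).2 ((covers_iff_unc A).2 hu)
  obtain ⟨hle, b, hb1, hb2⟩ := hB.free_of_adm (by omega) (hB.adm_of_cov hcov)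
  rw [range_pred (show 0 < l by omega), Finset.sum_range_succ] at hBc
  refine ⟨by omega, freeExp_of b fun k => ?_⟩
  by_cases hk : k.val < l - 1
  · rw [if_pos hk, hb1 k hk]
    exact th_homF _
  · rw [if_neg hk]
    have h1 := hb2 k (by have := k.isLt; omega)
    have h2 : Fintype.card K ^ (l - 1) - B.card =
        n - ∑ j ∈ Finset.range (l - 1), Fintype.card K ^ j := by omega
    rwa [h2] at h1

/-- complete intersections -/
theorem main_ci {A : Matrix (Fin n) (Fin l) K} (hA : Dist A) (hl : 2 ≤ l) {i j : ℕ} (hi : 1 ≤ i)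
    (hj : 1 ≤ j) (hij : i + j + n = ∑ j ∈ Finset.range (l - 1), Fintype.card K ^ j +
      Fintype.card K ^ (l - 2)) {f g : MvPolynomial (Fin l) K} (hf : f.IsHomogeneous i)
    (hg : g.IsHomogeneous j) (hfg : IsRelPrime f g) (hI : idealU A = Ideal.span {f, g}) :
    i ≤ Fintype.card K ^ (l - 2) ∧ j ≤ Fintype.card K ^ (l - 2) ∧
    FreeExp A (fun k => if k.val < l - 2 then Fintype.card K ^ k.val else
      if k.val = l - 2 then Fintype.card K ^ (l - 2) - j else Fintype.card K ^ (l - 2) - i) := by
  obtain ⟨m, rfl⟩ : ∃ m, l = m + 2 := ⟨l - 2, by omega⟩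
  obtain ⟨B, hB, hBc⟩ := exists_comp (dist_fun hA)
  rw [Finset.sum_range_succ] at hBc
  simp only [show m + 2 - 1 = m + 1 from rfl, show m + 2 - 2 = m from rfl] at hij ⊢
  have hI' : IU (fun i => A i) = Ideal.span {f, g} := by rw [← hI, idealU_eq]
  obtain ⟨h1, h2, b, hb1, hb2, hb3⟩ := hB.free_of_ci hi hj (by omega) hf hg hfg hI'
  refine ⟨h1, h2, freeExp_of b fun k => ?_⟩
  rcases lt_trichotomy k.val m with hk | hk | hk
  · rw [if_pos hk, hb1 k hk]
    exact th_homF _
  · rw [if_neg (by omega), if_pos hk]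
    exact hb2 k hk
  · rw [if_neg (by omega), if_neg (by omega)]
    exact hb3 k (by have := k.isLt; omega)

theorem li_one {V : Type} [AddCommGroup V] [Module K V] {m : ℕ} (hm : m = 1) (v : Fin m → V)
    (hv : ∀ i, v i ≠ 0) : LinearIndependent K v := by
  subst hm
  rw [linearIndependent_unique_iff]
  exact hv _

/-- necessity of the complete intersection condition -/
theorem main_ci_conv {A : Matrix (Fin n) (Fin l) K} (hA : Dist A) (hl : 3 ≤ l)
    (hR : (l = 3 ∧ 1 ≤ n) ∨ ∑ j ∈ Finset.range (l - 1), Fintype.card K ^ j +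
      Fintype.card K ^ (l - 3) ≤ n + 1)
    (hfree : Module.Free (MvPolynomial (Fin l) K) (DD A)) (hu : (unc A).card ≠ 0) :
    ∃ (i j : ℕ) (f g : MvPolynomial (Fin l) K), 1 ≤ i ∧ 1 ≤ j ∧
      i + j + n = ∑ j ∈ Finset.range (l - 1), Fintype.card K ^ j + Fintype.card K ^ (l - 2) ∧
      f.IsHomogeneous i ∧ g.IsHomogeneous j ∧ IsRelPrime f g ∧ idealU A = Ideal.span {f, g} := by
  obtain ⟨m, rfl⟩ : ∃ m, l = m + 1 + 2 := ⟨l - 3, by omega⟩
  obtain ⟨B, hB, hBc⟩ := exists_comp (dist_fun hA)
  rw [Finset.sum_range_succ] at hBc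
  simp only [show m + 1 + 2 - 1 = m + 2 from rfl, show m + 1 + 2 - 2 = m + 1 from rfl,
    show m + 1 + 2 - 3 = m from rfl] at hR ⊢
  have hI := const_of_unc hu
  obtain ⟨e⟩ := exists_basis ((free_iff_LD A).1 hfree)
  have hrow : LinearIndependent K (fun j : Fin (m + 1) =>
      row e ⟨th K (m + 1 + 2) j, th_mem (A := fun i => A i) (j : ℕ)⟩) := by
    rcases hR with ⟨h3, hn⟩ | hR
    · apply li_one (by omega)
      intro j
      have hj : (j : ℕ) = 0 := by have := j.isLt; omega
      have h2 : (⟨th K (m + 1 + 2) (j : ℕ), th_mem (j : ℕ)⟩ : LD (fun i => A i)) =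
          ⟨th K (m + 1 + 2) 0, th_mem 0⟩ := by
        apply Subtype.ext
        simp only [hj]
      rw [h2]
      exact row_euler (⟨0, by omega⟩ : Fin n) (hA.2 _) e
    · apply hB.rows_indep (by omega) e (by omega) _ hI
      intro j hj
      have h1 : Fintype.card K ^ j ≤ Fintype.card K ^ m :=
        Nat.pow_le_pow_right Fintype.card_pos (by omega)
      have h2 : m + 1 + 2 - 1 = m + 2 := rfl
      rw [h2]
      omega
  obtain ⟨i, j, f, g, hi, hj, hij, hf, hg, hfg, hIU⟩ := hB.ci_of_free e hrow hI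
  refine ⟨i, j, f, g, hi, hj, ?_, hf, hg, hfg, ?_⟩
  · have h2 : m + 1 + 1 = m + 2 := rfl
    rw [h2] at hij
    omega
  · rw [idealU_eq]
    exact hIU

/-- nearly covering arrangements -/
theorem main_near {A : Matrix (Fin n) (Fin l) K} (hA : Dist A) (hl : 2 ≤ l)
    (hu : (unc A).card ≠ 0)
    (heq : n + (unc A).card + 1 = ∑ j ∈ Finset.range (l - 1), Fintype.card K ^ j +
      Fintype.card K ^ (l - 2)) :
    (unc A).card ≤ Fintype.card K ^ (l - 2) ∧
    FreeExp A (fun k => if k.val < l - 2 then Fintype.card K ^ k.val else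
      if k.val = l - 2 then Fintype.card K ^ (l - 2) - (unc A).card else
        Fintype.card K ^ (l - 2) - 1) := by
  obtain ⟨U, hUc, hU⟩ := exists_uncW A
  obtain ⟨F, hFc, hF⟩ := image_card hA
  have h2 := arith (Fintype.card K) (one_lt_q (K := K)) (l - 2)
  rw [show l - 2 + 1 = l - 1 by omega] at h2
  obtain ⟨v, hv, hvU⟩ := missed_eq F U (fun W => by rw [hU, hF]) (by
    rw [← Finset.card_pos, hUc]
    omega) (by omega)
  obtain ⟨g, hg, hrel, hI, -⟩ := IU_of_common (A := fun i => A i) U hU hv hvU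
  have h3 := main_ci hA hl (i := 1) (j := U.card) le_rfl (by omega) (by omega)
    (lf_homogeneous v) hg hrel (by rw [idealU_eq]; exact hI)
  rw [hUc] at h3
  exact ⟨h3.2.1, h3.2.2⟩

/-- classification of large free arrangements -/
theorem main_large {A : Matrix (Fin n) (Fin l) K} (hA : Dist A) (hl : 3 ≤ l)
    (hn : ∑ j ∈ Finset.range (l - 1), Fintype.card K ^ j + Fintype.card K ^ (l - 2) ≤ n + 3) :
    Module.Free (MvPolynomial (Fin l) K) (DD A) ↔ (unc A).card = 0 ∨
      n + (unc A).card + 1 = ∑ j ∈ Finset.range (l - 1), Fintype.card K ^ j +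
        Fintype.card K ^ (l - 2) := by
  constructor
  · intro hfree
    by_cases hu : (unc A).card = 0
    · exact Or.inl hu
    · right
      have hq1 : 1 < Fintype.card K := one_lt_q (K := K)
      have hR : (l = 3 ∧ 1 ≤ n) ∨ ∑ j ∈ Finset.range (l - 1), Fintype.card K ^ j +
          Fintype.card K ^ (l - 3) ≤ n + 1 := by
        rcases Nat.lt_or_ge 3 l with h | h
        · right
          obtain ⟨m, rfl⟩ : ∃ m, l = m + 4 := ⟨l - 4, by omega⟩
          simp only [show m + 4 - 1 = m + 3 from rfl, show m + 4 - 2 = m + 2 from rfl,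
            show m + 4 - 3 = m + 1 from rfl] at hn ⊢
          have h1 : 2 ≤ Fintype.card K ^ (m + 1) := by
            calc 2 ≤ Fintype.card K ^ 1 := by rw [pow_one]; omega
              _ ≤ Fintype.card K ^ (m + 1) := Nat.pow_le_pow_right (by omega) (by omega)
          have h2 : 2 * Fintype.card K ^ (m + 1) ≤ Fintype.card K ^ (m + 2) := by
            rw [pow_succ (Fintype.card K) (m + 1), mul_comm]
            exact Nat.mul_le_mul_left _ (by omega)
          omega
        · left
          obtain rfl : l = 3 := by omega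
          simp only [show 3 - 1 = 2 from rfl, show 3 - 2 = 1 from rfl, Finset.sum_range_succ,
            Finset.sum_range_zero, pow_zero, pow_one] at hn
          omega
      obtain ⟨i, j, f, g, hi, hj, hij, hf, hg, hfg, hI⟩ := main_ci_conv hA hl hR hfree hu
      obtain ⟨U, hUc, hU⟩ := exists_uncW A
      have hc : ∀ g ∈ idealU A, constantCoeff g = 0 := by
        intro g hg
        rw [idealU_eq] at hg
        exact const_of_unc hu g hg
      have hf0c : constantCoeff f = 0 := hc f (by rw [hI]; exact Ideal.subset_span (by simp))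
      have hg0c : constantCoeff g = 0 := hc g (by rw [hI]; exact Ideal.subset_span (by simp))
      have hf0 : f ≠ 0 := by
        intro h0
        rw [h0] at hfg
        have h1 : IsUnit g := hfg (dvd_zero g) dvd_rfl
        have h2 := h1.map (constantCoeff : MvPolynomial (Fin l) K →+* K)
        rw [hg0c] at h2
        exact not_isUnit_zero h2
      have hg0 : g ≠ 0 := by
        intro h0
        rw [h0] at hfg
        have h1 : IsUnit f := hfg dvd_rfl (dvd_zero f)
        have h2 := h1.map (constantCoeff : MvPolynomial (Fin l) K →+* K)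
        rw [hf0c] at h2
        exact not_isUnit_zero h2
      rw [idealU_eq] at hI
      rcases Nat.lt_or_ge 1 i with h1 | h1
      · obtain rfl : j = 1 := by omega
        have h2 := card_of_ci U hU hg hf hfg.symm hg0 (by rw [hI, Set.pair_comm])
        omega
      · obtain rfl : i = 1 := by omega
        have h2 := card_of_ci U hU hf hg hfg hf0 hI
        omega
  · rintro (hu | heq)
    · exact (main_cover hA (by omega) hu).2.free
    · by_cases hu : (unc A).card = 0
      · exact (main_cover hA (by omega) hu).2.free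
      · exact (main_near hA (by omega) hu heq).2.free

/-- structure theorem -/
theorem main_structure {A : Matrix (Fin n) (Fin l) K} (hA : Dist A) (hl : 1 ≤ l) :
    ∃ π : DD A →ₗ[MvPolynomial (Fin l) K] MvPolynomial (Fin l) K,
      (∀ η : DD A, π η = 0 ↔ (η : Fin l → MvPolynomial (Fin l) K) ∈
        Submodule.span (MvPolynomial (Fin l) K) (Set.range fun k : Fin (l - 1) => th K l k)) ∧
      LinearMap.range π = idealU A ∧
      (∀ (d : ℕ) (η : DD A),
        (∀ j, ((η : Fin l → MvPolynomial (Fin l) K) j).IsHomogeneous d) →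
        (∀ e : ℕ, e + n = d + ∑ j ∈ Finset.range (l - 1), Fintype.card K ^ j →
          (π η).IsHomogeneous e) ∧
        (d + ∑ j ∈ Finset.range (l - 1), Fintype.card K ^ j < n → π η = 0)) := by
  obtain ⟨B, hB, hBc⟩ := exists_comp (dist_fun hA)
  rw [range_pred (show 0 < l by omega), Finset.sum_range_succ] at hBc
  have hl0 : 0 < l := by omega
  let ψ : DD A ≃ₗ[MvPolynomial (Fin l) K] LD (fun i => A i) := LinearEquiv.ofEq _ _ (DD_eq A)
  refine ⟨(hB.pi hl0).comp ψ.toLinearMap, ?_, ?_, ?_⟩
  · intro η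
    constructor
    · intro h
      obtain ⟨s, hs⟩ := hB.pi_ker hl0 (ψ η) h
      have h1 : (η : Fin l → MvPolynomial (Fin l) K) = ∑ j ∈ Finset.range (l - 1), s j • th K l j :=
        hs
      rw [h1]
      refine Submodule.sum_mem _ fun j hj => Submodule.smul_mem _ _ (Submodule.subset_span
        ⟨⟨j, Finset.mem_range.1 hj⟩, rfl⟩)
    · intro h
      obtain ⟨c, hc⟩ := (Submodule.mem_span_range_iff_exists_fun _).1 h
      have h1 : ψ η = ∑ k : Fin (l - 1), c k • (⟨th K l k, th_mem k⟩ : LD (fun i => A i)) := by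
        apply Subtype.ext
        simp only [AddSubmonoidClass.coe_finsetSum, SetLike.val_smul]
        exact hc.symm
      rw [LinearMap.comp_apply, LinearEquiv.coe_coe, h1, map_sum]
      apply Finset.sum_eq_zero
      intro k _
      rw [map_smul, hB.pi_th hl0 k k.isLt, smul_zero]
  · rw [idealU_eq]
    ext g
    constructor
    · rintro ⟨η, rfl⟩
      exact hB.pi_mem hl0 (ψ η)
    · intro hg
      obtain ⟨η, hη⟩ := hB.pi_surj hl0 hg
      exact ⟨ψ.symm η, by rw [LinearMap.comp_apply, LinearEquiv.coe_coe, ψ.apply_symm_apply, hη]⟩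
  · intro d η hη
    obtain ⟨h1, h2⟩ := hB.pi_hom hl0 (ψ η) hη
    constructor
    · intro e he
      have h3 := h1 (by omega)
      have h4 : B.card + d - Fintype.card K ^ (l - 1) = e := by omega
      rwa [h4] at h3
    · intro hlt
      exact h2 (by omega)

end

end Pool.Agent.H160.TF
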